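import Pool.Agent.V7H24.Rig.Move

set_option autoImplicit false
set_option linter.unusedSectionVars false

namespace Pool.Agent.V7H24.Rig

open Finset

variable {n : ℕ}

theorem deg_of_mem {G : SimpleGraph (Fin n)} (hG : Circ G) {v w : Fin n} (h : w ∈ nb G v) :
    (nb G v).card = 5 := by
  rcases hG.reg v with h' | h'
  · rw [h'] at h; simp at h
  · exact h'

theorem triangle_nb {G : SimpleGraph (Fin n)} (hG : Circ G) {v i i' : Fin n}
    (h1 : G.Adj v i) (h2 : G.Adj v i') (h3 : G.Adj i i') :
    insert i (nb G i) = insert i' (nb G i') := by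
  classical
  have hv : (nb G v).card = 5 := deg_of_mem hG (mem_nb.mpr h1)
  obtain ⟨ω, ω', c, ρ, hnz, hs, hs', hcv, -, hρ, hinj⟩ := move hG hv
  have e1 := hρ i (mem_nb.mpr h1) i' (mem_nb.mpr h3) h2.ne.symm
  have e2 := hρ i' (mem_nb.mpr h2) i (mem_nb.mpr h3.symm) h1.ne.symm
  rw [hs' i' i, hs i' i, e1] at e2
  have hne := hnz i i' h3
  have hρeq : ρ (((nb G i).erase v).erase i') = ρ (((nb G i').erase v).erase i) := by
    have := mul_right_cancel₀ hne e2
    exact mul_left_cancel₀ hcv this
  have hvi : v ∈ nb G i := mem_nb.mpr h1.symm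
  have hvi' : v ∈ nb G i' := mem_nb.mpr h2.symm
  have hii' : i' ∈ (nb G i).erase v := mem_erase.mpr ⟨h2.ne.symm, mem_nb.mpr h3⟩
  have hi'i : i ∈ (nb G i').erase v := mem_erase.mpr ⟨h1.ne.symm, mem_nb.mpr h3.symm⟩
  have hT := hinj _ _
    (by rw [card_erase_of_mem hii', card_erase_of_mem hvi, deg_of_mem hG hvi])
    (by rw [card_erase_of_mem hi'i, card_erase_of_mem hvi', deg_of_mem hG hvi'])
    (by simp) (by simp) hρeq
  have f1 : nb G i = insert v (insert i' (((nb G i).erase v).erase i')) := by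
    rw [insert_erase hii', insert_erase hvi]
  have f2 : nb G i' = insert v (insert i (((nb G i').erase v).erase i)) := by
    rw [insert_erase hi'i, insert_erase hvi']
  rw [f1, f2, hT]
  ext z
  simp only [mem_insert]
  tauto

theorem no_triangle {G : SimpleGraph (Fin n)} (hG : Circ G) {v i i' : Fin n}
    (h1 : G.Adj v i) (h2 : G.Adj v i') (h3 : G.Adj i i') : False := by
  classical
  have hvi : insert v (nb G v) = insert i (nb G i) := triangle_nb hG h2.symm h3.symm h1
  have hall : ∀ x ∈ insert v (nb G v), insert x (nb G x) = insert v (nb G v) := by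
    intro x hx
    rw [mem_insert] at hx
    rcases hx with rfl | hx
    · rfl
    · by_cases hxi : x = i
      · rw [hxi]; exact hvi.symm
      · have : x ∈ insert i (nb G i) := by
          rw [← hvi]; exact mem_insert_of_mem hx
        rw [mem_insert] at this
        have hix : G.Adj i x := mem_nb.mp (this.resolve_left hxi)
        exact (triangle_nb hG h1.symm hix (mem_nb.mp hx)).symm
  have hcomp : ∀ x ∈ insert v (nb G v), ∀ y ∈ insert v (nb G v), x ≠ y → G.Adj x y := by
    intro x hx y hy hxy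
    rw [← hall x hx, mem_insert] at hy
    exact mem_nb.mp (hy.resolve_left hxy.symm)
  have g1 := cr_complete hcomp
  have hc : (insert v (nb G v)).card = 6 := by
    rw [card_insert_of_notMem not_mem_nb_self, deg_of_mem hG (mem_nb.mpr h1)]
  have g2 := hG.sp (insert v (nb G v)) (by omega)
  unfold g at g2
  rw [g1, hc] at g2
  norm_num at g2

theorem nb_eq_of_dist_two {G : SimpleGraph (Fin n)} (hG : Circ G) {v i j : Fin n}
    (hvi : G.Adj v i) (hij : G.Adj i j) : nb G j = nb G v := by
  classical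
  by_cases hjv : j = v
  · rw [hjv]
  have hv : (nb G v).card = 5 := deg_of_mem hG (mem_nb.mpr hvi)
  have hj5 : (nb G j).card = 5 := deg_of_mem hG (mem_nb.mpr hij.symm)
  obtain ⟨ω, ω', c, ρ, hnz, hs, hs', hcv, hc, hρ, hinj⟩ := move hG hv
  -- values of `c` at second neighbours
  have hsec : ∀ i ∈ nb G v, ∀ j ∈ nb G i, j ≠ v →
      j ∉ nb G v ∧ c j = c v * ρ (((nb G i).erase v).erase j) := by
    intro i hi j hj hjv
    have hjN : j ∉ nb G v := fun h => no_triangle hG (mem_nb.mp hi) (mem_nb.mp h) (mem_nb.mp hj)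
    refine ⟨hjN, ?_⟩
    have e1 := hρ i hi j hj hjv
    have e2 := hc j hjN i (mem_nb.mp hj).symm
    rw [hs' j i, hs j i, e1] at e2
    exact (mul_right_cancel₀ (hnz i j (mem_nb.mp hj)) e2).symm
  have hTprop : ∀ i ∈ nb G v, ∀ j ∈ nb G i, j ≠ v →
      (((nb G i).erase v).erase j).card = 3 ∧ v ∉ ((nb G i).erase v).erase j := by
    intro i hi j hj hjv
    have hvi : v ∈ nb G i := nb_symm.mp hi
    refine ⟨?_, by simp⟩
    rw [card_erase_of_mem (mem_erase.mpr ⟨hjv, hj⟩), card_erase_of_mem hvi, deg_of_mem hG hvi]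
  have hTeq : ∀ i ∈ nb G v, ∀ j ∈ nb G i, j ≠ v → ∀ i' ∈ nb G v, ∀ j' ∈ nb G i', j' ≠ v →
      c j = c j' → ((nb G i).erase v).erase j = ((nb G i').erase v).erase j' := by
    intro i hi j hj hjv i' hi' j' hj' hj'v hcc
    rw [(hsec i hi j hj hjv).2, (hsec i' hi' j' hj' hj'v).2] at hcc
    obtain ⟨a1, a2⟩ := hTprop i hi j hj hjv
    obtain ⟨b1, b2⟩ := hTprop i' hi' j' hj' hj'v
    exact hinj _ _ a1 b1 a2 b2 (mul_left_cancel₀ hcv hcc)
  have herase : ∀ S : Finset (Fin n), ∀ x ∈ S, ∀ y ∈ S, S.erase x = S.erase y → x = y := by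
    intro S x hx y hy h
    by_contra hxy
    have : x ∈ S.erase y := mem_erase.mpr ⟨hxy, hx⟩
    rw [← h] at this
    simp at this
  have hiN : i ∈ nb G v := mem_nb.mpr hvi
  have hjN' : j ∈ nb G i := mem_nb.mpr hij
  have hjN : j ∉ nb G v := (hsec i hiN j hjN' hjv).1
  -- no other vertex with the same value is adjacent to `N(v)`
  have hfar : ∀ j', j' ≠ v → j' ≠ j → c j' = c j → ∀ i' ∈ nb G v, ¬ G.Adj i' j' := by
    intro j' hj'v hj'j hcc i' hi' hadj
    have hj'i' : j' ∈ nb G i' := mem_nb.mpr hadj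
    have hT := hTeq i hiN j hjN' hjv i' hi' j' hj'i' hj'v hcc.symm
    have hvi0 : v ∈ nb G i := nb_symm.mp hiN
    have hvi1 : v ∈ nb G i' := nb_symm.mp hi'
    -- the common triple is nonempty
    have hTc := (hTprop i hiN j hjN' hjv).1
    obtain ⟨t, ht⟩ : (((nb G i).erase v).erase j).Nonempty := card_pos.mp (by omega)
    have ht' := ht
    rw [hT] at ht'
    simp only [mem_erase] at ht ht'
    obtain ⟨htj, htv, hti⟩ := ht
    obtain ⟨htj', -, hti'⟩ := ht'
    have hT2 := hTeq i hiN t hti htv i' hi' t hti' htv rfl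
    have hNN : nb G i = nb G i' := by
      rw [← insert_erase hvi0, ← insert_erase (mem_erase.mpr ⟨htv, hti⟩), hT2,
        insert_erase (mem_erase.mpr ⟨htv, hti'⟩), insert_erase hvi1]
    rw [hNN] at hT hjN'
    exact hj'j (herase _ j' (mem_erase.mpr ⟨hj'v, hj'i'⟩) j (mem_erase.mpr ⟨hjv, hjN'⟩)
      hT.symm)
  -- propagation of the value
  have hprop : ∀ k, k ∉ nb G v → ∀ y, y ∉ nb G v → G.Adj k y → c y = c k := by
    intro k hk y hy hky
    have e1 := hc k hk y hky
    have e2 := hc y hy k hky.symm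
    rw [hs' y k, hs y k, e1] at e2
    exact (mul_right_cancel₀ (hnz k y hky) e2).symm
  let D : Finset (Fin n) := univ.filter (fun k => k ∉ nb G v ∧ k ≠ v ∧ k ≠ j ∧ c k = c j ∧
    nb G k ≠ ∅)
  have hD : ∀ k, k ∈ D ↔ k ∉ nb G v ∧ k ≠ v ∧ k ≠ j ∧ c k = c j ∧ nb G k ≠ ∅ := by
    intro k; simp [D]
  have hDcl : ∀ k ∈ D, ∀ y, G.Adj k y → y ∈ D ∨ y = j := by
    intro k hk y hky
    rw [hD] at hk
    obtain ⟨k1, k2, k3, k4, k5⟩ := hk
    have hyN : y ∉ nb G v := fun h => hfar k k2 k3 k4 y h hky.symm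
    have hyv : y ≠ v := by
      rintro rfl
      exact k1 (mem_nb.mpr hky.symm)
    by_cases hyj : y = j
    · exact Or.inr hyj
    · left
      rw [hD]
      refine ⟨hyN, hyv, hyj, (hprop k k1 y hyN hky).trans k4, ?_⟩
      intro h
      have : k ∈ nb G y := mem_nb.mpr hky.symm
      rw [h] at this
      simp at this
  have hDempty : D = ∅ := by
    by_contra hne
    obtain ⟨k, hk⟩ := nonempty_iff_ne_empty.mpr hne
    have hk' := (hD k).mp hk
    obtain ⟨y, hy⟩ := nonempty_iff_ne_empty.mpr hk'.2.2.2.2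
    have hvD : v ∉ D := fun h => ((hD v).mp h).2.1 rfl
    refine circ_sep hG (P := insert j D) (Q := univ \ D) (W := {j}) (by simp) ?_ ?_
      (mem_nb.mp hy) (by simp [hk]) hvi (by simp [hvD, Ne.symm hjv])
    · intro z hz
      simp only [mem_inter, mem_insert, mem_sdiff, mem_univ, true_and] at hz
      rw [mem_singleton]; tauto
    · intro a b hab
      by_cases ha : a ∈ D
      · left
        rw [mem_insert, mem_insert]
        exact ⟨Or.inr ha, (hDcl a ha b hab).symm⟩
      · by_cases hb : b ∈ D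
        · left
          rw [mem_insert, mem_insert]
          exact ⟨(hDcl b hb a hab.symm).symm, Or.inr hb⟩
        · right
          simp [ha, hb]
  have hsub : nb G j ⊆ nb G v := by
    intro y hy
    by_contra hyN
    have hjy := mem_nb.mp hy
    have hyv : y ≠ v := by
      rintro rfl
      exact hjN (mem_nb.mpr hjy.symm)
    have : y ∈ D := by
      rw [hD]
      refine ⟨hyN, hyv, hjy.ne.symm, hprop j hjN y hyN hjy, ?_⟩
      intro h
      have : j ∈ nb G y := mem_nb.mpr hjy.symm
      rw [h] at this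
      simp at this
    rw [hDempty] at this
    simp at this
  exact eq_of_subset_of_card_le hsub (by omega)

theorem no_circ {G : SimpleGraph (Fin n)} (hG : Circ G) : False := by
  classical
  -- there is an edge
  have hE : ∃ u v, G.Adj u v := by
    by_contra hno
    push Not at hno
    exact hG.dep (indep_of_no_edge hno)
  obtain ⟨v, i, hvi⟩ := hE
  have hv5 : (nb G v).card = 5 := deg_of_mem hG (mem_nb.mpr hvi)
  have hi5 : (nb G i).card = 5 := deg_of_mem hG (mem_nb.mpr hvi.symm)
  have hdisj : Disjoint (nb G v) (nb G i) := by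
    rw [disjoint_left]
    intro z h1 h2
    exact no_triangle hG hvi (mem_nb.mp h1) (mem_nb.mp h2)
  have hNi : ∀ j ∈ nb G i, nb G j = nb G v := fun j hj => nb_eq_of_dist_two hG hvi (mem_nb.mp hj)
  have hNv : ∀ k ∈ nb G v, nb G i ⊆ nb G k := by
    intro k hk j hj
    have : k ∈ nb G j := by rw [hNi j hj]; exact hk
    exact nb_symm.mp this
  have hcr : (50 : ℤ) ≤ cr G (nb G v ∪ nb G i) (nb G v ∪ nb G i) := by
    unfold cr
    have h5 : ∀ u ∈ nb G v ∪ nb G i, (5 : ℤ) ≤ ((nb G u ∩ (nb G v ∪ nb G i)).card : ℤ) := by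
      intro u hu
      rw [mem_union] at hu
      rcases hu with hu | hu
      · have hsub : nb G i ⊆ nb G u ∩ (nb G v ∪ nb G i) :=
          subset_inter (hNv u hu) subset_union_right
        have := card_le_card hsub
        rw [hi5] at this
        exact_mod_cast this
      · rw [hNi u hu]
        have hsub : nb G v ⊆ nb G v ∩ (nb G v ∪ nb G i) :=
          subset_inter (Subset.refl _) subset_union_left
        have := card_le_card hsub
        rw [hv5] at this
        exact_mod_cast this
    have := card_nsmul_le_sum _ _ _ h5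
    rw [card_union_of_disjoint hdisj, hv5, hi5] at this
    simpa using this
  have h12 := hG.sp (nb G v ∪ nb G i) (by
    rw [card_union_of_disjoint hdisj, hv5, hi5]; norm_num)
  unfold g at h12
  rw [card_union_of_disjoint hdisj, hv5, hi5] at h12
  push_cast at h12
  linarith

/-- every sparse graph with maximum degree at most five is independent -/
theorem sparse_indep {G : SimpleGraph (Fin n)} (hs : Sparse G)
    (hdeg : ∀ y, (nb G y).card ≤ 5) : Indep G := by
  by_contra hdep
  obtain ⟨H, hH⟩ := circ_exists hs hdeg hdep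
  exact no_circ hH

end Pool.Agent.V7H24.Rig
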