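import Mathlib

set_option autoImplicit false
set_option linter.unusedSectionVars false

namespace Pool.Agent.V7H24.Rig

open Finset

variable {V : Type*} [Fintype V]

/-- the total force at `v` of the (signed) weights `ω` in the placement `p` -/
def force (p : V → Fin 3 → ℝ) (ω : V → V → ℝ) (v : V) : Fin 3 → ℝ :=
  ∑ u, ω v u • (p v - p u)

/-- symmetric weights supported on the edges of `H` -/
structure On (H : SimpleGraph V) (ω : V → V → ℝ) : Prop where
  symm : ∀ u v, ω u v = ω v u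
  supp : ∀ u v, ¬ H.Adj u v → ω u v = 0

def IsStress (H : SimpleGraph V) (p : V → Fin 3 → ℝ) (ω : V → V → ℝ) : Prop :=
  On H ω ∧ ∀ v, force p ω v = 0

def IndepAt (H : SimpleGraph V) (p : V → Fin 3 → ℝ) : Prop :=
  ∀ ω, IsStress H p ω → ∀ u v, ω u v = 0

def Indep (H : SimpleGraph V) : Prop := ∃ p, IndepAt H p

theorem On.mono {H K : SimpleGraph V} (h : H ≤ K) {ω : V → V → ℝ} (hω : On H ω) : On K ω :=
  ⟨hω.symm, fun u v huv => hω.supp u v (fun h' => huv (h h'))⟩

theorem IsStress.mono {H K : SimpleGraph V} (h : H ≤ K) {p : V → Fin 3 → ℝ} {ω : V → V → ℝ}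
    (hω : IsStress H p ω) : IsStress K p ω := ⟨hω.1.mono h, hω.2⟩

theorem IndepAt.mono {H K : SimpleGraph V} (h : H ≤ K) {p : V → Fin 3 → ℝ}
    (hK : IndepAt K p) : IndepAt H p := fun ω hω => hK ω (hω.mono h)

theorem Indep.mono {H K : SimpleGraph V} (h : H ≤ K) (hK : Indep K) : Indep H := by
  obtain ⟨p, hp⟩ := hK
  exact ⟨p, hp.mono h⟩

theorem On.self {H : SimpleGraph V} {ω : V → V → ℝ} (hω : On H ω) (v : V) : ω v v = 0 :=
  hω.supp v v (H.loopless.irrefl v)

theorem On.add {H : SimpleGraph V} {ω ω' : V → V → ℝ} (h : On H ω) (h' : On H ω') :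
    On H (fun u v => ω u v + ω' u v) :=
  ⟨fun u v => by rw [h.symm u v, h'.symm u v], fun u v huv => by
    rw [h.supp u v huv, h'.supp u v huv, add_zero]⟩

theorem On.smul {H : SimpleGraph V} {ω : V → V → ℝ} (h : On H ω) (c : ℝ) :
    On H (fun u v => c * ω u v) :=
  ⟨fun u v => by rw [h.symm u v], fun u v huv => by
    rw [h.supp u v huv, mul_zero]⟩

theorem force_add (p : V → Fin 3 → ℝ) (ω ω' : V → V → ℝ) (v : V) :
    force p (fun u v => ω u v + ω' u v) v = force p ω v + force p ω' v := by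
  simp only [force, add_smul, sum_add_distrib]

theorem force_smul (p : V → Fin 3 → ℝ) (ω : V → V → ℝ) (c : ℝ) (v : V) :
    force p (fun u v => c * ω u v) v = c • force p ω v := by
  simp only [force, mul_smul, smul_sum]

theorem IsStress.add {H : SimpleGraph V} {p : V → Fin 3 → ℝ} {ω ω' : V → V → ℝ}
    (h : IsStress H p ω) (h' : IsStress H p ω') :
    IsStress H p (fun u v => ω u v + ω' u v) :=
  ⟨h.1.add h'.1, fun v => by rw [force_add, h.2, h'.2, add_zero]⟩

theorem IsStress.smul {H : SimpleGraph V} {p : V → Fin 3 → ℝ} {ω : V → V → ℝ}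
    (h : IsStress H p ω) (c : ℝ) :
    IsStress H p (fun u v => c * ω u v) :=
  ⟨h.1.smul c, fun v => by rw [force_smul, h.2, smul_zero]⟩

/-- principle of virtual work -/
theorem virtual_work (p : V → Fin 3 → ℝ) (ω : V → V → ℝ) (hs : ∀ u v, ω u v = ω v u)
    (u : V → Fin 3 → ℝ) :
    2 * ∑ v, force p ω v ⬝ᵥ u v
      = ∑ v, ∑ w, ω v w * ((p v - p w) ⬝ᵥ (u v - u w)) := by
  have h1 : ∑ v, force p ω v ⬝ᵥ u v = ∑ v, ∑ w, ω v w * ((p v - p w) ⬝ᵥ u v) := by
    refine sum_congr rfl fun v _ => ?_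
    rw [force, sum_dotProduct]
    refine sum_congr rfl fun w _ => ?_
    rw [smul_dotProduct, smul_eq_mul]
  have h2 : ∑ v, ∑ w, ω v w * ((p v - p w) ⬝ᵥ u v)
      = ∑ v, ∑ w, ω v w * (-((p v - p w) ⬝ᵥ u w)) := by
    rw [sum_comm]
    refine sum_congr rfl fun v _ => sum_congr rfl fun w _ => ?_
    rw [hs w v, ← neg_dotProduct, neg_sub]
  rw [two_mul]
  nth_rewrite 2 [h1]
  rw [h1]
  nth_rewrite 2 [h2]
  rw [← sum_add_distrib]
  refine sum_congr rfl fun v _ => ?_
  rw [← sum_add_distrib]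
  refine sum_congr rfl fun w _ => ?_
  rw [dotProduct_sub]
  ring

/-- any system of internal forces has zero resultant and zero torque -/
theorem force_equil (p : V → Fin 3 → ℝ) (ω : V → V → ℝ) (hs : ∀ u v, ω u v = ω v u)
    (t s : Fin 3 → ℝ) :
    ∑ v, force p ω v ⬝ᵥ (t + crossProduct s (p v)) = 0 := by
  have h := virtual_work p ω hs (fun v => t + crossProduct s (p v))
  have h0 : ∑ v, ∑ w, ω v w * ((p v - p w) ⬝ᵥ
      ((t + crossProduct s (p v)) - (t + crossProduct s (p w)))) = 0 := by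
    refine sum_eq_zero fun v _ => sum_eq_zero fun w _ => ?_
    have : (t + crossProduct s (p v)) - (t + crossProduct s (p w))
        = crossProduct s (p v - p w) := by
      rw [map_sub]; abel
    rw [this, dot_cross_self, mul_zero]
  rw [h0] at h
  linarith

theorem force_sum_zero (p : V → Fin 3 → ℝ) (ω : V → V → ℝ) (hs : ∀ u v, ω u v = ω v u) :
    ∑ v, force p ω v = 0 := by
  unfold force
  have : ∑ v, ∑ u, ω v u • (p v - p u) = - ∑ v, ∑ u, ω v u • (p v - p u) := by
    conv_lhs => rw [sum_comm]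
    rw [← sum_neg_distrib]
    refine sum_congr rfl fun v _ => ?_
    rw [← sum_neg_distrib]
    refine sum_congr rfl fun w _ => ?_
    rw [hs w v, ← smul_neg, neg_sub]
  exact self_eq_neg.mp this

end Pool.Agent.V7H24.Rig
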