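import Pool.Agent.V7H24.Rig.Dual

set_option autoImplicit false
set_option linter.unusedSectionVars false

namespace Pool.Agent.V7H24.Rig

open Finset

variable {n : ℕ}

/-- five points in general position have an affine dependency without zero coefficients -/
theorem affine_dep {p : Fin n → Fin 3 → ℝ} (hp : GP p) {S : Finset (Fin n)} (hS : S.card = 5) :
    ∃ l : Fin n → ℝ, (∑ i ∈ S, l i = 0) ∧ (∑ i ∈ S, l i • p i = 0) ∧ (∀ i ∈ S, l i ≠ 0) ∧
      (∀ i, i ∉ S → l i = 0) := by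
  classical
  have hnot : ¬ LinearIndependent ℝ (fun s : S => ((1 : ℝ), p s)) := by
    intro h
    have := h.fintype_card_le_finrank
    simp at this
    omega
  rw [Fintype.not_linearIndependent_iff] at hnot
  obtain ⟨c, hc, i0, hi0⟩ := hnot
  let l : Fin n → ℝ := fun i => if h : i ∈ S then c ⟨i, h⟩ else 0
  have hl : ∀ s : S, l s = c s := by
    intro s; simp [l]
  rw [Prod.ext_iff] at hc
  obtain ⟨h1, h2⟩ := hc
  simp only [Prod.smul_mk, smul_eq_mul, mul_one, Prod.fst_sum, Prod.fst_zero, Prod.snd_sum,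
    Prod.snd_zero] at h1 h2
  have e1 : ∑ i ∈ S, l i = 0 := by
    rw [← Finset.sum_coe_sort S l]
    simp only [hl]
    exact h1
  have e2 : ∑ i ∈ S, l i • p i = 0 := by
    rw [← Finset.sum_coe_sort S (fun i => l i • p i)]
    simp only [hl]
    exact h2
  refine ⟨l, e1, e2, ?_, ?_⟩
  · intro i hi h0
    have hcard : (S.erase i).card ≤ 4 := by rw [card_erase_of_mem hi]; omega
    have hz := hp.zero (S.erase i) hcard l
      (by rw [← e1, ← Finset.add_sum_erase S l hi, h0, zero_add])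
      (by rw [← e2, ← Finset.add_sum_erase S (fun i => l i • p i) hi, h0, zero_smul, zero_add])
    apply hi0
    by_cases h : (i0 : Fin n) = i
    · rw [← hl, h, h0]
    · rw [← hl]
      exact hz _ (mem_erase.mpr ⟨h, i0.2⟩)
  · intro i hi
    simp [l, hi]

/-- the affine dependency of five points is unique -/
theorem affine_dep_unique {p : Fin n → Fin 3 → ℝ} (hp : GP p) {S : Finset (Fin n)}
    (hS : S.card = 5) {l m : Fin n → ℝ}
    (l1 : ∑ i ∈ S, l i = 0) (l2 : ∑ i ∈ S, l i • p i = 0)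
    (m1 : ∑ i ∈ S, m i = 0) (m2 : ∑ i ∈ S, m i • p i = 0) {i0 : Fin n} (hi0 : i0 ∈ S)
    (hne : l i0 ≠ 0) : ∀ i ∈ S, m i = (m i0 / l i0) * l i := by
  classical
  have hcard : (S.erase i0).card ≤ 4 := by rw [card_erase_of_mem hi0]; omega
  have h0 : m i0 - (m i0 / l i0) * l i0 = 0 := by field_simp; ring
  have hz := hp.zero (S.erase i0) hcard (fun i => m i - (m i0 / l i0) * l i)
    (by
      have h1 : ∑ i ∈ S, (m i - (m i0 / l i0) * l i) = 0 := by
        rw [sum_sub_distrib, ← mul_sum, l1, m1]; ring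
      rw [← Finset.add_sum_erase S _ hi0, h0, zero_add] at h1
      exact h1)
    (by
      have h1 : ∑ i ∈ S, (m i - (m i0 / l i0) * l i) • p i = 0 := by
        simp only [sub_smul, mul_smul, sum_sub_distrib]
        rw [← smul_sum, l2, m2]; simp
      rw [← Finset.add_sum_erase S _ hi0, h0, zero_smul, zero_add] at h1
      exact h1)
  intro i hi
  by_cases h : i = i0
  · subst h; linarith
  · have := hz i (mem_erase.mpr ⟨h, hi⟩)
    linarith

def Bil (N : Finset (Fin n)) (p u : Fin n → Fin 3 → ℝ) (α β : Fin n → ℝ) : ℝ :=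
  ∑ i ∈ N, ∑ j ∈ N, α i * β j * len p u i j

def Tw (N : Finset (Fin n)) (p u : Fin n → Fin 3 → ℝ) (α β : Fin n → ℝ) : ℝ :=
  ∑ i ∈ N, ∑ j ∈ N, α i * β j * ((p j - p i) ⬝ᵥ u i)

variable {N : Finset (Fin n)} {p u : Fin n → Fin 3 → ℝ}

theorem Bil_symm (α β : Fin n → ℝ) : Bil N p u α β = Bil N p u β α := by
  unfold Bil
  rw [sum_comm]
  refine sum_congr rfl fun i _ => sum_congr rfl fun j _ => ?_
  rw [len_symm]
  ring

theorem Bil_add_right (α β γ : Fin n → ℝ) :
    Bil N p u α (β + γ) = Bil N p u α β + Bil N p u α γ := by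
  unfold Bil
  rw [← sum_add_distrib]
  refine sum_congr rfl fun i _ => ?_
  rw [← sum_add_distrib]
  refine sum_congr rfl fun j _ => ?_
  rw [Pi.add_apply]; ring

theorem Bil_smul_right (c : ℝ) (α β : Fin n → ℝ) :
    Bil N p u α (c • β) = c * Bil N p u α β := by
  unfold Bil
  rw [mul_sum]
  refine sum_congr rfl fun i _ => ?_
  rw [mul_sum]
  refine sum_congr rfl fun j _ => ?_
  rw [Pi.smul_apply, smul_eq_mul]; ring

theorem Bil_add_left (α β γ : Fin n → ℝ) :
    Bil N p u (α + β) γ = Bil N p u α γ + Bil N p u β γ := by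
  rw [Bil_symm, Bil_add_right, Bil_symm γ, Bil_symm γ]

theorem Bil_smul_left (c : ℝ) (α β : Fin n → ℝ) :
    Bil N p u (c • α) β = c * Bil N p u α β := by
  rw [Bil_symm, Bil_smul_right, Bil_symm β]

theorem Bil_quad (α β : Fin n → ℝ) (t : ℝ) :
    Bil N p u (α + t • β) (α + t • β)
      = Bil N p u α α + 2 * t * Bil N p u α β + t ^ 2 * Bil N p u β β := by
  rw [Bil_add_left, Bil_add_right, Bil_add_right, Bil_smul_left, Bil_smul_left, Bil_smul_right,
    Bil_smul_right, Bil_symm β α]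
  ring

theorem Bil_cont_right (α : Fin n → ℝ) : Continuous (fun β => Bil N p u α β) := by
  unfold Bil
  fun_prop

theorem Bil_cont_diag : Continuous (fun β => Bil N p u β β) := by
  unfold Bil
  fun_prop

theorem Bil_congr {α α' β β' : Fin n → ℝ} (h1 : ∀ i ∈ N, α i = α' i) (h2 : ∀ i ∈ N, β i = β' i) :
    Bil N p u α β = Bil N p u α' β' := by
  unfold Bil
  refine sum_congr rfl fun i hi => sum_congr rfl fun j hj => ?_
  rw [h1 i hi, h2 j hj]

theorem Bil_single {i j : Fin n} (hi : i ∈ N) (hj : j ∈ N) :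
    Bil N p u (Pi.single i 1) (Pi.single j 1) = len p u i j := by
  unfold Bil
  rw [sum_eq_single_of_mem i hi, sum_eq_single_of_mem j hj]
  · simp
  · intro b _ hb
    simp [hb]
  · intro b _ hb
    apply sum_eq_zero
    intro c _
    simp [hb]

theorem Bil_eq (α β : Fin n → ℝ) : Bil N p u α β = - Tw N p u α β - Tw N p u β α := by
  have h : Tw N p u β α = ∑ i ∈ N, ∑ j ∈ N, α i * β j * ((p i - p j) ⬝ᵥ u j) := by
    unfold Tw
    rw [sum_comm]
    refine sum_congr rfl fun i _ => sum_congr rfl fun j _ => ?_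
    ring
  rw [h]
  unfold Bil Tw len
  rw [← sum_neg_distrib, ← sum_sub_distrib]
  refine sum_congr rfl fun i _ => ?_
  rw [← sum_neg_distrib, ← sum_sub_distrib]
  refine sum_congr rfl fun j _ => ?_
  rw [dotProduct_sub, ← neg_sub (p i) (p j), neg_dotProduct]
  ring

theorem Tw_lam {l : Fin n → ℝ} (l1 : ∑ i ∈ N, l i = 0) (l2 : ∑ i ∈ N, l i • p i = 0)
    (ω : Fin n → ℝ) : Tw N p u ω l = 0 := by
  unfold Tw
  refine sum_eq_zero fun i _ => ?_
  have : ∑ j ∈ N, ω i * l j * ((p j - p i) ⬝ᵥ u i)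
      = ω i * ((∑ j ∈ N, l j • (p j - p i)) ⬝ᵥ u i) := by
    rw [sum_dotProduct, mul_sum]
    refine sum_congr rfl fun j _ => ?_
    rw [smul_dotProduct, smul_eq_mul]; ring
  rw [this]
  have h2 : ∑ j ∈ N, l j • (p j - p i) = 0 := by
    simp only [smul_sub, sum_sub_distrib]
    rw [l2, ← sum_smul, l1]
    simp
  rw [h2, zero_dotProduct, mul_zero]

theorem Tw_q {q : Fin 3 → ℝ} {ω : Fin n → ℝ}
    (hq : ∑ i ∈ N, ω i • p i = (∑ i ∈ N, ω i) • q) (α : Fin n → ℝ) :
    Tw N p u α ω = (∑ i ∈ N, ω i) * ∑ i ∈ N, α i * ((q - p i) ⬝ᵥ u i) := by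
  unfold Tw
  rw [mul_sum]
  refine sum_congr rfl fun i _ => ?_
  have h1 : ∑ j ∈ N, α i * ω j * ((p j - p i) ⬝ᵥ u i)
      = α i * ((∑ j ∈ N, ω j • (p j - p i)) ⬝ᵥ u i) := by
    rw [sum_dotProduct, mul_sum]
    refine sum_congr rfl fun j _ => ?_
    rw [smul_dotProduct, smul_eq_mul]; ring
  have h2 : ∑ j ∈ N, ω j • (p j - p i) = (∑ i ∈ N, ω i) • (q - p i) := by
    simp only [smul_sub, sum_sub_distrib]
    rw [hq, ← sum_smul]
  rw [h1, h2, smul_dotProduct, smul_eq_mul]
  ring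

/-- density of the nonvanishing locus of a linear functional -/
theorem dense_ne {X : Type*} [NormedAddCommGroup X] [NormedSpace ℝ X]
    (f : X → ℝ) (hl : ∀ x y (t : ℝ), f (x + t • (y - x)) = f x + t • (f y - f x))
    {x0 : X} (h0 : f x0 ≠ 0) : Dense {x | f x ≠ 0} := by
  have key : ∀ x, LinearIndependent ℝ (fun _ : Unit => f x) ↔ f x ≠ 0 := by
    intro x
    rw [linearIndependent_unique_iff]
  have h := dense_linInd (fun (_ : Unit) x => f x) (fun _ => hl) ⟨x0, (key x0).mpr h0⟩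
  have : {x | f x ≠ 0} = {x | LinearIndependent ℝ (fun _ : Unit => f x)} := by
    ext x
    exact (key x).symm
  rw [this]
  exact h

end Pool.Agent.V7H24.Rig
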