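import Pool.Agent.V7H24.Rig.ThmT

set_option autoImplicit false
set_option linter.unusedSectionVars false

namespace Pool.Agent.V7H24.Rig

open Finset

variable {n : ℕ}

structure Circ (G : SimpleGraph (Fin n)) : Prop where
  dep : ¬ Indep G
  min : ∀ K, K ≤ G → K ≠ G → Indep K
  sp : Sparse G
  reg : ∀ v, nb G v = ∅ ∨ (nb G v).card = 5

theorem exists_stress {G : SimpleGraph (Fin n)} (h : ¬ Indep G) (p : Fin n → Fin 3 → ℝ) :
    ∃ ω, IsStress G p ω ∧ ∃ u v, ω u v ≠ 0 := by
  have h1 : ¬ IndepAt G p := fun h' => h ⟨p, h'⟩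
  unfold IndepAt at h1
  push Not at h1
  exact h1

theorem circ_exists {G : SimpleGraph (Fin n)} (hs : Sparse G) (hdeg : ∀ y, (nb G y).card ≤ 5)
    (hdep : ¬ Indep G) : ∃ H, Circ (n := n) H := by
  classical
  obtain ⟨H, hHG, hmin⟩ : ∃ H : SimpleGraph (Fin n), H ≤ G ∧
      Minimal (fun K => ¬ Indep K) H := by
    have hfin : {K : SimpleGraph (Fin n) | ¬ Indep K}.Finite := Set.toFinite _
    exact hfin.exists_le_minimal hdep
  have hHdep : ¬ Indep H := hmin.prop
  have hmin' : ∀ K, K ≤ H → K ≠ H → Indep K := by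
    intro K hK hne
    by_contra hKd
    exact hne (le_antisymm hK (hmin.le_of_le hKd hK))
  have hsH : Sparse H := hs.mono hHG
  have hdegH : ∀ y, (nb H y).card ≤ 5 := fun y => (card_le_card (nb_mono hHG y)).trans (hdeg y)
  have hncls : ¬ Cls H ∅ := fun h => hHdep (indep_of_cls (by simp) h)
  have : ∃ C : Finset (Fin n), C.Nonempty ∧ (∀ c ∈ C, ∀ y, H.Adj c y → y ∈ C) ∧
      ∀ y ∈ C, 5 ≤ (nb H y).card := by
    by_contra hno
    push Not at hno
    apply hncls
    refine ⟨hsH, fun y _ => hdegH y, fun C hC _ hcl => ?_⟩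
    obtain ⟨y, hy, hy'⟩ := hno C hC (fun c hc y hcy => by
      rcases hcl c hc y hcy with h | h
      · exact h
      · simp at h)
    exact ⟨y, hy, by omega⟩
  obtain ⟨C, ⟨c0, hc0⟩, hCcl, hC5⟩ := this
  have hsplit : ∀ u v, H.Adj u v → (u ∈ C ∧ v ∈ C) ∨ (u ∈ univ \ C ∧ v ∈ univ \ C) := by
    intro u v huv
    by_cases hu : u ∈ C
    · exact Or.inl ⟨hu, hCcl u hu v huv⟩
    · right
      simp only [mem_sdiff, mem_univ, true_and]
      exact ⟨hu, fun hv => hu (hCcl v hv u huv.symm)⟩
  obtain ⟨v0, hv0⟩ : (nb H c0).Nonempty := card_pos.mp (by have := hC5 c0 hc0; omega)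
  rw [mem_nb] at hv0
  have hout : ∀ y, y ∉ C → nb H y = ∅ := by
    intro y hy
    by_contra hne
    obtain ⟨z, hz⟩ := nonempty_iff_ne_empty.mpr hne
    rw [mem_nb] at hz
    apply hHdep
    apply indep_of_gen
    intro p hp ω hω
    have hI1 : Indep (res H C) := by
      apply hmin' _ (res_le H C)
      intro h
      have : (res H C).Adj y z := by rw [h]; exact hz
      exact hy this.2.1
    have hI2 : Indep (res H (univ \ C)) := by
      apply hmin' _ (res_le H _)
      intro h
      have : (res H (univ \ C)).Adj c0 v0 := by rw [h]; exact hv0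
      exact (mem_sdiff.mp this.2.1).2 hc0
    have hsp1 : ∀ u v, ω u v ≠ 0 → (u ∈ C ∧ v ∈ C) ∨ (u ∈ univ \ C ∧ v ∈ univ \ C) := by
      intro u v huv
      apply hsplit
      by_contra h
      exact huv (hω.1.supp u v h)
    have h1 := hp.2 _ hI1 _ ⟨part_on hω.1, glue_part (W := ∅) hω.1.symm (by simp)
      (by intro z hz; simp at hz) hsp1 hω.2⟩
    have h2 := hp.2 _ hI2 _ ⟨part_on hω.1, glue_part (Q := C) (W := ∅) hω.1.symm (by simp)
      (by intro z hz; simp at hz) (fun u v huv => (hsp1 u v huv).symm) hω.2⟩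
    intro u v
    by_contra hne
    rcases hsp1 u v hne with h | h
    · have := h1 u v
      rw [part_pos h.1 h.2] at this
      exact hne this
    · have := h2 u v
      rw [part_pos h.1 h.2] at this
      exact hne this
  refine ⟨H, hHdep, hmin', hsH, fun v => ?_⟩
  by_cases hv : v ∈ C
  · right
    exact le_antisymm (hdegH v) (hC5 v hv)
  · exact Or.inl (hout v hv)

theorem circ_zero {G : SimpleGraph (Fin n)} (hG : Circ G) {p : Fin n → Fin 3 → ℝ} (hp : Gen p)
    {ω : Fin n → Fin n → ℝ} (hω : IsStress G p ω) {a b : Fin n} (hab : G.Adj a b)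
    (h0 : ω a b = 0) : ∀ u v, ω u v = 0 := by
  have hI : Indep (remE G a b) := by
    apply hG.min _ (remE_le G a b)
    intro h
    have : (remE G a b).Adj a b := by rw [h]; exact hab
    exact remE_not_adj this
  apply hp.2 _ hI
  refine ⟨⟨hω.1.symm, fun u v huv => ?_⟩, hω.2⟩
  by_cases h : (u = a ∧ v = b) ∨ (u = b ∧ v = a)
  · rcases h with ⟨rfl, rfl⟩ | ⟨rfl, rfl⟩
    · exact h0
    · rw [hω.1.symm]; exact h0
  · apply hω.1.supp
    intro hadj
    exact huv ⟨hadj, h⟩

/-- the stress of a circuit is nowhere zero -/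
theorem circ_stress {G : SimpleGraph (Fin n)} (hG : Circ G) {p : Fin n → Fin 3 → ℝ}
    (hp : Gen p) : ∃ ω, IsStress G p ω ∧ ∀ u v, G.Adj u v → ω u v ≠ 0 := by
  obtain ⟨ω, hω, u0, v0, hne⟩ := exists_stress hG.dep p
  refine ⟨ω, hω, fun u v huv h0 => hne (circ_zero hG hp hω huv h0 u0 v0)⟩

theorem circ_unique {G : SimpleGraph (Fin n)} (hG : Circ G) {p : Fin n → Fin 3 → ℝ}
    (hp : Gen p) {ω ω' : Fin n → Fin n → ℝ} (hω : IsStress G p ω) (hω' : IsStress G p ω')
    {a b : Fin n} (hab : G.Adj a b) (h0 : ω a b ≠ 0) :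
    ∀ u v, ω' u v = (ω' a b / ω a b) * ω u v := by
  have hst := hω'.add (hω.smul (-(ω' a b / ω a b)))
  have := circ_zero hG hp hst hab (by field_simp; ring)
  intro u v
  have := this u v
  linarith

theorem circ_sep {G : SimpleGraph (Fin n)} (hG : Circ G) {P Q W : Finset (Fin n)}
    (hW : W.card ≤ 1) (hPQ : P ∩ Q ⊆ W)
    (hedge : ∀ u v, G.Adj u v → (u ∈ P ∧ v ∈ P) ∨ (u ∈ Q ∧ v ∈ Q))
    {u1 v1 u2 v2 : Fin n} (h1 : G.Adj u1 v1) (h1' : u1 ∉ Q) (h2 : G.Adj u2 v2) (h2' : u2 ∉ P) :
    False := by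
  obtain ⟨p, hp⟩ := exists_gen n
  obtain ⟨ω, hω, hnz⟩ := circ_stress hG hp
  have hsp : ∀ u v, ω u v ≠ 0 → (u ∈ P ∧ v ∈ P) ∨ (u ∈ Q ∧ v ∈ Q) := by
    intro u v huv
    apply hedge
    by_contra h
    exact huv (hω.1.supp u v h)
  have hst : IsStress G p (part P ω) :=
    ⟨(part_on hω.1).mono (res_le G P), glue_part hω.1.symm hW hPQ hsp hω.2⟩
  have hz := circ_zero hG hp hst h2 (part_neg_left h2') u1 v1
  rcases hedge u1 v1 h1 with h | h
  · rw [part_pos h.1 h.2] at hz
    exact hnz _ _ h1 hz
  · exact h1' h.1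

theorem circ_bridge {G : SimpleGraph (Fin n)} (hG : Circ G) {P Q W : Finset (Fin n)}
    (hW : W.card ≤ 1) (hPQ : P ∩ Q ⊆ W) {a b : Fin n} (hab : G.Adj a b)
    (haP : a ∈ P) (haQ : a ∉ Q) (hbP : b ∉ P) (haW : a ∉ W) (hbW : b ∉ W)
    (hedge : ∀ u v, G.Adj u v → (u ∈ P ∧ v ∈ P) ∨ (u ∈ Q ∧ v ∈ Q) ∨ (u = a ∧ v = b) ∨
      (u = b ∧ v = a)) : False := by
  obtain ⟨p, hp⟩ := exists_gen n
  obtain ⟨ω, hω, hnz⟩ := circ_stress hG hp
  apply hnz a b hab
  apply glue_bridge hp.1 hω.1.symm hW hPQ haP haQ hbP haW hbW _ hω.2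
  intro u v huv
  apply hedge
  by_contra h
  exact huv (hω.1.supp u v h)

theorem circ_twocut {G : SimpleGraph (Fin n)} (hG : Circ G) {P Q : Finset (Fin n)}
    {a b : Fin n} (hab : G.Adj a b) (haP : a ∈ P) (hbP : b ∈ P) (haQ : a ∈ Q) (hbQ : b ∈ Q)
    (hPQ : ∀ z, z ∈ P → z ∈ Q → z = a ∨ z = b)
    (hedge : ∀ u v, G.Adj u v → (u ∈ P ∧ v ∈ P) ∨ (u ∈ Q ∧ v ∈ Q))
    {u1 v1 u2 v2 : Fin n} (h1 : G.Adj u1 v1) (h1' : u1 ∉ Q) (h2 : G.Adj u2 v2) (h2' : u2 ∉ P) :
    False := by
  obtain ⟨p, hp⟩ := exists_gen n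
  obtain ⟨ω, hω, hnz⟩ := circ_stress hG hp
  have hf : ∀ v, v ≠ a → v ≠ b → force p (part P ω) v = 0 := by
    intro v hva hvb
    by_cases hvP : v ∈ P
    · rw [force_part_in hvP, hω.2]
      intro w hw
      apply hω.1.supp
      intro hadj
      rcases hedge v w hadj with h | h
      · exact hw h.2
      · rcases hPQ v hvP h.1 with h | h
        · exact hva h
        · exact hvb h
    · exact force_part_out hvP
  obtain ⟨hfb, c, hc⟩ := two_force (part_symm hω.1.symm) hab.ne (hp.1.inj hab.ne) hf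
  have hst : IsStress G p (fun u v => part P ω u v + (-c) * un a b u v) := by
    refine ⟨((part_on hω.1).mono (res_le G P)).add ((un_on hab).smul _), fun v => ?_⟩
    rw [force_add, force_smul, force_un p hab.ne]
    by_cases hva : v = a
    · subst hva
      rw [if_pos rfl, if_neg hab.ne, hc]
      simp
    · by_cases hvb : v = b
      · subst hvb
        rw [if_neg hva, if_pos rfl, hfb, hc]
        module
      · rw [if_neg hva, if_neg hvb, hf v hva hvb]
        simp
  have hu2a : u2 ≠ a := fun h => h2' (h ▸ haP)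
  have hu2b : u2 ≠ b := fun h => h2' (h ▸ hbP)
  have hu1a : u1 ≠ a := fun h => h1' (h ▸ haQ)
  have hu1b : u1 ≠ b := fun h => h1' (h ▸ hbQ)
  have hz := circ_zero hG hp hst h2 (by
    rw [part_neg_left h2']
    unfold un
    simp [hu2a, hu2b]) u1 v1
  rcases hedge u1 v1 h1 with h | h
  · have hun : un a b u1 v1 = 0 := by unfold un; simp [hu1a, hu1b]
    rw [part_pos h.1 h.2, hun] at hz
    apply hnz _ _ h1
    linarith
  · exact h1' h.1

theorem nb_addE_rem {G : SimpleGraph (Fin n)} {x y z : Fin n} (hxy : x ≠ y)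
    (hyz : G.Adj y z) (hnadj : ¬ G.Adj x y) :
    (nb (addE (remE G y z) x y) y).card = (nb G y).card ∧
    (nb (addE (remE G y z) x y) z).card + 1 = (nb G z).card ∧
    ∀ w, w ≠ x → w ≠ y → w ≠ z → nb (addE (remE G y z) x y) w = nb G w := by
  have hxz : x ≠ z := by rintro rfl; exact hnadj hyz.symm
  refine ⟨?_, ?_, ?_⟩
  · rw [nb_addE_right hxy]
    have : nb (remE G y z) y = (nb G y).erase z := by
      ext w
      rw [mem_nb, remE_adj, mem_erase, mem_nb]
      constructor
      · rintro ⟨h1, h2⟩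
        exact ⟨fun h => h2 (Or.inl ⟨rfl, h⟩), h1⟩
      · rintro ⟨h1, h2⟩
        refine ⟨h2, ?_⟩
        rintro (h | h)
        · exact h1 h.2
        · exact hyz.ne h.1
    rw [this, card_insert_of_notMem, card_erase_of_mem (mem_nb.mpr hyz)]
    · have : 0 < (nb G y).card := card_pos.mpr ⟨z, mem_nb.mpr hyz⟩
      omega
    · rw [mem_erase, mem_nb]
      exact fun h => hnadj h.2.symm
  · rw [nb_addE_of_ne hxz.symm hyz.ne.symm]
    have : nb (remE G y z) z = (nb G z).erase y := by
      ext w
      rw [mem_nb, remE_adj, mem_erase, mem_nb]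
      constructor
      · rintro ⟨h1, h2⟩
        exact ⟨fun h => h2 (Or.inr ⟨rfl, h⟩), h1⟩
      · rintro ⟨h1, h2⟩
        refine ⟨h2, ?_⟩
        rintro (h | h)
        · exact hyz.ne h.1.symm
        · exact h1 h.2
    rw [this, card_erase_of_mem (mem_nb.mpr hyz.symm)]
    have : 0 < (nb G z).card := card_pos.mpr ⟨y, mem_nb.mpr hyz.symm⟩
    omega
  · intro w hwx hwy hwz
    rw [nb_addE_of_ne hwx hwy]
    ext u
    rw [mem_nb, remE_adj, mem_nb]
    constructor
    · exact fun h => h.1
    · intro h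
      refine ⟨h, ?_⟩
      rintro (h' | h')
      · exact hwy h'.1
      · exact hwz h'.1

theorem lemA {G : SimpleGraph (Fin n)} (hG : Circ G) {x y : Fin n} (hxy : x ≠ y)
    (hnadj : ¬ G.Adj x y) (hx : nb G x ≠ ∅) (hy : nb G y ≠ ∅) :
    ∃ z, G.Adj y z ∧ Indep (addE (remE G y z) x y) := by
  classical
  by_contra hno
  push Not at hno
  have hdeg : ∀ v, (nb G v).card ≤ 5 := by
    intro v
    rcases hG.reg v with h | h
    · rw [h]; simp
    · omega
  -- each neighbour is avoided by a tight set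
  have htight : ∀ z, G.Adj y z → ∃ X, Tight G X ∧ x ∈ X ∧ y ∈ X ∧ z ∉ X := by
    intro z hyz
    have hxz : x ≠ z := by rintro rfl; exact hnadj hyz.symm
    obtain ⟨d1, d2, d3⟩ := nb_addE_rem hxy hyz hnadj
    have hns : ¬ Sparse (addE (remE G y z) x y) := by
      intro hsp
      apply hno z hyz
      apply indep_of_cls (W := {x}) (by simp)
      refine ⟨hsp, fun w hw => ?_, fun C hC hCx hcl => ?_⟩
      · rw [mem_singleton] at hw
        by_cases hwy : w = y
        · subst hwy; rw [d1]; exact hdeg w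
        · by_cases hwz : w = z
          · subst hwz; have := hdeg w; omega
          · rw [d3 w hw hwy hwz]; exact hdeg w
      · by_contra hall
        push Not at hall
        have hxC : x ∉ C := by
          rw [disjoint_singleton_right] at hCx; exact hCx
        have hzC : z ∉ C := by
          intro hz
          have := hall z hz
          have := hdeg z
          omega
        have hdegC : ∀ c ∈ C, (nb G c).Nonempty := by
          intro c hc
          have h5 := hall c hc
          apply card_pos.mp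
          by_cases hcy : c = y
          · subst hcy; omega
          · have hcx : c ≠ x := fun h => hxC (h ▸ hc)
            have hcz : c ≠ z := fun h => hzC (h ▸ hc)
            rw [d3 c hcx hcy hcz] at h5
            omega
        have hclG : ∀ c ∈ C, ∀ w, G.Adj c w → ¬ ((c = y ∧ w = z) ∨ (c = z ∧ w = y)) →
            w ∈ C ∨ w = x := by
          intro c hc w hcw hne
          have := hcl c hc w (le_addE _ _ _ ⟨hcw, hne⟩)
          rwa [mem_singleton] at this
        obtain ⟨c, hc⟩ := hC
        obtain ⟨c', hc'⟩ := hdegC c hc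
        rw [mem_nb] at hc'
        by_cases hyC : y ∈ C
        · refine circ_bridge hG (P := insert x C) (Q := univ \ C) (W := {x}) (by simp) ?_ hyz
            (mem_insert_of_mem hyC) (by simp [hyC]) (by simp [hzC, hxz.symm]) (by simp [hxy.symm])
            (by simp [hxz.symm]) ?_
          · intro w hw
            simp only [mem_inter, mem_insert, mem_sdiff, mem_univ, true_and] at hw
            rw [mem_singleton]; tauto
          · intro u v huv
            by_cases he : (u = y ∧ v = z) ∨ (u = z ∧ v = y)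
            · exact Or.inr (Or.inr he)
            · by_cases hu : u ∈ C
              · left
                refine ⟨mem_insert_of_mem hu, ?_⟩
                rw [mem_insert]
                exact (hclG u hu v huv he).symm
              · by_cases hv : v ∈ C
                · left
                  refine ⟨?_, mem_insert_of_mem hv⟩
                  rw [mem_insert]
                  exact (hclG v hv u huv.symm (by tauto)).symm
                · right; left
                  simp [hu, hv]
        · refine circ_sep hG (P := insert x C) (Q := univ \ C) (W := {x}) (by simp) ?_ ?_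
            hc' (by simp [hc]) hyz (by simp [hyC, hxy.symm])
          · intro w hw
            simp only [mem_inter, mem_insert, mem_sdiff, mem_univ, true_and] at hw
            rw [mem_singleton]; tauto
          · intro u v huv
            by_cases hu : u ∈ C
            · left
              refine ⟨mem_insert_of_mem hu, ?_⟩
              rw [mem_insert]
              refine (hclG u hu v huv ?_).symm
              rintro (h | h)
              · exact hyC (h.1 ▸ hu)
              · exact hzC (h.1 ▸ hu)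
            · by_cases hv : v ∈ C
              · left
                refine ⟨?_, mem_insert_of_mem hv⟩
                rw [mem_insert]
                refine (hclG v hv u huv.symm ?_).symm
                rintro (h | h)
                · exact hyC (h.1 ▸ hv)
                · exact hzC (h.1 ▸ hv)
              · right
                simp [hu, hv]
    unfold Sparse at hns
    push Not at hns
    obtain ⟨X, hX3, hgX⟩ := hns
    have hnadj' : ¬ (remE G y z).Adj x y := fun h => hnadj h.1
    rw [g_addE hxy hnadj', g_remE hyz] at hgX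
    have hGX := hG.sp X hX3
    obtain ⟨k, hk⟩ := g_even G X
    have hm : x ∈ X ∧ y ∈ X := by
      by_contra hm
      rw [if_neg hm] at hgX
      split_ifs at hgX <;> omega
    rw [if_pos hm] at hgX
    have hz : z ∉ X := by
      intro hz
      rw [if_pos ⟨hm.2, hz⟩] at hgX
      omega
    rw [if_neg (fun h => hz h.2)] at hgX
    exact ⟨X, ⟨hX3, by omega⟩, hm.1, hm.2, hz⟩
  -- a minimal tight set containing x and y
  let T : Finset (Finset (Fin n)) := univ.filter (fun X => Tight G X ∧ x ∈ X ∧ y ∈ X)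
  have hTmem : ∀ X, X ∈ T ↔ Tight G X ∧ x ∈ X ∧ y ∈ X := by
    intro X; simp [T]
  obtain ⟨z0, hz0⟩ := nonempty_iff_ne_empty.mpr hy
  rw [mem_nb] at hz0
  obtain ⟨X0, hX0, hxX0, hyX0, _⟩ := htight z0 hz0
  have hTne : T.Nonempty := ⟨X0, (hTmem X0).mpr ⟨hX0, hxX0, hyX0⟩⟩
  obtain ⟨X, hXT, hmin⟩ := exists_min_image T card hTne
  obtain ⟨hX, hxX, hyX⟩ := (hTmem X).mp hXT
  have h5X := hX.card_of_nonadj hxX hyX hxy hnadj
  have hdX := hX.deg hG.sp (by omega) hyX
  -- no neighbour of y lies in X
  have hempty : nb G y ∩ X = ∅ := by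
    rw [← disjoint_iff_inter_eq_empty, disjoint_left]
    intro z hz hzX
    rw [mem_nb] at hz
    obtain ⟨Z, hZ, hxZ, hyZ, hzZ⟩ := htight z hz
    have h5Z := hZ.card_of_nonadj hxZ hyZ hxy hnadj
    have hdZ := hZ.deg hG.sp (by omega) hyZ
    -- the intersection has at least three elements
    have h3 : 3 ≤ (X ∩ Z).card := by
      by_contra hlt
      have hsub : ({x, y} : Finset (Fin n)) ⊆ X ∩ Z := by
        intro w hw
        simp only [mem_insert, mem_singleton] at hw
        rcases hw with rfl | rfl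
        · exact mem_inter.mpr ⟨hxX, hxZ⟩
        · exact mem_inter.mpr ⟨hyX, hyZ⟩
      have heq : X ∩ Z = {x, y} := by
        symm
        apply eq_of_subset_of_card_le hsub
        rw [card_pair hxy]; omega
      have hdisj : Disjoint (nb G y ∩ X) (nb G y ∩ Z) := by
        rw [disjoint_left]
        intro w hw hw'
        have : w ∈ X ∩ Z := mem_inter.mpr ⟨(mem_inter.mp hw).2, (mem_inter.mp hw').2⟩
        rw [heq] at this
        simp only [mem_insert, mem_singleton] at this
        rcases this with rfl | rfl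
        · exact hnadj (mem_nb.mp (mem_inter.mp hw).1).symm
        · exact not_mem_nb_self (mem_inter.mp hw).1
      have h6 := card_le_card (union_subset (inter_subset_left (s₁ := nb G y) (s₂ := X))
        (inter_subset_left (s₁ := nb G y) (s₂ := Z)))
      rw [card_union_of_disjoint hdisj] at h6
      have := hdeg y
      omega
    have hI := tight_inter hG.sp hX hZ h3
    have h1 := hmin (X ∩ Z) ((hTmem _).mpr ⟨hI, mem_inter.mpr ⟨hxX, hxZ⟩,
      mem_inter.mpr ⟨hyX, hyZ⟩⟩)
    have h2 : X ∩ Z = X := eq_of_subset_of_card_le inter_subset_left h1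
    rw [← h2] at hzX
    exact hzZ (mem_inter.mp hzX).2
  rw [hempty] at hdX
  simp at hdX

/-- nonadjacent pairs are not implied at a generic placement -/
theorem lemA' {G : SimpleGraph (Fin n)} (hG : Circ G) {p : Fin n → Fin 3 → ℝ} (hp : Gen p)
    {x y : Fin n} (hxy : x ≠ y)
    (hnadj : ¬ G.Adj x y) (hx : nb G x ≠ ∅) (hy : nb G y ≠ ∅)
    {ω : Fin n → Fin n → ℝ} (hω : IsStress (addE G x y) p ω) : ω x y = 0 := by
  obtain ⟨z, hyz, hI⟩ := lemA hG hxy hnadj hx hy
  obtain ⟨ω0, hω0, hnz⟩ := circ_stress hG hp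
  have h0 := hnz y z hyz
  have hxz : x ≠ z := by rintro rfl; exact hnadj hyz.symm
  have hst := hω.add ((hω0.mono (le_addE G x y)).smul (-(ω y z / ω0 y z)))
  have hyz0 : ω y z + -(ω y z / ω0 y z) * ω0 y z = 0 := by field_simp; ring
  have hst' : IsStress (addE (remE G y z) x y) p
      (fun u v => ω u v + -(ω y z / ω0 y z) * ω0 u v) := by
    refine ⟨⟨hst.1.symm, fun u v huv => ?_⟩, hst.2⟩
    by_cases h : (u = y ∧ v = z) ∨ (u = z ∧ v = y)
    · rcases h with ⟨rfl, rfl⟩ | ⟨rfl, rfl⟩
      · exact hyz0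
      · rw [hst.1.symm]; exact hyz0
    · apply hst.1.supp
      intro hadj
      apply huv
      rw [addE_adj] at hadj ⊢
      rcases hadj with h' | h'
      · exact Or.inl ⟨h', h⟩
      · exact Or.inr h'
  have := hp.2 _ hI _ hst' x y
  rw [hω0.1.supp x y hnadj, mul_zero, add_zero] at this
  exact this

theorem g_res (G : SimpleGraph (Fin n)) (X : Finset (Fin n)) : g (res G X) X = g G X := by
  unfold g cr
  congr 1
  refine sum_congr rfl fun u hu => ?_
  congr 2
  ext w
  simp only [mem_inter, mem_nb, res_adj]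
  tauto

/-- a tight set with at least five elements is everything -/
theorem lemB {G : SimpleGraph (Fin n)} (hG : Circ G) {X : Finset (Fin n)} (hX : Tight G X)
    (h5 : 5 ≤ X.card) : ∀ u, nb G u ≠ ∅ → u ∈ X := by
  classical
  intro u hu
  by_contra huX
  have hnc : ∃ x ∈ X, ∃ y ∈ X, x ≠ y ∧ ¬ G.Adj x y := by
    by_contra hno
    push Not at hno
    have h1 := cr_complete hno
    have h2 := hX.2
    unfold g at h2
    rw [h1] at h2
    have h6 : (5 : ℤ) ≤ X.card := by exact_mod_cast h5
    nlinarith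
  obtain ⟨x, hx, y, hy, hxy, hnadj⟩ := hnc
  obtain ⟨p, hp⟩ := exists_gen n
  have hI : Indep (res G X) := by
    apply hG.min _ (res_le G X)
    intro h
    obtain ⟨w, hw⟩ := nonempty_iff_ne_empty.mpr hu
    have : (res G X).Adj u w := by rw [h]; exact mem_nb.mp hw
    exact huX this.2.1
  have hdep : ¬ IndepAt (addE (res G X) x y) p := by
    intro hI'
    have := rank_bound hp.1 hI' (X := X) (by omega) (by
      intro a b hab
      rcases hab with h | ⟨_, h | h⟩
      · exact h.2.1
      · rw [h.1]; exact hx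
      · rw [h.1]; exact hy)
    rw [g_addE hxy (fun h : (res G X).Adj x y => hnadj h.1), g_res, hX.2, if_pos ⟨hx, hy⟩] at this
    norm_num at this
  unfold IndepAt at hdep
  push Not at hdep
  obtain ⟨ω, hω, u0, v0, hne⟩ := hdep
  have hxy0 : ω x y ≠ 0 := by
    intro h0
    apply hne
    apply hp.2 _ hI
    refine ⟨⟨hω.1.symm, fun u v huv => ?_⟩, hω.2⟩
    by_cases h : (u = x ∧ v = y) ∨ (u = y ∧ v = x)
    · rcases h with ⟨rfl, rfl⟩ | ⟨rfl, rfl⟩
      · exact h0
      · rw [hω.1.symm]; exact h0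
    · apply hω.1.supp
      rintro (h' | h')
      · exact huv h'
      · exact h h'.2
  have hdx := hX.deg hG.sp (by omega) hx
  have hdy := hX.deg hG.sp (by omega) hy
  apply hxy0
  apply lemA' hG hp hxy hnadj
  · rintro h; rw [h] at hdx; simp at hdx
  · rintro h; rw [h] at hdy; simp at hdy
  · apply hω.mono
    intro a b hab
    rcases hab with h | h
    · exact Or.inl h.1
    · exact Or.inr h

end Pool.Agent.V7H24.Rig
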