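import Pool.Agent.V7H24.Rig.Circuit

set_option autoImplicit false
set_option linter.unusedSectionVars false

namespace Pool.Agent.V7H24.Rig

open Finset

variable {n : ℕ}

/-- first order change of (half) the squared length of the pair `ij` -/
def len (p u : Fin n → Fin 3 → ℝ) (i j : Fin n) : ℝ := (p i - p j) ⬝ᵥ (u i - u j)

def lenF (p : Fin n → Fin 3 → ℝ) (i j : Fin n) : (Fin n → Fin 3 → ℝ) →ₗ[ℝ] ℝ where
  toFun u := len p u i j
  map_add' := by
    intro a b
    unfold len
    rw [← dotProduct_add]
    congr 1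
    simp only [Pi.add_apply]
    abel
  map_smul' := by
    intro c a
    unfold len
    simp only [Pi.smul_apply, RingHom.id_apply, smul_eq_mul]
    rw [← smul_sub, dotProduct_smul, smul_eq_mul]

theorem len_symm (p u : Fin n → Fin 3 → ℝ) (i j : Fin n) : len p u i j = len p u j i := by
  unfold len
  rw [← neg_sub (p j) (p i), ← neg_sub (u j) (u i), neg_dotProduct_neg]

theorem len_self (p u : Fin n → Fin 3 → ℝ) (i : Fin n) : len p u i i = 0 := by
  unfold len
  simp

def IsMotion (H : SimpleGraph (Fin n)) (p u : Fin n → Fin 3 → ℝ) : Prop :=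
  ∀ i j, H.Adj i j → len p u i j = 0

theorem IsMotion.mono {H K : SimpleGraph (Fin n)} (h : H ≤ K) {p u : Fin n → Fin 3 → ℝ}
    (hu : IsMotion K p u) : IsMotion H p u := fun i j hij => hu i j (h hij)

theorem force_motion {H : SimpleGraph (Fin n)} {p u : Fin n → Fin 3 → ℝ}
    {ω : Fin n → Fin n → ℝ} (hω : On H ω) (hu : IsMotion H p u) :
    ∑ v, force p ω v ⬝ᵥ u v = 0 := by
  have h := virtual_work p ω hω.symm u
  have h0 : ∑ v, ∑ w, ω v w * ((p v - p w) ⬝ᵥ (u v - u w)) = 0 := by
    refine sum_eq_zero fun v _ => sum_eq_zero fun w _ => ?_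
    by_cases hadj : H.Adj v w
    · have := hu v w hadj
      unfold len at this
      rw [this, mul_zero]
    · rw [hω.supp v w hadj, zero_mul]
  rw [h0] at h
  linarith

theorem dual {H : SimpleGraph (Fin n)} {p : Fin n → Fin 3 → ℝ}
    (K : (Fin n → Fin 3 → ℝ) →ₗ[ℝ] ℝ) (hK : ∀ u, IsMotion H p u → K u = 0) :
    ∃ ω, On H ω ∧ ∀ u, K u = ∑ v, force p ω v ⬝ᵥ u v := by
  classical
  let ι := {e : Fin n × Fin n // H.Adj e.1 e.2}
  have hmem : K ∈ Submodule.span ℝ (Set.range (fun e : ι => lenF p e.1.1 e.1.2)) := by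
    apply mem_span_of_iInf_ker_le_ker
    intro u hu
    rw [Submodule.mem_iInf] at hu
    rw [LinearMap.mem_ker]
    apply hK
    intro i j hij
    exact hu ⟨(i, j), hij⟩
  obtain ⟨c, hc⟩ := (Submodule.mem_span_range_iff_exists_fun ℝ).mp hmem
  let c' : Fin n → Fin n → ℝ := fun i j => if h : H.Adj i j then c ⟨(i, j), h⟩ else 0
  have hon : On H (fun i j => c' i j + c' j i) := by
    refine ⟨fun i j => add_comm _ _, fun i j hij => ?_⟩
    have h1 : c' i j = 0 := by simp only [c']; rw [dif_neg hij]
    have h2 : c' j i = 0 := by simp only [c']; rw [dif_neg (fun h => hij h.symm)]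
    rw [h1, h2, add_zero]
  refine ⟨_, hon, fun u => ?_⟩
  have hK' : K u = ∑ i, ∑ j, c' i j * len p u i j := by
    rw [← hc, LinearMap.sum_apply]
    rw [← Finset.sum_product', Finset.univ_product_univ]
    rw [← Finset.sum_subset (Finset.subset_univ
      (Finset.univ.filter (fun e : Fin n × Fin n => H.Adj e.1 e.2)))]
    · rw [Finset.sum_subtype (p := fun e : Fin n × Fin n => H.Adj e.1 e.2)
        (F := inferInstance)]
      · refine Finset.sum_congr rfl fun e _ => ?_
        rw [LinearMap.smul_apply, smul_eq_mul]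
        have : c' e.1.1 e.1.2 = c e := by simp only [c']; rw [dif_pos e.2]
        rw [this]
        rfl
      · intro x; simp
    · intro x _ hx
      have : c' x.1 x.2 = 0 := by
        simp only [c']; rw [dif_neg]; simpa using hx
      rw [this, zero_mul]
  have hv := virtual_work p (fun i j => c' i j + c' j i) hon.symm u
  have h2 : ∑ v, ∑ w, (c' v w + c' w v) * ((p v - p w) ⬝ᵥ (u v - u w))
      = 2 * ∑ i, ∑ j, c' i j * len p u i j := by
    have : ∑ v, ∑ w, (c' v w + c' w v) * ((p v - p w) ⬝ᵥ (u v - u w))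
        = ∑ v, ∑ w, c' v w * len p u v w + ∑ v, ∑ w, c' w v * len p u v w := by
      rw [← sum_add_distrib]
      refine sum_congr rfl fun v _ => ?_
      rw [← sum_add_distrib]
      refine sum_congr rfl fun w _ => ?_
      unfold len
      ring
    rw [this, two_mul]
    congr 1
    rw [sum_comm]
    refine sum_congr rfl fun v _ => sum_congr rfl fun w _ => ?_
    rw [len_symm]
  rw [hK']
  have h3 := hv.trans h2
  linarith

theorem forces_zero {F : Fin n → Fin 3 → ℝ} (h : ∀ u : Fin n → Fin 3 → ℝ,
    ∑ w, F w ⬝ᵥ u w = 0) (w : Fin n) : F w = 0 := by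
  have := h (Pi.single w (F w))
  rw [Fintype.sum_eq_single w] at this
  · rw [Pi.single_eq_same] at this
    exact dotProduct_self_eq_zero.mp this
  · intro v hv
    rw [Pi.single_eq_of_ne hv, dotProduct_zero]

theorem sum_force_un (p u : Fin n → Fin 3 → ℝ) {x y : Fin n} (hxy : x ≠ y) :
    ∑ w, force p (un x y) w ⬝ᵥ u w = len p u x y := by
  simp only [force_un p hxy, add_dotProduct, sum_add_distrib]
  have h1 : ∑ w, (if w = x then p x - p y else 0) ⬝ᵥ u w = (p x - p y) ⬝ᵥ u x := by
    rw [Fintype.sum_eq_single x]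
    · rw [if_pos rfl]
    · intro w hw; rw [if_neg hw, zero_dotProduct]
  have h2 : ∑ w, (if w = y then p y - p x else 0) ⬝ᵥ u w = (p y - p x) ⬝ᵥ u y := by
    rw [Fintype.sum_eq_single y]
    · rw [if_pos rfl]
    · intro w hw; rw [if_neg hw, zero_dotProduct]
  rw [h1, h2]
  unfold len
  rw [dotProduct_sub, ← neg_sub (p x) (p y), neg_dotProduct]
  ring

/-- dual form of Lemma A -/
theorem lemA'' {G : SimpleGraph (Fin n)} (hG : Circ G) {p : Fin n → Fin 3 → ℝ} (hp : Gen p)
    {x y : Fin n} (hxy : x ≠ y)
    (hx : nb G x ≠ ∅) (hy : nb G y ≠ ∅)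
    (h : ∀ u, IsMotion G p u → len p u x y = 0) : G.Adj x y := by
  by_contra hnadj
  obtain ⟨ω, hω, hK⟩ := dual (H := G) (p := p) (lenF p x y) h
  have hst : IsStress (addE G x y) p (fun a b => ω a b + (-1) * un x y a b) := by
    refine ⟨(hω.mono (le_addE G x y)).add (On.smul (un_on ?_) _), ?_⟩
    · rw [addE_adj]; exact Or.inr ⟨hxy, Or.inl ⟨rfl, rfl⟩⟩
    · apply forces_zero
      intro u
      have h1 : ∀ w, force p (fun a b => ω a b + (-1) * un x y a b) w ⬝ᵥ u w
          = force p ω w ⬝ᵥ u w - force p (un x y) w ⬝ᵥ u w := by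
        intro w
        rw [force_add, force_smul, add_dotProduct, neg_smul, one_smul, neg_dotProduct]
        ring
      rw [sum_congr rfl fun w _ => h1 w, sum_sub_distrib, ← hK u, sum_force_un p u hxy]
      show len p u x y - len p u x y = 0
      ring
  have h0 := lemA' hG hp hxy hnadj hx hy hst
  have h1 : un x y x y = 1 := by unfold un; simp
  rw [hω.supp x y hnadj, h1] at h0
  norm_num at h0

/-- weights on the star at `v` -/
def st (v : Fin n) (f : Fin n → ℝ) : Fin n → Fin n → ℝ :=
  fun a b => if a = v then f b else if b = v then f a else 0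

theorem st_on {G : SimpleGraph (Fin n)} {v : Fin n} {f : Fin n → ℝ}
    (hf : ∀ i, i ∉ nb G v → f i = 0) : On G (st v f) := by
  have hfv : f v = 0 := hf v not_mem_nb_self
  refine ⟨fun a b => ?_, fun a b hab => ?_⟩
  · unfold st
    by_cases ha : a = v
    · by_cases hb : b = v
      · subst ha; subst hb; rfl
      · subst ha; simp [hb]
    · by_cases hb : b = v
      · subst hb; simp [ha]
      · simp [ha, hb]
  · unfold st
    by_cases ha : a = v
    · subst ha
      rw [if_pos rfl]
      apply hf
      rw [mem_nb]; exact hab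
    · rw [if_neg ha]
      by_cases hb : b = v
      · subst hb
        rw [if_pos rfl]
        apply hf
        rw [mem_nb]; exact fun h => hab h.symm
      · rw [if_neg hb]

theorem force_st_self (p : Fin n → Fin 3 → ℝ) (v : Fin n) (f : Fin n → ℝ) :
    force p (st v f) v = ∑ i, f i • (p v - p i) := by
  unfold force st
  simp

theorem force_st_ne (p : Fin n → Fin 3 → ℝ) {v w : Fin n} (hw : w ≠ v) (f : Fin n → ℝ) :
    force p (st v f) w = f w • (p w - p v) := by
  unfold force st
  simp [hw]

/-- a balanced system of forces along the star of `v` which does no work on the motions of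
`G - v` extends to a stress of `G` -/
theorem star_extends {G : SimpleGraph (Fin n)} {p : Fin n → Fin 3 → ℝ} {v : Fin n}
    {f : Fin n → ℝ} (hf : ∀ i, i ∉ nb G v → f i = 0)
    (hbal : ∑ i, f i • (p v - p i) = 0)
    (hwork : ∀ u, IsMotion (del G v) p u → ∑ i, f i * ((p v - p i) ⬝ᵥ u i) = 0) :
    ∃ ω, IsStress G p ω ∧ ∀ i, ω v i = f i := by
  let K : (Fin n → Fin 3 → ℝ) →ₗ[ℝ] ℝ :=
    { toFun := fun u => ∑ i, f i * ((p v - p i) ⬝ᵥ u i)
      map_add' := by
        intro a b
        rw [← sum_add_distrib]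
        refine sum_congr rfl fun i _ => ?_
        rw [Pi.add_apply, dotProduct_add]
        ring
      map_smul' := by
        intro c a
        rw [RingHom.id_apply, smul_eq_mul, mul_sum]
        refine sum_congr rfl fun i _ => ?_
        rw [Pi.smul_apply, dotProduct_smul, smul_eq_mul]
        ring }
  obtain ⟨ω, hω, hK⟩ := dual (H := del G v) (p := p) K hwork
  have hF : ∀ w, force p ω w = f w • (p v - p w) := by
    intro w
    have h0 := forces_zero (F := fun w => force p ω w - f w • (p v - p w)) (by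
      intro u
      simp only [sub_dotProduct, sum_sub_distrib, ← hK u]
      show ∑ i, f i * ((p v - p i) ⬝ᵥ u i) - ∑ i, (f i • (p v - p i)) ⬝ᵥ u i = 0
      simp only [smul_dotProduct, smul_eq_mul, sub_self]) w
    exact sub_eq_zero.mp h0
  have hfv : f v = 0 := hf v not_mem_nb_self
  refine ⟨fun a b => ω a b + st v f a b, ⟨(hω.mono (del_le G v)).add (st_on hf), fun w => ?_⟩,
    fun i => ?_⟩
  · rw [force_add, hF]
    by_cases hw : w = v
    · subst hw
      rw [force_st_self, hbal]
      simp
    · rw [force_st_ne p hw]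
      module
  · have : ω v i = 0 := by
      apply hω.supp
      rw [del_adj]
      tauto
    show ω v i + st v f v i = f i
    rw [this, zero_add]
    unfold st
    rw [if_pos rfl]

theorem del_indep {G : SimpleGraph (Fin n)} (hG : Circ G) {v : Fin n} (hv : nb G v ≠ ∅) :
    Indep (del G v) := by
  apply hG.min _ (del_le G v)
  intro h
  obtain ⟨w, hw⟩ := nonempty_iff_ne_empty.mpr hv
  have : (del G v).Adj v w := by rw [h]; exact mem_nb.mp hw
  exact this.2.1 rfl

/-- the star part of a stress after moving `v` to `q` -/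
theorem star_of_stress {G : SimpleGraph (Fin n)} {p : Fin n → Fin 3 → ℝ} {v : Fin n}
    {q : Fin 3 → ℝ} {ω : Fin n → Fin n → ℝ} (hω : IsStress G (Function.update p v q) ω) :
    (∑ i, ω v i • (q - p i) = 0) ∧
    (∀ u, IsMotion (del G v) p u → ∑ i, ω v i * ((q - p i) ⬝ᵥ u i) = 0) ∧
    (IndepAt (del G v) p → (∀ i, ω v i = 0) → ∀ a b, ω a b = 0) := by
  have hvv : ω v v = 0 := hω.1.self v
  have h1 : ∑ i, ω v i • (q - p i) = 0 := by
    have h := hω.2 v
    unfold force at h
    rw [← h]
    refine sum_congr rfl fun i _ => ?_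
    by_cases hi : i = v
    · subst hi; rw [hvv]; simp
    · simp [hi]
  have hF : ∀ i, i ≠ v → force p (dl v ω) i = ω v i • (q - p i) := by
    intro i hi
    have h := force_dl (p := Function.update p v q) (ω := ω) hi
    rw [hω.2 i, force_dl_update, Function.update_self, Function.update_of_ne hi,
      hω.1.symm i v] at h
    have : force p (dl v ω) i = -(ω v i • (p i - q)) := by
      rw [eq_neg_iff_add_eq_zero, add_comm]; exact h.symm
    rw [this, ← smul_neg, neg_sub]
  have hF' : ∀ i, force p (dl v ω) i = ω v i • (q - p i) := by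
    intro i
    by_cases hi : i = v
    · subst hi; rw [force_dl_self, hvv, zero_smul]
    · exact hF i hi
  refine ⟨h1, fun u hu => ?_, fun hI h0 => ?_⟩
  · have h := force_motion (dl_on hω.1) hu
    rw [← h]
    refine sum_congr rfl fun i _ => ?_
    rw [hF', smul_dotProduct, smul_eq_mul]
  · apply eq_zero_of_dl hω.1.symm h0
    apply hI
    refine ⟨dl_on hω.1, fun i => ?_⟩
    rw [hF', h0 i, zero_smul]

end Pool.Agent.V7H24.Rig
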