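import Mathlib

set_option autoImplicit false
set_option linter.unusedSectionVars false

namespace Pool.Agent.V7H24.Rig

open Finset

variable {n : ℕ}

/-- delete all edges at `x` -/
def del (H : SimpleGraph (Fin n)) (x : Fin n) : SimpleGraph (Fin n) where
  Adj u v := H.Adj u v ∧ u ≠ x ∧ v ≠ x
  symm := ⟨fun _ _ h => ⟨h.1.symm, h.2.2, h.2.1⟩⟩
  loopless := ⟨fun v h => H.loopless.irrefl v h.1⟩

/-- add the edge `ab` -/
def addE (H : SimpleGraph (Fin n)) (a b : Fin n) : SimpleGraph (Fin n) where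
  Adj u v := H.Adj u v ∨ (u ≠ v ∧ ((u = a ∧ v = b) ∨ (u = b ∧ v = a)))
  symm := ⟨fun u v h => by
    rcases h with h | ⟨h0, h | h⟩
    · exact Or.inl h.symm
    · exact Or.inr ⟨h0.symm, Or.inr ⟨h.2, h.1⟩⟩
    · exact Or.inr ⟨h0.symm, Or.inl ⟨h.2, h.1⟩⟩⟩
  loopless := ⟨fun v h => by
    rcases h with h | ⟨h0, _⟩
    · exact H.loopless.irrefl v h
    · exact h0 rfl⟩

/-- remove the edge `ab` -/
def remE (H : SimpleGraph (Fin n)) (a b : Fin n) : SimpleGraph (Fin n) where
  Adj u v := H.Adj u v ∧ ¬ ((u = a ∧ v = b) ∨ (u = b ∧ v = a))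
  symm := ⟨fun u v h => ⟨h.1.symm, fun h' => h.2 (by tauto)⟩⟩
  loopless := ⟨fun v h => H.loopless.irrefl v h.1⟩

/-- the part of `H` inside `X` -/
def res (H : SimpleGraph (Fin n)) (X : Finset (Fin n)) : SimpleGraph (Fin n) where
  Adj u v := H.Adj u v ∧ u ∈ X ∧ v ∈ X
  symm := ⟨fun _ _ h => ⟨h.1.symm, h.2.2, h.2.1⟩⟩
  loopless := ⟨fun v h => H.loopless.irrefl v h.1⟩

theorem del_adj {H : SimpleGraph (Fin n)} {x u v : Fin n} :
    (del H x).Adj u v ↔ H.Adj u v ∧ u ≠ x ∧ v ≠ x := Iff.rfl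

theorem addE_adj {H : SimpleGraph (Fin n)} {a b u v : Fin n} :
    (addE H a b).Adj u v ↔ H.Adj u v ∨ (u ≠ v ∧ ((u = a ∧ v = b) ∨ (u = b ∧ v = a))) := Iff.rfl

theorem remE_adj {H : SimpleGraph (Fin n)} {a b u v : Fin n} :
    (remE H a b).Adj u v ↔ H.Adj u v ∧ ¬ ((u = a ∧ v = b) ∨ (u = b ∧ v = a)) := Iff.rfl

theorem res_adj {H : SimpleGraph (Fin n)} {X : Finset (Fin n)} {u v : Fin n} :
    (res H X).Adj u v ↔ H.Adj u v ∧ u ∈ X ∧ v ∈ X := Iff.rfl

theorem del_le (H : SimpleGraph (Fin n)) (x : Fin n) : del H x ≤ H := fun _ _ h => h.1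
theorem remE_le (H : SimpleGraph (Fin n)) (a b : Fin n) : remE H a b ≤ H := fun _ _ h => h.1
theorem res_le (H : SimpleGraph (Fin n)) (X : Finset (Fin n)) : res H X ≤ H := fun _ _ h => h.1
theorem le_addE (H : SimpleGraph (Fin n)) (a b : Fin n) : H ≤ addE H a b := fun _ _ h => Or.inl h

/-- neighbourhood -/
noncomputable def nb (H : SimpleGraph (Fin n)) (v : Fin n) : Finset (Fin n) := by
  classical exact univ.filter (fun u => H.Adj v u)

theorem mem_nb {H : SimpleGraph (Fin n)} {v u : Fin n} : u ∈ nb H v ↔ H.Adj v u := by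
  classical
  unfold nb
  simp

theorem nb_symm {H : SimpleGraph (Fin n)} {v u : Fin n} : u ∈ nb H v ↔ v ∈ nb H u := by
  rw [mem_nb, mem_nb]; exact ⟨fun h => h.symm, fun h => h.symm⟩

theorem not_mem_nb_self {H : SimpleGraph (Fin n)} {v : Fin n} : v ∉ nb H v := by
  rw [mem_nb]; exact H.loopless.irrefl v

theorem nb_mono {H K : SimpleGraph (Fin n)} (h : H ≤ K) (v : Fin n) : nb H v ⊆ nb K v := by
  intro u hu
  rw [mem_nb] at *
  exact h hu

theorem nb_del {H : SimpleGraph (Fin n)} {x v : Fin n} (h : v ≠ x) :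
    nb (del H x) v = (nb H v).erase x := by
  ext u
  rw [mem_nb, del_adj, mem_erase, mem_nb]
  tauto

theorem nb_del_self {H : SimpleGraph (Fin n)} {x : Fin n} :
    nb (del H x) x = ∅ := by
  ext u
  rw [mem_nb, del_adj]
  simp

/-- number of ordered adjacent pairs between two sets -/
noncomputable def cr (H : SimpleGraph (Fin n)) (A B : Finset (Fin n)) : ℤ :=
  ∑ u ∈ A, ((nb H u ∩ B).card : ℤ)

theorem cr_nonneg (H : SimpleGraph (Fin n)) (A B : Finset (Fin n)) : 0 ≤ cr H A B :=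
  sum_nonneg fun _ _ => by positivity

theorem cr_eq (H : SimpleGraph (Fin n)) (A B : Finset (Fin n)) :
    cr H A B = ∑ u ∈ A, ∑ v ∈ B, (if v ∈ nb H u then (1 : ℤ) else 0) := by
  unfold cr
  refine sum_congr rfl fun u _ => ?_
  rw [sum_ite_mem, sum_const, inter_comm]
  simp

theorem cr_comm (H : SimpleGraph (Fin n)) (A B : Finset (Fin n)) : cr H A B = cr H B A := by
  rw [cr_eq, cr_eq, sum_comm]
  refine sum_congr rfl fun u _ => sum_congr rfl fun v _ => ?_
  simp only [nb_symm (H := H) (u := u) (v := v)]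

theorem cr_union_left (H : SimpleGraph (Fin n)) {A B C : Finset (Fin n)} (h : Disjoint A B) :
    cr H (A ∪ B) C = cr H A C + cr H B C := by
  unfold cr
  rw [sum_union h]

theorem cr_union_right (H : SimpleGraph (Fin n)) {A B C : Finset (Fin n)} (h : Disjoint A B) :
    cr H C (A ∪ B) = cr H C A + cr H C B := by
  rw [cr_comm, cr_union_left H h, cr_comm H A, cr_comm H B]

theorem cr_mono_graph {H K : SimpleGraph (Fin n)} (h : H ≤ K) (A B : Finset (Fin n)) :
    cr H A B ≤ cr K A B := by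
  unfold cr
  refine sum_le_sum fun u _ => ?_
  have : nb H u ∩ B ⊆ nb K u ∩ B := inter_subset_inter_right (nb_mono h u)
  exact_mod_cast card_le_card this

/-- twice the freedom count `3|X| - i(X)` -/
noncomputable def g (H : SimpleGraph (Fin n)) (X : Finset (Fin n)) : ℤ :=
  6 * X.card - cr H X X

theorem g_submod (H : SimpleGraph (Fin n)) (X Y : Finset (Fin n)) :
    g H (X ∪ Y) + g H (X ∩ Y) + 2 * cr H (X \ Y) (Y \ X) = g H X + g H Y := by
  have d1 : Disjoint (X \ Y) (X ∩ Y) := disjoint_sdiff_inter X Y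
  have d2 : Disjoint (Y \ X) (X ∩ Y) := by rw [inter_comm]; exact disjoint_sdiff_inter Y X
  have d3 : Disjoint (X \ Y) (Y \ X) := disjoint_sdiff_sdiff
  have hX : X = (X \ Y) ∪ (X ∩ Y) := (sdiff_union_inter X Y).symm
  have hY : Y = (Y \ X) ∪ (X ∩ Y) := by
    rw [inter_comm]; exact (sdiff_union_inter Y X).symm
  have hU : X ∪ Y = ((X \ Y) ∪ (X ∩ Y)) ∪ (Y \ X) := by
    ext a; simp only [mem_union, mem_sdiff, mem_inter]; tauto
  have d4 : Disjoint ((X \ Y) ∪ (X ∩ Y)) (Y \ X) := by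
    rw [disjoint_union_left]; exact ⟨d3, d2.symm⟩
  have e1 : cr H X X = cr H (X \ Y) (X \ Y) + 2 * cr H (X \ Y) (X ∩ Y)
      + cr H (X ∩ Y) (X ∩ Y) := by
    conv_lhs => rw [hX]
    rw [cr_union_left H d1, cr_union_right H d1, cr_union_right H d1,
      cr_comm H (X ∩ Y) (X \ Y)]
    ring
  have e2 : cr H Y Y = cr H (Y \ X) (Y \ X) + 2 * cr H (Y \ X) (X ∩ Y)
      + cr H (X ∩ Y) (X ∩ Y) := by
    conv_lhs => rw [hY]
    rw [cr_union_left H d2, cr_union_right H d2, cr_union_right H d2,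
      cr_comm H (X ∩ Y) (Y \ X)]
    ring
  have e3 : cr H (X ∪ Y) (X ∪ Y) = cr H (X \ Y) (X \ Y) + 2 * cr H (X \ Y) (X ∩ Y)
      + cr H (X ∩ Y) (X ∩ Y) + cr H (Y \ X) (Y \ X) + 2 * cr H (Y \ X) (X ∩ Y)
      + 2 * cr H (X \ Y) (Y \ X) := by
    rw [hU, cr_union_left H d4, cr_union_right H d4, cr_union_right H d4,
      cr_union_left H d1, cr_union_left H d1, cr_union_right H d1, cr_union_right H d1,
      cr_union_right H d1, cr_comm H (X ∩ Y) (X \ Y), cr_comm H (Y \ X) (X \ Y),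
      cr_comm H (X ∩ Y) (Y \ X)]
    ring
  have e4 : ((X ∪ Y).card : ℤ) + (X ∩ Y).card = X.card + Y.card := by
    exact_mod_cast card_union_add_card_inter X Y
  unfold g
  rw [e1, e2, e3]
  linear_combination 6 * e4

theorem cr_singleton (H : SimpleGraph (Fin n)) (x : Fin n) (A : Finset (Fin n)) :
    cr H {x} A = (nb H x ∩ A).card := by
  unfold cr; simp

theorem g_insert (H : SimpleGraph (Fin n)) {x : Fin n} {X : Finset (Fin n)} (hx : x ∉ X) :
    g H (insert x X) = g H X + 6 - 2 * (nb H x ∩ X).card := by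
  have hd : Disjoint ({x} : Finset (Fin n)) X := by simpa using hx
  unfold g
  rw [insert_eq, card_union_of_disjoint hd, cr_union_left H hd, cr_union_right H hd,
    cr_union_right H hd, cr_comm H X {x}, cr_singleton, cr_singleton]
  have : nb H x ∩ {x} = ∅ := by
    ext u; simp only [mem_inter, mem_singleton]
    constructor
    · rintro ⟨h, rfl⟩; exact absurd h not_mem_nb_self
    · intro h; simp at h
  rw [this]
  push_cast
  simp
  ring

theorem cr_even (H : SimpleGraph (Fin n)) (X : Finset (Fin n)) : ∃ k : ℤ, cr H X X = 2 * k := by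
  induction X using Finset.induction_on with
  | empty => exact ⟨0, by simp [cr]⟩
  | insert x X hx ih =>
    obtain ⟨k, hk⟩ := ih
    have h := g_insert H hx
    unfold g at h
    rw [card_insert_of_notMem hx, hk] at h
    refine ⟨k + (nb H x ∩ X).card, ?_⟩
    push_cast at h ⊢
    linarith

theorem g_even (H : SimpleGraph (Fin n)) (X : Finset (Fin n)) : ∃ k : ℤ, g H X = 2 * k := by
  obtain ⟨k, hk⟩ := cr_even H X
  exact ⟨3 * X.card - k, by unfold g; rw [hk]; ring⟩

/-- `(3,6)`-sparsity -/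
def Sparse (H : SimpleGraph (Fin n)) : Prop := ∀ X : Finset (Fin n), 3 ≤ X.card → 12 ≤ g H X

theorem g_anti {H K : SimpleGraph (Fin n)} (h : H ≤ K) (X : Finset (Fin n)) : g K X ≤ g H X := by
  unfold g
  have := cr_mono_graph h X X
  linarith

theorem Sparse.mono {H K : SimpleGraph (Fin n)} (h : H ≤ K) (hK : Sparse K) : Sparse H :=
  fun X hX => (hK X hX).trans (g_anti h X)

def Tight (H : SimpleGraph (Fin n)) (X : Finset (Fin n)) : Prop := 3 ≤ X.card ∧ g H X = 12

theorem g_erase (H : SimpleGraph (Fin n)) {x : Fin n} {X : Finset (Fin n)} (hx : x ∈ X) :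
    g H X = g H (X.erase x) + 6 - 2 * (nb H x ∩ X).card := by
  have h := g_insert H (notMem_erase x X)
  rw [insert_erase hx] at h
  rw [h]
  have : nb H x ∩ X.erase x = nb H x ∩ X := by
    ext u
    simp only [mem_inter, mem_erase]
    constructor
    · rintro ⟨h1, h2, h3⟩; exact ⟨h1, h3⟩
    · rintro ⟨h1, h2⟩
      exact ⟨h1, fun h => not_mem_nb_self (h ▸ h1), h2⟩
  rw [this]

theorem Tight.deg {H : SimpleGraph (Fin n)} (hs : Sparse H) {X : Finset (Fin n)}
    (hX : Tight H X) (h4 : 4 ≤ X.card) {x : Fin n} (hx : x ∈ X) : 3 ≤ (nb H x ∩ X).card := by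
  have h := g_erase H hx
  have h1 := hs (X.erase x) (by rw [card_erase_of_mem hx]; omega)
  rw [hX.2] at h
  have : (3 : ℤ) ≤ (nb H x ∩ X).card := by linarith
  exact_mod_cast this

theorem cr_complete {H : SimpleGraph (Fin n)} {X : Finset (Fin n)}
    (h : ∀ a ∈ X, ∀ b ∈ X, a ≠ b → H.Adj a b) : cr H X X = X.card * (X.card - 1) := by
  unfold cr
  have : ∀ u ∈ X, ((nb H u ∩ X).card : ℤ) = X.card - 1 := by
    intro u hu
    have : nb H u ∩ X = X.erase u := by
      ext w
      simp only [mem_inter, mem_nb, mem_erase]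
      constructor
      · rintro ⟨h1, h2⟩; exact ⟨h1.ne', h2⟩
      · rintro ⟨h1, h2⟩; exact ⟨h u hu w h2 h1.symm, h2⟩
    rw [this, card_erase_of_mem hu]
    have : 1 ≤ X.card := card_pos.mpr ⟨u, hu⟩
    push_cast [Nat.cast_sub this]
    ring
  rw [sum_congr rfl this, sum_const]
  simp

theorem cr_not_complete {H : SimpleGraph (Fin n)} {X : Finset (Fin n)} {a b : Fin n}
    (ha : a ∈ X) (hb : b ∈ X) (hab : a ≠ b) (hadj : ¬ H.Adj a b) :
    cr H X X ≤ X.card * (X.card - 1) - 2 := by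
  classical
  rw [cr_eq, ← sum_product']
  have h1 : ∀ z ∈ X ×ˢ X, (if z.2 ∈ nb H z.1 then (1:ℤ) else 0) ≤
      1 - (if z.1 = z.2 then 1 else 0) - (if z = (a, b) then 1 else 0)
        - (if z = (b, a) then 1 else 0) := by
    rintro ⟨u, v⟩ _
    simp only [Prod.mk.injEq, mem_nb]
    by_cases h1 : H.Adj u v
    · have h2 : u ≠ v := h1.ne
      have h3 : ¬ (u = a ∧ v = b) := by rintro ⟨rfl, rfl⟩; exact hadj h1
      have h4 : ¬ (u = b ∧ v = a) := by rintro ⟨rfl, rfl⟩; exact hadj h1.symm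
      simp [h1, h2, h3, h4]
    · by_cases h2 : u = v
      · subst h2
        have h3 : ¬ (u = a ∧ u = b) := by rintro ⟨rfl, rfl⟩; exact hab rfl
        have h4 : ¬ (u = b ∧ u = a) := by rintro ⟨rfl, rfl⟩; exact hab rfl
        simp [h3, h4]
      · by_cases h3 : u = a ∧ v = b
        · have h4 : ¬ (u = b ∧ v = a) := by
            rintro ⟨rfl, rfl⟩; exact hab h3.1.symm
          rw [if_neg h1, if_neg h2, if_pos h3, if_neg h4]; norm_num
        · by_cases h4 : u = b ∧ v = a
          · rw [if_neg h1, if_neg h2, if_neg h3, if_pos h4]; norm_num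
          · rw [if_neg h1, if_neg h2, if_neg h3, if_neg h4]; norm_num
  refine (sum_le_sum h1).trans ?_
  rw [sum_sub_distrib, sum_sub_distrib, sum_sub_distrib]
  have s1 : ∑ z ∈ X ×ˢ X, (1:ℤ) = X.card * X.card := by simp
  have s2 : ∑ z ∈ X ×ˢ X, (if z.1 = z.2 then (1:ℤ) else 0) = X.card := by
    rw [sum_product]
    simp
  have s3 : ∑ z ∈ X ×ˢ X, (if z = (a, b) then (1:ℤ) else 0) = 1 := by
    rw [sum_ite_eq']; simp [ha, hb]
  have s4 : ∑ z ∈ X ×ˢ X, (if z = (b, a) then (1:ℤ) else 0) = 1 := by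
    rw [sum_ite_eq']; simp [ha, hb]
  rw [s1, s2, s3, s4]
  linarith

theorem Tight.card_of_nonadj {H : SimpleGraph (Fin n)} {X : Finset (Fin n)}
    (hX : Tight H X) {a b : Fin n}
    (ha : a ∈ X) (hb : b ∈ X) (hab : a ≠ b) (hadj : ¬ H.Adj a b) : 5 ≤ X.card := by
  have h1 := cr_not_complete ha hb hab hadj
  obtain ⟨h3, hg⟩ := hX
  unfold g at hg
  by_contra hlt
  push Not at hlt
  have : X.card = 3 ∨ X.card = 4 := by omega
  rcases this with h | h <;> rw [h] at hg h1 <;> norm_num at hg h1 <;> linarith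

theorem nb_addE_of_ne {H : SimpleGraph (Fin n)} {a b v : Fin n} (h1 : v ≠ a) (h2 : v ≠ b) :
    nb (addE H a b) v = nb H v := by
  ext u
  rw [mem_nb, mem_nb, addE_adj]
  tauto

theorem nb_addE_left {H : SimpleGraph (Fin n)} {a b : Fin n} (h : a ≠ b) :
    nb (addE H a b) a = insert b (nb H a) := by
  ext u
  rw [mem_nb, mem_insert, mem_nb, addE_adj]
  constructor
  · rintro (h1 | ⟨_, h1 | h1⟩)
    · exact Or.inr h1
    · exact Or.inl h1.2
    · exact absurd h1.1 h
  · rintro (h1 | h1)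
    · subst h1; exact Or.inr ⟨h, Or.inl ⟨rfl, rfl⟩⟩
    · exact Or.inl h1

theorem addE_comm (H : SimpleGraph (Fin n)) (a b : Fin n) : addE H a b = addE H b a := by
  ext u v
  rw [addE_adj, addE_adj]
  tauto

theorem nb_addE_right {H : SimpleGraph (Fin n)} {a b : Fin n} (h : a ≠ b) :
    nb (addE H a b) b = insert a (nb H b) := by
  rw [addE_comm, nb_addE_left h.symm]

theorem cr_addE {H : SimpleGraph (Fin n)} {a b : Fin n} (hab : a ≠ b) (hadj : ¬ H.Adj a b)
    (X : Finset (Fin n)) :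
    cr (addE H a b) X X = cr H X X + (if a ∈ X ∧ b ∈ X then 2 else 0) := by
  classical
  have key : ∀ u ∈ X, ((nb (addE H a b) u ∩ X).card : ℤ) = (nb H u ∩ X).card
      + (if u = a then (if b ∈ X then 1 else 0) else 0)
      + (if u = b then (if a ∈ X then 1 else 0) else 0) := by
    intro u _
    by_cases h1 : u = a
    · subst h1
      rw [nb_addE_left hab, if_pos rfl, if_neg hab]
      by_cases hb : b ∈ X
      · rw [insert_inter_of_mem hb, card_insert_of_notMem, if_pos hb]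
        · push_cast; ring
        · rw [mem_inter, mem_nb]; tauto
      · rw [insert_inter_of_notMem hb, if_neg hb]; ring
    · by_cases h2 : u = b
      · subst h2
        rw [nb_addE_right hab, if_neg h1, if_pos rfl]
        by_cases ha : a ∈ X
        · rw [insert_inter_of_mem ha, card_insert_of_notMem, if_pos ha]
          · push_cast; ring
          · rw [mem_inter, mem_nb]; exact fun h => hadj h.1.symm
        · rw [insert_inter_of_notMem ha, if_neg ha]; ring
      · rw [nb_addE_of_ne h1 h2, if_neg h1, if_neg h2]; ring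
  unfold cr
  rw [sum_congr rfl key, sum_add_distrib, sum_add_distrib, sum_ite_eq', sum_ite_eq']
  by_cases ha : a ∈ X <;> by_cases hb : b ∈ X <;> simp [ha, hb] <;> ring

theorem g_addE {H : SimpleGraph (Fin n)} {a b : Fin n} (hab : a ≠ b) (hadj : ¬ H.Adj a b)
    (X : Finset (Fin n)) :
    g (addE H a b) X = g H X - (if a ∈ X ∧ b ∈ X then 2 else 0) := by
  unfold g
  rw [cr_addE hab hadj]
  ring

theorem remE_addE {H : SimpleGraph (Fin n)} {a b : Fin n} (hadj : H.Adj a b) :
    addE (remE H a b) a b = H := by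
  ext u v
  rw [addE_adj, remE_adj]
  constructor
  · rintro (h | ⟨h0, h | h⟩)
    · exact h.1
    · rw [h.1, h.2]; exact hadj
    · rw [h.1, h.2]; exact hadj.symm
  · intro h
    by_cases h' : (u = a ∧ v = b) ∨ (u = b ∧ v = a)
    · exact Or.inr ⟨h.ne, h'⟩
    · exact Or.inl ⟨h, h'⟩

theorem remE_not_adj {H : SimpleGraph (Fin n)} {a b : Fin n} : ¬ (remE H a b).Adj a b := by
  rw [remE_adj]; tauto

theorem g_remE {H : SimpleGraph (Fin n)} {a b : Fin n} (hadj : H.Adj a b)
    (X : Finset (Fin n)) :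
    g (remE H a b) X = g H X + (if a ∈ X ∧ b ∈ X then 2 else 0) := by
  have h := g_addE (H := remE H a b) hadj.ne remE_not_adj X
  rw [remE_addE hadj] at h
  linarith

theorem g_del_of_notMem {H : SimpleGraph (Fin n)} {x : Fin n} {X : Finset (Fin n)}
    (hx : x ∉ X) : g (del H x) X = g H X := by
  unfold g cr
  congr 1
  refine sum_congr rfl fun u hu => ?_
  have hux : u ≠ x := fun h => hx (h ▸ hu)
  rw [nb_del hux]
  congr 2
  ext w
  simp only [mem_inter, mem_erase]
  constructor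
  · rintro ⟨⟨_, h1⟩, h2⟩; exact ⟨h1, h2⟩
  · rintro ⟨h1, h2⟩; exact ⟨⟨fun h => hx (h ▸ h2), h1⟩, h2⟩

theorem cr_del_univ {H : SimpleGraph (Fin n)} {x : Fin n} :
    cr (del H x) univ univ = cr H univ univ - 2 * (nb H x).card := by
  have h1 := g_erase (del H x) (mem_univ x)
  have h2 := g_erase H (mem_univ x)
  have h3 := g_del_of_notMem (H := H) (notMem_erase x univ)
  rw [nb_del_self] at h1
  rw [h3] at h1
  rw [inter_univ] at h2
  unfold g at h1 h2 h3
  simp only [empty_inter, card_empty] at h1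
  push_cast at h1
  linarith

end Pool.Agent.V7H24.Rig
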