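import Pool.Agent.V7H24.Rig.Generic
import Pool.Agent.V7H24.Rig.Graph

set_option autoImplicit false
set_option linter.unusedSectionVars false

namespace Pool.Agent.V7H24.Rig

open Finset

variable {n : ℕ}

theorem parallel_of_cross {x f : Fin 3 → ℝ} (hx : x ≠ 0) (h : crossProduct x f = 0) :
    ∃ c : ℝ, f = c • x := by
  by_contra hne
  push Not at hne
  have : LinearIndependent ℝ ![x, f] := by
    rw [LinearIndependent.pair_iff' hx]
    intro a ha
    exact hne a ha.symm
  exact (crossProduct_ne_zero_iff_linearIndependent.mpr this) h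

theorem two_force {p : Fin n → Fin 3 → ℝ} {ω : Fin n → Fin n → ℝ}
    (hs : ∀ u v, ω u v = ω v u) {a w : Fin n} (haw : a ≠ w) (hp : p a ≠ p w)
    (h0 : ∀ v, v ≠ a → v ≠ w → force p ω v = 0) :
    force p ω w = - force p ω a ∧ ∃ c : ℝ, force p ω a = c • (p a - p w) := by
  have hsum : force p ω a + force p ω w = 0 := by
    have h := force_sum_zero p ω hs
    rw [Fintype.sum_eq_add a w haw (fun v hv => h0 v hv.1 hv.2)] at h
    exact h
  refine ⟨(neg_eq_of_add_eq_zero_right hsum).symm, ?_⟩
  apply parallel_of_cross (sub_ne_zero.mpr hp)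
  have key : ∀ s, s ⬝ᵥ crossProduct (p a - p w) (force p ω a) = 0 := by
    intro s
    have h := force_equil p ω hs 0 s
    rw [Fintype.sum_eq_add a w haw (fun v hv => by rw [h0 v hv.1 hv.2, zero_dotProduct])] at h
    have hw : force p ω w = - force p ω a := (neg_eq_of_add_eq_zero_right hsum).symm
    rw [hw, zero_add, zero_add, neg_dotProduct, ← sub_eq_add_neg, ← dotProduct_sub, ← map_sub]
      at h
    rw [← triple_product_permutation]
    exact h
  have := key (crossProduct (p a - p w) (force p ω a))
  exact dotProduct_self_eq_zero.mp this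

/-- unit weight on the pair `ab` -/
def un (a b : Fin n) : Fin n → Fin n → ℝ :=
  fun u v => if (u = a ∧ v = b) ∨ (u = b ∧ v = a) then 1 else 0

theorem un_symm (a b u v : Fin n) : un a b u v = un a b v u := by
  unfold un
  congr 1
  simp only [eq_iff_iff]
  tauto

theorem un_eq (a b : Fin n) (hab : a ≠ b) (u v : Fin n) :
    un a b u v = (if u = a ∧ v = b then 1 else 0) + (if u = b ∧ v = a then 1 else 0) := by
  unfold un
  by_cases h1 : u = a ∧ v = b
  · have h2 : ¬ (u = b ∧ v = a) := by
      rintro ⟨rfl, rfl⟩; exact hab h1.1.symm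
    rw [if_pos (Or.inl h1), if_pos h1, if_neg h2, add_zero]
  · by_cases h2 : u = b ∧ v = a
    · rw [if_pos (Or.inr h2), if_neg h1, if_pos h2, zero_add]
    · rw [if_neg (not_or.mpr ⟨h1, h2⟩), if_neg h1, if_neg h2, add_zero]

theorem force_un (p : Fin n → Fin 3 → ℝ) {a b : Fin n} (hab : a ≠ b) (w : Fin n) :
    force p (un a b) w = (if w = a then p a - p b else 0) + (if w = b then p b - p a else 0) := by
  unfold force
  simp only [un_eq a b hab, add_smul, sum_add_distrib, ite_smul, one_smul, zero_smul]
  congr 1
  · by_cases h : w = a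
    · subst h; simp
    · simp [h]
  · by_cases h : w = b
    · subst h; simp
    · simp [h]

theorem un_on {H : SimpleGraph (Fin n)} {a b : Fin n} (h : H.Adj a b) : On H (un a b) :=
  ⟨un_symm a b, fun u v huv => by
    unfold un
    rw [if_neg]
    rintro (⟨rfl, rfl⟩ | ⟨rfl, rfl⟩)
    · exact huv h
    · exact huv h.symm⟩

/-- weights with everything at `x` removed -/
def dl (x : Fin n) (ω : Fin n → Fin n → ℝ) : Fin n → Fin n → ℝ :=
  fun u v => if u = x ∨ v = x then 0 else ω u v

theorem dl_symm {x : Fin n} {ω : Fin n → Fin n → ℝ} (hs : ∀ u v, ω u v = ω v u) (u v : Fin n) :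
    dl x ω u v = dl x ω v u := by
  unfold dl
  rw [hs u v]
  congr 1
  simp only [eq_iff_iff]
  tauto

theorem dl_on {H : SimpleGraph (Fin n)} {x : Fin n} {ω : Fin n → Fin n → ℝ} (h : On H ω) :
    On (del H x) (dl x ω) :=
  ⟨dl_symm h.symm, fun u v huv => by
    unfold dl
    split_ifs with h'
    · rfl
    · apply h.supp
      intro hadj
      apply huv
      rw [del_adj]
      tauto⟩

theorem force_dl {p : Fin n → Fin 3 → ℝ} {x : Fin n} {ω : Fin n → Fin n → ℝ}
    {u : Fin n} (hu : u ≠ x) :
    force p ω u = ω u x • (p u - p x) + force p (dl x ω) u := by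
  unfold force
  rw [← Finset.add_sum_erase _ _ (mem_univ x)]
  congr 1
  rw [← Finset.add_sum_erase (a := x) (s := univ) (f := fun v => dl x ω u v • (p u - p v))
    (mem_univ x)]
  have : dl x ω u x = 0 := by unfold dl; simp
  rw [this, zero_smul, zero_add]
  refine sum_congr rfl fun v hv => ?_
  have hv' : v ≠ x := (mem_erase.mp hv).1
  unfold dl
  rw [if_neg (not_or.mpr ⟨hu, hv'⟩)]

theorem force_dl_self {p : Fin n → Fin 3 → ℝ} {x : Fin n} {ω : Fin n → Fin n → ℝ} :
    force p (dl x ω) x = 0 := by
  unfold force dl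
  simp

theorem force_dl_update {p : Fin n → Fin 3 → ℝ} {x : Fin n} {ω : Fin n → Fin n → ℝ}
    (q : Fin 3 → ℝ) {u : Fin n} :
    force (Function.update p x q) (dl x ω) u = force p (dl x ω) u := by
  unfold force dl
  refine sum_congr rfl fun v _ => ?_
  by_cases hu : u = x
  · simp [hu]
  · by_cases hv : v = x
    · simp [hv]
    · simp [hu, hv]

theorem eq_zero_of_dl {x : Fin n} {ω : Fin n → Fin n → ℝ} (hs : ∀ u v, ω u v = ω v u)
    (h1 : ∀ v, ω x v = 0) (h2 : ∀ u v, dl x ω u v = 0) (u v : Fin n) : ω u v = 0 := by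
  by_cases hu : u = x
  · rw [hu]; exact h1 v
  · by_cases hv : v = x
    · rw [hv, hs]; exact h1 u
    · have := h2 u v
      unfold dl at this
      rw [if_neg (not_or.mpr ⟨hu, hv⟩)] at this
      exact this

/-- sum over the star of `x` -/
theorem force_star {H : SimpleGraph (Fin n)} {p : Fin n → Fin 3 → ℝ} {x : Fin n}
    {ω : Fin n → Fin n → ℝ} (h : On H ω) :
    force p ω x = ∑ v ∈ nb H x, ω x v • (p x - p v) := by
  unfold force
  symm
  apply sum_subset (subset_univ _)
  intro v _ hv
  rw [mem_nb] at hv
  rw [h.supp x v hv, zero_smul]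

theorem GP.inj {p : Fin n → Fin 3 → ℝ} (hp : GP p) {a b : Fin n} (hab : a ≠ b) : p a ≠ p b := by
  intro h
  have := hp.zero {a, b} ((card_le_two).trans (by norm_num)) (fun s => if s = a then 1 else -1)
    (by rw [sum_pair hab]; simp [hab.symm]) (by rw [sum_pair hab]; simp [hab.symm, h]) a
    (by simp)
  simp at this

/-- combination of differences from a base point vanish only trivially -/
theorem GP.base {p : Fin n → Fin 3 → ℝ} (hp : GP p) (S : Finset (Fin n)) {x : Fin n}
    (hx : x ∉ S) (hS : S.card ≤ 3) (c : Fin n → ℝ)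
    (h : ∑ s ∈ S, c s • (p x - p s) = 0) : ∀ s ∈ S, c s = 0 := by
  have key := hp.zero (insert x S) (by rw [card_insert_of_notMem hx]; omega)
    (fun s => if s = x then - ∑ t ∈ S, c t else c s)
    (by
      rw [sum_insert hx, if_pos rfl]
      have : ∑ s ∈ S, (if s = x then - ∑ t ∈ S, c t else c s) = ∑ s ∈ S, c s :=
        sum_congr rfl fun s hs => if_neg (fun (e : s = x) => hx (e ▸ hs))
      rw [this]; ring)
    (by
      rw [sum_insert hx, if_pos rfl]
      have : ∑ s ∈ S, (if s = x then - ∑ t ∈ S, c t else c s) • p s = ∑ s ∈ S, c s • p s :=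
        sum_congr rfl fun s hs => by rw [if_neg (fun (e : s = x) => hx (e ▸ hs))]
      rw [this]
      simp only [smul_sub, sum_sub_distrib] at h
      rw [← sum_smul] at h
      rw [neg_smul, neg_add_eq_zero]
      exact sub_eq_zero.mp h)
  intro s hs
  have := key s (mem_insert_of_mem hs)
  rwa [if_neg (fun (e : s = x) => hx (e ▸ hs))] at this

/-- 0-extension -/
theorem zero_ext {H : SimpleGraph (Fin n)} {x : Fin n} (hdeg : (nb H x).card ≤ 3)
    (h : Indep (del H x)) : Indep H := by
  apply indep_of_gen
  intro p hp ω hω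
  have h1 : ∀ v, ω x v = 0 := by
    have h0 := hω.2 x
    rw [force_star hω.1] at h0
    have := hp.1.base (nb H x) not_mem_nb_self hdeg (fun v => ω x v) h0
    intro v
    by_cases hv : v ∈ nb H x
    · exact this v hv
    · exact hω.1.supp x v (fun h => hv (mem_nb.mpr h))
  apply eq_zero_of_dl hω.1.symm h1
  apply hp.2 _ h
  refine ⟨dl_on hω.1, fun v => ?_⟩
  by_cases hv : v = x
  · rw [hv]; exact force_dl_self
  · have := force_dl (p := p) (ω := ω) hv
    rw [hω.2 v, hω.1.symm, h1 v, zero_smul, zero_add] at this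
    exact this.symm

/-- 1-extension -/
theorem one_ext {H : SimpleGraph (Fin n)} {x a b c d : Fin n}
    (hN : nb H x = {a, b, c, d}) (hab : a ≠ b) (hac : a ≠ c) (had : a ≠ d) (hbc : b ≠ c)
    (hbd : b ≠ d) (hcd : c ≠ d) (hnadj : ¬ H.Adj a b)
    (h : Indep (addE (del H x) a b)) : Indep H := by
  obtain ⟨p0, hp0⟩ := exists_gen n
  have hI := hp0.2 _ h
  have hxN : x ∉ nb H x := not_mem_nb_self
  rw [hN] at hxN
  simp only [mem_insert, mem_singleton, not_or] at hxN
  obtain ⟨hxa, hxb, hxc, hxd⟩ := hxN
  set p := Function.update p0 x ((1 / 2 : ℝ) • (p0 a + p0 b)) with hpdef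
  have hpx : p x = (1 / 2 : ℝ) • (p0 a + p0 b) := by simp [p]
  have hpne : ∀ v, v ≠ x → p v = p0 v := by
    intro v hv; simp [p, hv]
  refine ⟨p, fun ω hω => ?_⟩
  have h0 := hω.2 x
  rw [force_star hω.1, hN] at h0
  rw [sum_insert (by simp [hab, hac, had]), sum_insert (by simp [hbc, hbd]),
    sum_pair hcd] at h0
  rw [hpx, hpne a (Ne.symm hxa), hpne b (Ne.symm hxb), hpne c (Ne.symm hxc),
    hpne d (Ne.symm hxd)] at h0
  -- coefficients
  let S : ℝ := ω x a + ω x b + ω x c + ω x d
  let co : Fin n → ℝ := fun v => if v = a then S / 2 - ω x a else if v = b then S / 2 - ω x b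
    else - ω x v
  have hca : co a = S / 2 - ω x a := by simp [co]
  have hcb : co b = S / 2 - ω x b := by simp [co, hab.symm]
  have hcc : co c = - ω x c := by simp [co, hac.symm, hbc.symm]
  have hcd' : co d = - ω x d := by simp [co, had.symm, hbd.symm]
  have key := hp0.1.zero {a, b, c, d} (card_le_four) co
    (by
      rw [sum_insert (by simp [hab, hac, had]), sum_insert (by simp [hbc, hbd]),
        sum_pair hcd, hca, hcb, hcc, hcd']
      simp only [S]; ring)
    (by
      rw [sum_insert (by simp [hab, hac, had]), sum_insert (by simp [hbc, hbd]),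
        sum_pair hcd, hca, hcb, hcc, hcd', ← h0]
      simp only [S]
      module)
  have k1 := key a (by simp)
  have k2 := key b (by simp)
  have k3 := key c (by simp)
  have k4 := key d (by simp)
  rw [hca] at k1
  rw [hcb] at k2
  rw [hcc] at k3
  rw [hcd'] at k4
  have e3 : ω x c = 0 := by linarith
  have e4 : ω x d = 0 := by linarith
  have e12 : ω x b = ω x a := by linarith
  -- the transferred stress
  have hst : IsStress (addE (del H x) a b) p0
      (fun u v => dl x ω u v + (ω x a / 2) * un a b u v) := by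
    refine ⟨?_, fun u => ?_⟩
    · refine On.add ((dl_on hω.1).mono (le_addE _ a b)) (On.smul (un_on ?_) _)
      rw [addE_adj]
      exact Or.inr ⟨hab, Or.inl ⟨rfl, rfl⟩⟩
    · rw [force_add, force_smul, force_un p0 hab]
      by_cases hux : u = x
      · subst hux
        rw [force_dl_self, if_neg hxa, if_neg hxb]
        simp
      · have hf := force_dl (p := p) (ω := ω) hux
        rw [hω.2 u] at hf
        have hupd : force p (dl x ω) u = force p0 (dl x ω) u := by
          rw [hpdef]; exact force_dl_update _
        rw [hupd, hpx, hpne u hux, hω.1.symm u x] at hf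
        by_cases hua : u = a
        · subst hua
          rw [if_pos rfl, if_neg hab]
          have : force p0 (dl x ω) u = -(ω x u • (p0 u - (1 / 2 : ℝ) • (p0 u + p0 b))) := by
            rw [eq_neg_iff_add_eq_zero, add_comm]; exact hf.symm
          rw [this]
          module
        · by_cases hub : u = b
          · subst hub
            rw [if_neg hua, if_pos rfl]
            have : force p0 (dl x ω) u = -(ω x u • (p0 u - (1 / 2 : ℝ) • (p0 a + p0 u))) := by
              rw [eq_neg_iff_add_eq_zero, add_comm]; exact hf.symm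
            rw [this, e12]
            module
          · rw [if_neg hua, if_neg hub]
            have hz : ω x u = 0 := by
              by_cases huc : u = c
              · rw [huc]; exact e3
              · by_cases hud : u = d
                · rw [hud]; exact e4
                · apply hω.1.supp
                  intro hadj
                  have : u ∈ nb H x := mem_nb.mpr hadj
                  rw [hN] at this
                  simp only [mem_insert, mem_singleton] at this
                  tauto
            rw [hz, zero_smul, zero_add] at hf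
            rw [← hf]
            simp
  have hz := hI _ hst
  have hxa0 : ω x a = 0 := by
    have h1 := hz a b
    have h2 : dl x ω a b = 0 := by
      unfold dl
      split_ifs
      · rfl
      · exact hω.1.supp a b hnadj
    have h3 : un a b a b = 1 := by unfold un; simp
    simp only [h2, h3] at h1
    linarith
  have hstar : ∀ v, ω x v = 0 := by
    intro v
    by_cases hv : v ∈ nb H x
    · rw [hN] at hv
      simp only [mem_insert, mem_singleton] at hv
      rcases hv with rfl | rfl | rfl | rfl
      · exact hxa0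
      · rw [e12]; exact hxa0
      · exact e3
      · exact e4
    · exact hω.1.supp x v (fun h => hv (mem_nb.mpr h))
  apply eq_zero_of_dl hω.1.symm hstar
  intro u v
  have := hz u v
  rw [hxa0] at this
  linarith

/-- the part of the weights inside `P` -/
noncomputable def part (P : Finset (Fin n)) (ω : Fin n → Fin n → ℝ) : Fin n → Fin n → ℝ := by
  classical exact fun u v => if u ∈ P ∧ v ∈ P then ω u v else 0

theorem part_pos {P : Finset (Fin n)} {ω : Fin n → Fin n → ℝ} {u v : Fin n}
    (hu : u ∈ P) (hv : v ∈ P) : part P ω u v = ω u v := by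
  unfold part; simp [hu, hv]

theorem part_neg_left {P : Finset (Fin n)} {ω : Fin n → Fin n → ℝ} {u v : Fin n}
    (hu : u ∉ P) : part P ω u v = 0 := by
  unfold part; simp [hu]

theorem part_neg_right {P : Finset (Fin n)} {ω : Fin n → Fin n → ℝ} {u v : Fin n}
    (hv : v ∉ P) : part P ω u v = 0 := by
  unfold part; simp [hv]

theorem part_symm {P : Finset (Fin n)} {ω : Fin n → Fin n → ℝ} (hs : ∀ u v, ω u v = ω v u)
    (u v : Fin n) : part P ω u v = part P ω v u := by
  by_cases hu : u ∈ P
  · by_cases hv : v ∈ P
    · rw [part_pos hu hv, part_pos hv hu, hs]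
    · rw [part_neg_right hv, part_neg_left hv]
  · rw [part_neg_left hu, part_neg_right hu]

theorem part_on {H : SimpleGraph (Fin n)} {P : Finset (Fin n)} {ω : Fin n → Fin n → ℝ}
    (h : On H ω) : On (res H P) (part P ω) :=
  ⟨part_symm h.symm, fun u v huv => by
    by_cases hu : u ∈ P
    · by_cases hv : v ∈ P
      · rw [part_pos hu hv]
        apply h.supp
        intro hadj
        exact huv ⟨hadj, hu, hv⟩
      · exact part_neg_right hv
    · exact part_neg_left hu⟩

theorem force_part_out {p : Fin n → Fin 3 → ℝ} {P : Finset (Fin n)} {ω : Fin n → Fin n → ℝ}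
    {u : Fin n} (hu : u ∉ P) : force p (part P ω) u = 0 := by
  unfold force
  refine sum_eq_zero fun v _ => ?_
  rw [part_neg_left hu, zero_smul]

theorem force_part_in {p : Fin n → Fin 3 → ℝ} {P : Finset (Fin n)} {ω : Fin n → Fin n → ℝ}
    {u : Fin n} (hu : u ∈ P) (h : ∀ v, v ∉ P → ω u v = 0) :
    force p (part P ω) u = force p ω u := by
  unfold force
  refine sum_congr rfl fun v _ => ?_
  by_cases hv : v ∈ P
  · rw [part_pos hu hv]
  · rw [part_neg_right hv, h v hv]

/-- gluing at at most one vertex: the part inside `P` of a stress is a stress -/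
theorem glue_part {p : Fin n → Fin 3 → ℝ} {P Q W : Finset (Fin n)} {ω : Fin n → Fin n → ℝ}
    (hs : ∀ u v, ω u v = ω v u) (hW : W.card ≤ 1) (hPQ : P ∩ Q ⊆ W)
    (hedge : ∀ u v, ω u v ≠ 0 → (u ∈ P ∧ v ∈ P) ∨ (u ∈ Q ∧ v ∈ Q))
    (h0 : ∀ v, force p ω v = 0) : ∀ v, force p (part P ω) v = 0 := by
  have h1 : ∀ v, v ∉ P ∩ Q → force p (part P ω) v = 0 := by
    intro v hv
    by_cases hvP : v ∈ P
    · rw [force_part_in hvP, h0]
      intro w hw
      by_contra hne
      rcases hedge v w hne with h | h
      · exact hw h.2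
      · exact hv (mem_inter.mpr ⟨hvP, h.1⟩)
    · exact force_part_out hvP
  intro v
  by_cases hv : v ∈ P ∩ Q
  · have hsum := force_sum_zero p (part P ω) (part_symm hs)
    rw [Fintype.sum_eq_single v] at hsum
    · exact hsum
    · intro w hw
      apply h1
      intro hw'
      exact hw (card_le_one.mp hW w (hPQ hw') v (hPQ hv))
  · exact h1 v hv

/-- gluing with a bridging edge: a stress vanishes on the bridging edge -/
theorem glue_bridge {p : Fin n → Fin 3 → ℝ} (hp : GP p) {P Q W : Finset (Fin n)}
    {ω : Fin n → Fin n → ℝ} {a b : Fin n}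
    (hs : ∀ u v, ω u v = ω v u) (hW : W.card ≤ 1) (hPQ : P ∩ Q ⊆ W)
    (haP : a ∈ P) (haQ : a ∉ Q) (hbP : b ∉ P) (haW : a ∉ W) (hbW : b ∉ W)
    (hedge : ∀ u v, ω u v ≠ 0 → (u ∈ P ∧ v ∈ P) ∨ (u ∈ Q ∧ v ∈ Q) ∨ (u = a ∧ v = b) ∨
      (u = b ∧ v = a))
    (h0 : ∀ v, force p ω v = 0) : ω a b = 0 := by
  have hab : a ≠ b := fun h => hbP (h ▸ haP)
  have h1 : ∀ v, v ∉ P ∩ Q → v ≠ a → force p (part P ω) v = 0 := by
    intro v hv hva
    by_cases hvP : v ∈ P
    · rw [force_part_in hvP, h0]
      intro w hw
      by_contra hne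
      rcases hedge v w hne with h | h | h | h
      · exact hw h.2
      · exact hv (mem_inter.mpr ⟨hvP, h.1⟩)
      · exact hva h.1
      · exact hbP (h.1 ▸ hvP)
    · exact force_part_out hvP
  have h2 : force p (part P ω) a = -(ω a b • (p a - p b)) := by
    rw [eq_neg_iff_add_eq_zero, ← h0 a]
    unfold force
    rw [← Finset.sum_erase_add (a := b) (s := univ) (f := fun u => ω a u • (p a - p u))
      (mem_univ b)]
    rw [← Finset.sum_erase_add (a := b) (s := univ) (f := fun u => part P ω a u • (p a - p u))
      (mem_univ b)]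
    rw [part_neg_right hbP, zero_smul, add_zero]
    congr 1
    refine sum_congr rfl fun v hv => ?_
    have hvb : v ≠ b := (mem_erase.mp hv).1
    by_cases hvP : v ∈ P
    · rw [part_pos haP hvP]
    · rw [part_neg_right hvP]
      have : ω a v = 0 := by
        by_contra hne
        rcases hedge a v hne with h | h | h | h
        · exact hvP h.2
        · exact haQ h.1
        · exact hvb h.2
        · exact hab h.1
      rw [this]
  rcases W.eq_empty_or_nonempty with hWe | ⟨w, hw⟩
  · have hsum := force_sum_zero p (part P ω) (part_symm hs)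
    rw [Fintype.sum_eq_single a] at hsum
    · rw [h2, neg_eq_zero, smul_eq_zero] at hsum
      rcases hsum with h | h
      · exact h
      · exact absurd (sub_eq_zero.mp h) (hp.inj hab)
    · intro v hv
      apply h1 v _ hv
      intro hv'
      have := hPQ hv'
      rw [hWe] at this
      simp at this
  · have hWw : ∀ v ∈ P ∩ Q, v = w := fun v hv => card_le_one.mp hW v (hPQ hv) w hw
    have haw : a ≠ w := fun h => haW (h ▸ hw)
    have hbw : b ≠ w := fun h => hbW (h ▸ hw)
    obtain ⟨-, c, hc⟩ := two_force (part_symm hs) haw (hp.inj haw) (by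
      intro v hva hvw
      exact h1 v (fun h => hvw (hWw v h)) hva)
    rw [h2] at hc
    have := hp.base {b, w} (x := a) (by simp [hab, haw]) (card_le_two.trans (by norm_num))
      (fun v => if v = b then ω a b else c) (by
        rw [sum_pair hbw, if_pos rfl, if_neg hbw.symm, ← hc]
        abel) b (by simp)
    simpa using this

theorem cr_eq_eidx (H : SimpleGraph (Fin n)) [Fintype (EIdx H)] :
    cr H univ univ = 2 * (Fintype.card (EIdx H) : ℤ) := by
  classical
  have h1 : (Fintype.card (EIdx H) : ℤ)
      = ∑ u : Fin n, ∑ v : Fin n, if u < v ∧ H.Adj u v then (1 : ℤ) else 0 := by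
    rw [← sum_eidx (H := H) (fun u v => if u < v ∧ H.Adj u v then (1 : ℤ) else 0)]
    · have : ∀ e : EIdx H, (if e.1.1 < e.1.2 ∧ H.Adj e.1.1 e.1.2 then (1 : ℤ) else 0) = 1 :=
        fun e => if_pos e.2
      rw [sum_congr rfl fun e _ => this e]
      simp
    · intro u v huv
      rw [if_neg huv]
  rw [cr_eq, h1, two_mul]
  nth_rewrite 2 [sum_comm]
  rw [← sum_add_distrib]
  refine sum_congr rfl fun u _ => ?_
  rw [← sum_add_distrib]
  refine sum_congr rfl fun v _ => ?_
  simp only [mem_nb]
  rcases lt_trichotomy u v with h | h | h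
  · by_cases ha : H.Adj u v
    · rw [if_pos ha, if_neg (fun h' => absurd h'.1 (not_lt.mpr h.le)), if_pos ⟨h, ha⟩, zero_add]
    · rw [if_neg ha, if_neg (fun h' => ha h'.2.symm), if_neg (fun h' => ha h'.2), add_zero]
  · subst h
    simp
  · by_cases ha : H.Adj u v
    · rw [if_pos ha, if_pos ⟨h, ha.symm⟩, if_neg (fun h' => absurd h'.1 (not_lt.mpr h.le)),
        add_zero]
    · rw [if_neg ha, if_neg (fun h' => ha h'.2.symm), if_neg (fun h' => ha h'.2), add_zero]

/-- rank bound: a graph inside `X` with more than `3|X|-6` edges is dependent -/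
theorem rank_bound {H : SimpleGraph (Fin n)} {X : Finset (Fin n)} {p : Fin n → Fin 3 → ℝ}
    (hp : GP p) (hI : IndepAt H p) (hX : 3 ≤ X.card) (hin : ∀ u v, H.Adj u v → u ∈ X) :
    12 ≤ g H X := by
  classical
  have hli := (indepAt_iff H p).mp hI
  -- the linear map
  let Φ1 : (EIdx H → ℝ) →ₗ[ℝ] (Fin n → Fin 3 → ℝ) :=
    Fintype.linearCombination ℝ (fun e : EIdx H => rowv p e.1.1 e.1.2)
  let Φ2 : ((Fin 3 → ℝ) × (Fin 3 → ℝ)) →ₗ[ℝ] (Fin n → Fin 3 → ℝ) :=
    { toFun := fun ts v => ts.1 + crossProduct ts.2 (p v)
      map_add' := by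
        intro a b
        funext v
        simp only [Prod.fst_add, Prod.snd_add, map_add, LinearMap.add_apply, Pi.add_apply]
        abel
      map_smul' := by
        intro c a
        funext v
        simp only [Prod.smul_fst, Prod.smul_snd, map_smul, LinearMap.smul_apply, RingHom.id_apply,
          Pi.smul_apply, smul_add] }
  let R : (Fin n → Fin 3 → ℝ) →ₗ[ℝ] (X → Fin 3 → ℝ) :=
    LinearMap.funLeft ℝ (Fin 3 → ℝ) (fun v : X => (v : Fin n))
  let Φ : ((EIdx H → ℝ) × ((Fin 3 → ℝ) × (Fin 3 → ℝ))) →ₗ[ℝ] (X → Fin 3 → ℝ) :=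
    R ∘ₗ (Φ1.coprod Φ2)
  have hinj : Function.Injective Φ := by
    rw [← LinearMap.ker_eq_bot, LinearMap.ker_eq_bot']
    rintro ⟨c, t, s⟩ h0
    have hv : ∀ v ∈ X, Φ1 c v + (t + crossProduct s (p v)) = 0 := by
      intro v hv
      have := congrFun h0 ⟨v, hv⟩
      simpa [Φ, R, Φ2] using this
    let g' : Fin n → Fin n → ℝ := fun u v =>
      if h : u < v ∧ H.Adj u v then c ⟨(u, v), h⟩ else 0
    have hF : ∀ v, Φ1 c v = force p (fun a b => g' a b + g' b a) v := by
      intro w
      rw [← sum_rowv]
      rw [← sum_eidx (H := H) (fun u v => g' u v • rowv p u v w)]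
      · simp only [Φ1, Fintype.linearCombination_apply, Finset.sum_apply, Pi.smul_apply]
        refine Finset.sum_congr rfl fun e _ => ?_
        have : g' e.1.1 e.1.2 = c e := by
          simp only [g']; rw [dif_pos e.2]
        rw [this]
      · intro u v huv
        have : g' u v = 0 := by simp only [g']; rw [dif_neg huv]
        rw [this, zero_smul]
    have hout : ∀ v, v ∉ X → Φ1 c v = 0 := by
      intro v hv
      rw [hF]
      unfold force
      refine sum_eq_zero fun w _ => ?_
      have h1 : g' v w = 0 := by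
        simp only [g']; rw [dif_neg]; exact fun h => hv (hin _ _ h.2)
      have h2 : g' w v = 0 := by
        simp only [g']; rw [dif_neg]; exact fun h => hv (hin _ _ h.2.symm)
      show (g' v w + g' w v) • (p v - p w) = 0
      rw [h1, h2, add_zero, zero_smul]
    have heq := force_equil p (fun a b => g' a b + g' b a) (fun a b => add_comm _ _) t s
    have hFF : ∀ v, force p (fun a b => g' a b + g' b a) v ⬝ᵥ (t + crossProduct s (p v))
        = - (Φ1 c v ⬝ᵥ Φ1 c v) := by
      intro v
      rw [← hF]
      by_cases hvX : v ∈ X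
      · have : t + crossProduct s (p v) = - Φ1 c v := by
          rw [eq_neg_iff_add_eq_zero, add_comm]; exact hv v hvX
        rw [this, dotProduct_neg]
      · rw [hout v hvX]; simp
    rw [sum_congr rfl fun v _ => hFF v, sum_neg_distrib, neg_eq_zero] at heq
    have hnn : ∀ v ∈ (univ : Finset (Fin n)), 0 ≤ Φ1 c v ⬝ᵥ Φ1 c v := by
      intro v _
      exact Finset.sum_nonneg fun i _ => mul_self_nonneg _
    have hz : ∀ v, Φ1 c v = 0 := by
      intro v
      have := (sum_eq_zero_iff_of_nonneg hnn).mp heq v (mem_univ v)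
      exact dotProduct_self_eq_zero.mp this
    have hc : c = 0 := by
      have h1 : Function.Injective Φ1 :=
        linearIndependent_iff_injective_fintypeLinearCombination.mp hli
      apply h1
      rw [map_zero]
      funext v
      exact hz v
    have hts : ∀ v ∈ X, t + crossProduct s (p v) = 0 := by
      intro v hvX
      have := hv v hvX
      rwa [hz v, zero_add] at this
    obtain ⟨a, ha, b, hb, d, hd, hab, had, hbd⟩ := Finset.two_lt_card.mp (by omega : 2 < X.card)
    have hdiff : ∀ v ∈ X, crossProduct s (p a - p v) = 0 := by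
      intro v hvX
      have h1 := hts a ha
      have h2 := hts v hvX
      rw [map_sub, sub_eq_zero]
      exact add_left_cancel (h1.trans h2.symm)
    have hs0 : s = 0 := by
      by_contra hs
      obtain ⟨β, hβ⟩ := parallel_of_cross hs (hdiff b hb)
      obtain ⟨γ, hγ⟩ := parallel_of_cross hs (hdiff d hd)
      have hcomb := hp.base {b, d} (x := a) (by simp [hab, had]) (card_le_two.trans (by norm_num))
        (fun v => if v = b then γ else -β) (by
          rw [sum_pair hbd, if_pos rfl, if_neg hbd.symm, hβ, hγ]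
          module)
      have h1 := hcomb b (by simp)
      have h2 := hcomb d (by simp)
      rw [if_pos rfl] at h1
      rw [h1, zero_smul] at hγ
      exact hp.inj had (sub_eq_zero.mp hγ)
    have ht0 : t = 0 := by
      have := hts a ha
      rw [hs0, map_zero, LinearMap.zero_apply, add_zero] at this
      exact this
    rw [hc, ht0, hs0]
    rfl
  have hfr := LinearMap.finrank_le_finrank_of_injective hinj
  rw [Module.finrank_prod, Module.finrank_prod, Module.finrank_fintype_fun_eq_card,
    Module.finrank_fintype_fun_eq_card, Module.finrank_pi_fintype] at hfr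
  simp only [Module.finrank_fintype_fun_eq_card, sum_const, Fintype.card_fin, card_univ,
    smul_eq_mul, Fintype.card_coe] at hfr
  have hcr : cr H X X = cr H univ univ := by
    have h1 : cr H univ univ = cr H X univ := by
      unfold cr
      symm
      apply sum_subset (subset_univ X)
      intro u _ hu
      have : nb H u = ∅ := by
        ext w
        rw [mem_nb]
        simp only [notMem_empty, iff_false]
        exact fun h => hu (hin _ _ h)
      rw [this]; simp
    rw [h1]
    unfold cr
    refine sum_congr rfl fun u _ => ?_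
    congr 2
    ext w
    simp only [mem_inter, mem_univ, and_true, mem_nb]
    exact ⟨fun h => h.1, fun h => ⟨h, hin _ _ h.symm⟩⟩
  unfold g
  rw [hcr, cr_eq_eidx]
  have : ((Fintype.card (EIdx H) : ℤ)) + 6 ≤ X.card * 3 := by exact_mod_cast hfr
  linarith

end Pool.Agent.V7H24.Rig
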