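import Mathlib

set_option autoImplicit false
set_option linter.unusedSectionVars false

namespace Pool.Agent.V7H24.Rig

open Finset

section
variable {X Y ι : Type*} [NormedAddCommGroup X] [NormedSpace ℝ X]
  [NormedAddCommGroup Y] [NormedSpace ℝ Y] [FiniteDimensional ℝ Y] [Fintype ι]

/-- along a line through a point of linear independence, only finitely many parameters are bad -/
theorem finite_bad [DecidableEq ι] (v w : ι → Y) (hv : LinearIndependent ℝ v) :
    {t : ℝ | ¬ LinearIndependent ℝ (fun i => w i + t • (v i - w i))}.Finite := by
  classical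
  let L := Fintype.linearCombination ℝ v
  have hker : LinearMap.ker L = ⊥ :=
    LinearMap.ker_eq_bot.mpr (linearIndependent_iff_injective_fintypeLinearCombination.mp hv)
  obtain ⟨π, hπ⟩ := L.exists_leftInverse_of_injective hker
  have hπv : ∀ i, π (v i) = Pi.single i 1 := by
    intro i
    have : L (Pi.single i 1) = v i := by
      simp [L]
    rw [← this]
    exact LinearMap.congr_fun hπ _
  let A : ι → ι → ℝ := fun i j => π (w i) j
  let P : Matrix ι ι (Polynomial ℝ) := Matrix.of fun i j =>
    Polynomial.C (A i j) + Polynomial.X * Polynomial.C ((Pi.single i (1:ℝ) : ι → ℝ) j - A i j)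
  have hP : ∀ t : ℝ, P.map (Polynomial.eval t) =
      Matrix.of fun i j => π (w i + t • (v i - w i)) j := by
    intro t
    ext i j
    simp only [P, Matrix.map_apply, Matrix.of_apply]
    simp only [Polynomial.eval_add, Polynomial.eval_C, Polynomial.eval_mul,
      Polynomial.eval_X, map_add, map_smul, map_sub, hπv, Pi.add_apply, Pi.smul_apply,
      Pi.sub_apply, smul_eq_mul, A]
    simp
  have hdet : ∀ t : ℝ, (P.det).eval t = (P.map (Polynomial.eval t)).det := by
    intro t
    have := RingHom.map_det (Polynomial.evalRingHom t) P
    simpa using this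
  have hP1 : P.det ≠ 0 := by
    intro h0
    have h1 := hdet 1
    rw [h0, Polynomial.eval_zero, hP] at h1
    have : (Matrix.of fun i j => π (w i + (1:ℝ) • (v i - w i)) j) = (1 : Matrix ι ι ℝ) := by
      ext i j
      rw [Matrix.of_apply, one_smul, add_sub_cancel, hπv, Matrix.one_apply, Pi.single_apply]
      simp only [eq_comm]
    rw [this, Matrix.det_one] at h1
    exact zero_ne_one h1
  refine (Polynomial.finite_setOfPred_isRoot hP1).subset ?_
  intro t ht
  by_contra hr
  apply ht
  have hd : (P.map (Polynomial.eval t)).det ≠ 0 := by
    rw [← hdet]; exact hr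
  have hli := Matrix.linearIndependent_rows_of_det_ne_zero hd
  rw [hP] at hli
  exact LinearIndependent.of_comp π hli

/-- the locus of linear independence of a family depending affinely on a parameter is open,
and it is dense once it is nonempty -/
theorem open_linInd (f : ι → X → Y) (hc : ∀ i, Continuous (f i)) :
    IsOpen {x | LinearIndependent ℝ (fun i => f i x)} := by
  have h := isOpen_setOfPred_linearIndependent (𝕜 := ℝ) (E := Y) (ι := ι)
  exact h.preimage (continuous_pi hc)

theorem dense_linInd (f : ι → X → Y)
    (hl : ∀ i x y (t : ℝ), f i (x + t • (y - x)) = f i x + t • (f i y - f i x))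
    (hne : ∃ x, LinearIndependent ℝ (fun i => f i x)) :
    Dense {x | LinearIndependent ℝ (fun i => f i x)} := by
  classical
  obtain ⟨y, hy⟩ := hne
  intro x
  have hfin := finite_bad (fun i => f i y) (fun i => f i x) hy
  have hd : Dense {t : ℝ | ¬ LinearIndependent ℝ (fun i => f i x + t • (f i y - f i x))}ᶜ :=
    hfin.countable.dense_compl ℝ
  have h0 := hd 0
  have hcont : Continuous (fun t : ℝ => x + t • (y - x)) := by fun_prop
  have := map_mem_closure hcont h0 (t := {x | LinearIndependent ℝ (fun i => f i x)}) (by
    intro t ht
    simp only [Set.mem_compl_iff, Set.mem_ofPred_eq, not_not] at ht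
    simpa only [Set.mem_ofPred_eq, hl] using ht)
  simpa using this

end

end Pool.Agent.V7H24.Rig
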