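import Pool.Agent.V7H24.Rig.Basic
import Pool.Agent.V7H24.Rig.OpenDense

set_option autoImplicit false
set_option linter.unusedSectionVars false

namespace Pool.Agent.V7H24.Rig

open Finset

variable {n : ℕ}

/-- row of the rigidity matrix -/
def rowv (p : Fin n → Fin 3 → ℝ) (u v : Fin n) : Fin n → Fin 3 → ℝ :=
  fun w i => if w = u then p u i - p v i else if w = v then p v i - p u i else 0

theorem rowv_eq (p : Fin n → Fin 3 → ℝ) (u v w : Fin n) :
    rowv p u v w = (if w = u then p u - p v else 0) + (if w = v then p v - p u else 0) := by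
  funext i
  unfold rowv
  by_cases h1 : w = u
  · by_cases h2 : w = v
    · subst h1; subst h2; simp
    · subst h1; simp [h2]
  · by_cases h2 : w = v
    · subst h2; simp [h1]
    · simp [h1, h2]

theorem sum_rowv (p : Fin n → Fin 3 → ℝ) (g : Fin n → Fin n → ℝ) (w : Fin n) :
    ∑ u, ∑ v, g u v • rowv p u v w = force p (fun a b => g a b + g b a) w := by
  simp only [rowv_eq, smul_add, sum_add_distrib, smul_ite, smul_zero]
  rw [force]
  simp only [add_smul, sum_add_distrib]
  congr 1
  · rw [sum_comm]
    simp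
  · simp

abbrev EIdx (H : SimpleGraph (Fin n)) := {e : Fin n × Fin n // e.1 < e.2 ∧ H.Adj e.1 e.2}

theorem sum_eidx {H : SimpleGraph (Fin n)} {M : Type*} [AddCommMonoid M]
    [Fintype (EIdx H)] (F : Fin n → Fin n → M)
    (h0 : ∀ u v, ¬ (u < v ∧ H.Adj u v) → F u v = 0) :
    ∑ e : EIdx H, F e.1.1 e.1.2 = ∑ u, ∑ v, F u v := by
  classical
  rw [← Finset.sum_product']
  rw [Finset.univ_product_univ]
  rw [← Finset.sum_subset (Finset.subset_univ
    (Finset.univ.filter (fun e : Fin n × Fin n => e.1 < e.2 ∧ H.Adj e.1 e.2)))]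
  · rw [Finset.sum_subtype (p := fun e : Fin n × Fin n => e.1 < e.2 ∧ H.Adj e.1 e.2)]
    intro x
    simp
  · intro x _ hx
    apply h0
    simpa using hx

theorem indepAt_iff (H : SimpleGraph (Fin n)) (p : Fin n → Fin 3 → ℝ) :
    IndepAt H p ↔ LinearIndependent ℝ (fun e : EIdx H => rowv p e.1.1 e.1.2) := by
  classical
  rw [Fintype.linearIndependent_iff]
  constructor
  · intro h g hg
    let g' : Fin n → Fin n → ℝ := fun u v =>
      if h : u < v ∧ H.Adj u v then g ⟨(u, v), h⟩ else 0
    have hg' : ∀ e : EIdx H, g e = g' e.1.1 e.1.2 := by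
      intro e
      simp only [g']
      rw [dif_pos e.2]
    have hst : IsStress H p (fun a b => g' a b + g' b a) := by
      refine ⟨⟨fun u v => add_comm _ _, fun u v huv => ?_⟩, fun w => ?_⟩
      · have h1 : g' u v = 0 := by
          simp only [g']; rw [dif_neg]; exact fun h => huv h.2
        have h2 : g' v u = 0 := by
          simp only [g']; rw [dif_neg]; exact fun h => huv h.2.symm
        simp [h1, h2]
      · rw [← sum_rowv]
        rw [← sum_eidx (H := H) (fun u v => g' u v • rowv p u v w)]
        · have := congrFun hg w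
          simp only [Finset.sum_apply, Pi.smul_apply, Pi.zero_apply] at this
          rw [← this]
          refine Finset.sum_congr rfl fun e _ => ?_
          rw [hg' e]
        · intro u v huv
          have : g' u v = 0 := by simp only [g']; rw [dif_neg huv]
          rw [this, zero_smul]
    intro e
    have h0 : g' e.1.1 e.1.2 + g' e.1.2 e.1.1 = 0 := h _ hst e.1.1 e.1.2
    have h2 : g' e.1.2 e.1.1 = 0 := by
      simp only [g']; rw [dif_neg]; exact fun h => absurd h.1 (not_lt.mpr e.2.1.le)
    rw [h2, add_zero] at h0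
    rw [hg' e, h0]
  · intro h ω hω
    let g' : Fin n → Fin n → ℝ := fun u v => if u < v ∧ H.Adj u v then ω u v else 0
    have hsum : ∀ u v, g' u v + g' v u = ω u v := by
      intro u v
      simp only [g']
      rcases lt_trichotomy u v with h1 | h1 | h1
      · by_cases hadj : H.Adj u v
        · rw [if_pos ⟨h1, hadj⟩, if_neg (fun h => absurd h.1 (not_lt.mpr h1.le)), add_zero]
        · rw [if_neg (fun h => hadj h.2), if_neg (fun h => hadj h.2.symm), add_zero,
            hω.1.supp u v hadj]
      · subst h1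
        simp [hω.1.self]
      · by_cases hadj : H.Adj v u
        · rw [if_pos (⟨h1, hadj⟩ : v < u ∧ H.Adj v u),
            if_neg (fun h => absurd h.1 (not_lt.mpr h1.le)), zero_add,
            hω.1.symm]
        · rw [if_neg (fun h => hadj h.2.symm), if_neg (fun h => hadj h.2), add_zero,
            hω.1.supp u v (fun h => hadj h.symm)]
    have hz := h (fun e => ω e.1.1 e.1.2) (by
      funext w
      simp only [Finset.sum_apply, Pi.smul_apply, Pi.zero_apply]
      have h1 := sum_rowv p g' w
      have h2 : (fun a b => g' a b + g' b a) = ω := by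
        funext a b; exact hsum a b
      rw [h2, hω.2 w] at h1
      rw [← h1, ← sum_eidx (H := H) (fun u v => g' u v • rowv p u v w)]
      · refine Finset.sum_congr rfl fun e _ => ?_
        have : g' e.1.1 e.1.2 = ω e.1.1 e.1.2 := by
          simp only [g']; rw [if_pos e.2]
        rw [this]
      · intro u v huv
        have : g' u v = 0 := by simp only [g']; rw [if_neg huv]
        rw [this, zero_smul])
    intro u v
    rcases lt_trichotomy u v with h1 | h1 | h1
    · by_cases hadj : H.Adj u v
      · exact hz ⟨(u, v), h1, hadj⟩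
      · exact hω.1.supp u v hadj
    · subst h1; exact hω.1.self u
    · by_cases hadj : H.Adj v u
      · rw [hω.1.symm]; exact hz ⟨(v, u), h1, hadj⟩
      · exact hω.1.supp u v (fun h => hadj h.symm)

/-- general position: any at most four points are affinely independent -/
def GP (p : Fin n → Fin 3 → ℝ) : Prop :=
  ∀ S : Finset (Fin n), S.card ≤ 4 → LinearIndependent ℝ (fun s : S => ((1 : ℝ), p s))

def Gen (p : Fin n → Fin 3 → ℝ) : Prop :=
  GP p ∧ ∀ H : SimpleGraph (Fin n), Indep H → IndepAt H p

theorem GP.zero {p : Fin n → Fin 3 → ℝ} (hp : GP p) (S : Finset (Fin n)) (hS : S.card ≤ 4)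
    (c : Fin n → ℝ) (h1 : ∑ s ∈ S, c s = 0) (h2 : ∑ s ∈ S, c s • p s = 0) :
    ∀ s ∈ S, c s = 0 := by
  have h := hp S hS
  rw [Fintype.linearIndependent_iff] at h
  have := h (fun s => c s) (by
    rw [Prod.ext_iff]
    constructor
    · simp only [Prod.smul_mk, smul_eq_mul, mul_one, Prod.fst_sum, Prod.fst_zero]
      rw [Finset.sum_coe_sort S c]; exact h1
    · simp only [Prod.smul_mk, Prod.snd_sum, Prod.snd_zero]
      rw [Finset.sum_coe_sort S (fun s => c s • p s)]; exact h2)
  intro s hs
  exact this ⟨s, hs⟩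


theorem exists_gp_on (S : Finset (Fin n)) (hS : S.card ≤ 4) :
    ∃ p : Fin n → Fin 3 → ℝ, LinearIndependent ℝ (fun s : S => ((1 : ℝ), p s)) := by
  classical
  obtain ⟨ι⟩ : Nonempty (S ↪ Fin 4) := by
    apply Function.Embedding.nonempty_of_card_le
    simpa using hS
  let p : Fin n → Fin 3 → ℝ := fun v i =>
    if h : v ∈ S then (if ι ⟨v, h⟩ = i.succ then 1 else 0) else 0
  refine ⟨p, ?_⟩
  rw [Fintype.linearIndependent_iff]
  intro g hg
  rw [Prod.ext_iff] at hg
  obtain ⟨h1, h2⟩ := hg
  simp only [Prod.smul_mk, smul_eq_mul, mul_one, Prod.fst_sum, Prod.fst_zero, Prod.snd_sum,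
    Prod.snd_zero] at h1 h2
  have key : ∀ s : S, ∀ i : Fin 3, ι s = i.succ → g s = 0 := by
    intro s i hi
    have := congrFun h2 i
    simp only [Finset.sum_apply, Pi.smul_apply, smul_eq_mul, Pi.zero_apply] at this
    rw [Finset.sum_eq_single s] at this
    · simpa [p, hi] using this
    · intro t _ hts
      have : ι t ≠ i.succ := by
        rw [← hi]; exact fun h => hts (ι.injective h)
      simp [p, this]
    · simp
  intro s
  rcases Fin.eq_zero_or_eq_succ (ι s) with h | ⟨j, hj⟩
  · rw [Finset.sum_eq_single s] at h1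
    · exact h1
    · intro t _ hts
      rcases Fin.eq_zero_or_eq_succ (ι t) with h' | ⟨j, hj⟩
      · exact absurd (ι.injective (h'.trans h.symm)) hts
      · exact key t j hj
    · simp
  · exact key s j hj

section
variable {X : Type*} [NormedAddCommGroup X] [NormedSpace ℝ X] [CompleteSpace X]

theorem open_dense_gen (φ : X → Fin n → Fin 3 → ℝ) (hφc : Continuous φ)
    (hφl : ∀ x y (t : ℝ), φ (x + t • (y - x)) = φ x + t • (φ y - φ x))
    (h1 : ∀ H : SimpleGraph (Fin n), Indep H → ∃ x, IndepAt H (φ x))
    (h2 : ∀ S : Finset (Fin n), S.card ≤ 4 →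
      ∃ x, LinearIndependent ℝ (fun s : S => ((1 : ℝ), φ x s))) :
    IsOpen {x | Gen (φ x)} ∧ Dense {x | Gen (φ x)} := by
  classical
  have hA : ∀ H : SimpleGraph (Fin n), Indep H →
      IsOpen {x | IndepAt H (φ x)} ∧ Dense {x | IndepAt H (φ x)} := by
    intro H hH
    have heq : {x | IndepAt H (φ x)} =
        {x | LinearIndependent ℝ (fun e : EIdx H => rowv (φ x) e.1.1 e.1.2)} := by
      ext x; exact indepAt_iff H (φ x)
    rw [heq]
    constructor
    · apply open_linInd (fun (e : EIdx H) x => rowv (φ x) e.1.1 e.1.2)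
      intro e
      refine continuous_pi fun w => ?_
      simp only [rowv_eq]
      have ha : Continuous fun x => φ x e.1.1 := (continuous_apply _).comp hφc
      have hb : Continuous fun x => φ x e.1.2 := (continuous_apply _).comp hφc
      refine Continuous.add ?_ ?_
      · split_ifs
        · exact ha.sub hb
        · exact continuous_const
      · split_ifs
        · exact hb.sub ha
        · exact continuous_const
    · apply dense_linInd (fun (e : EIdx H) x => rowv (φ x) e.1.1 e.1.2)
      · intro e x y t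
        funext w i
        simp only [rowv, hφl, Pi.add_apply, Pi.smul_apply, Pi.sub_apply, smul_eq_mul]
        split_ifs <;> ring
      · obtain ⟨x, hx⟩ := h1 H hH
        exact ⟨x, (indepAt_iff H (φ x)).mp hx⟩
  have hB : ∀ S : Finset (Fin n), S.card ≤ 4 →
      IsOpen {x | LinearIndependent ℝ (fun s : S => ((1 : ℝ), φ x s))} ∧
      Dense {x | LinearIndependent ℝ (fun s : S => ((1 : ℝ), φ x s))} := by
    intro S hS
    constructor
    · apply open_linInd (fun (s : S) x => ((1 : ℝ), φ x s))
      intro s
      exact continuous_const.prodMk ((continuous_apply _).comp hφc)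
    · apply dense_linInd (fun (s : S) x => ((1 : ℝ), φ x s))
      · intro s x y t
        rw [Prod.ext_iff]
        constructor
        · simp
        · funext i
          simp [hφl]
      · exact h2 S hS
  have hset : {x | Gen (φ x)} =
      (⋂ S : {S : Finset (Fin n) // S.card ≤ 4},
        {x | LinearIndependent ℝ (fun s : S.1 => ((1 : ℝ), φ x s))}) ∩
      (⋂ H : {H : SimpleGraph (Fin n) // Indep H}, {x | IndepAt H.1 (φ x)}) := by
    ext x
    simp only [Set.mem_ofPred_eq, Set.mem_inter_iff, Set.mem_iInter, Subtype.forall, Gen, GP]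
  rw [hset]
  have hfin : Finite (SimpleGraph (Fin n)) := inferInstance
  have o1 : IsOpen (⋂ S : {S : Finset (Fin n) // S.card ≤ 4},
        {x | LinearIndependent ℝ (fun s : S.1 => ((1 : ℝ), φ x s))}) :=
    isOpen_iInter_of_finite fun S => (hB S.1 S.2).1
  have o2 : IsOpen (⋂ H : {H : SimpleGraph (Fin n) // Indep H}, {x | IndepAt H.1 (φ x)}) :=
    isOpen_iInter_of_finite fun H => (hA H.1 H.2).1
  have d1 : Dense (⋂ S : {S : Finset (Fin n) // S.card ≤ 4},
        {x | LinearIndependent ℝ (fun s : S.1 => ((1 : ℝ), φ x s))}) :=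
    dense_iInter_of_isOpen (fun S => (hB S.1 S.2).1) (fun S => (hB S.1 S.2).2)
  have d2 : Dense (⋂ H : {H : SimpleGraph (Fin n) // Indep H}, {x | IndepAt H.1 (φ x)}) :=
    dense_iInter_of_isOpen (fun H => (hA H.1 H.2).1) (fun H => (hA H.1 H.2).2)
  exact ⟨o1.inter o2, d1.inter_of_isOpen_left d2 o1⟩

end

theorem exists_gen (n : ℕ) : ∃ p : Fin n → Fin 3 → ℝ, Gen p := by
  have h := open_dense_gen (X := Fin n → Fin 3 → ℝ) (fun x => x) continuous_id
    (fun x y t => rfl) (fun H hH => hH) (fun S hS => exists_gp_on S hS)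
  obtain ⟨p, hp⟩ := h.2.nonempty
  exact ⟨p, hp⟩

theorem indep_of_gen {H : SimpleGraph (Fin n)} (h : ∀ p, Gen p → IndepAt H p) : Indep H := by
  obtain ⟨p, hp⟩ := exists_gen n
  exact ⟨p, h p hp⟩

theorem open_dense_move {p : Fin n → Fin 3 → ℝ} (hp : Gen p) (v : Fin n) :
    IsOpen {q | Gen (Function.update p v q)} ∧ Dense {q | Gen (Function.update p v q)} := by
  refine open_dense_gen (X := Fin 3 → ℝ) (fun q => Function.update p v q) ?_ ?_ ?_ ?_
  · exact continuous_const.update v continuous_id
  · intro x y t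
    funext w
    by_cases h : w = v
    · subst h; simp
    · simp [h]
  · intro H hH
    refine ⟨p v, ?_⟩
    simpa using hp.2 H hH
  · intro S hS
    refine ⟨p v, ?_⟩
    simpa using hp.1 S hS

end Pool.Agent.V7H24.Rig
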