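import Pool.Agent.V7H24.Rig.StarZero

set_option autoImplicit false
set_option linter.unusedSectionVars false

namespace Pool.Agent.V7H24.Rig

open Finset

variable {n : ℕ}

theorem star_dep {G : SimpleGraph (Fin n)} (hG : Circ G) {p : Fin n → Fin 3 → ℝ}
    (hp : Gen p) {v : Fin n} (hv : (nb G v).card = 5)
    {ω : Fin n → Fin n → ℝ} (hω : IsStress G p ω) :
    (∑ i ∈ nb G v, ω v i = 0) ∧ (∑ i ∈ nb G v, ω v i • p i = 0) := by
  have h1 := star_sum_zero hG hp hv hω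
  refine ⟨h1, ?_⟩
  have h2 := hω.2 v
  rw [force_star hω.1] at h2
  simp only [smul_sub, sum_sub_distrib, ← sum_smul] at h2
  rw [h1, zero_smul, zero_sub, neg_eq_zero] at h2
  exact h2

theorem exists_aff {p : Fin n → Fin 3 → ℝ} (hp : GP p) {S : Finset (Fin n)} (hS : S.card ≤ 4)
    {s0 : Fin n} (hs0 : s0 ∈ S) :
    ∃ F : (ℝ × (Fin 3 → ℝ)) →ₗ[ℝ] ℝ, F (1, p s0) = 1 ∧ ∀ s ∈ S, s ≠ s0 → F (1, p s) = 0 := by
  classical
  have hli := hp S hS
  let L := Fintype.linearCombination ℝ (fun s : S => ((1 : ℝ), p s))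
  have hker : LinearMap.ker L = ⊥ :=
    LinearMap.ker_eq_bot.mpr (linearIndependent_iff_injective_fintypeLinearCombination.mp hli)
  obtain ⟨π, hπ⟩ := L.exists_leftInverse_of_injective hker
  have hπv : ∀ i : S, π ((1 : ℝ), p i) = Pi.single i 1 := by
    intro i
    have : L (Pi.single i 1) = ((1 : ℝ), p i) := by
      simp [L]
    rw [← this]
    exact LinearMap.congr_fun hπ _
  refine ⟨(LinearMap.proj (⟨s0, hs0⟩ : S)).comp π, ?_, ?_⟩
  · rw [LinearMap.comp_apply, hπv ⟨s0, hs0⟩]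
    simp
  · intro s hs hne
    rw [LinearMap.comp_apply, hπv ⟨s, hs⟩]
    have : (⟨s0, hs0⟩ : S) ≠ ⟨s, hs⟩ := fun h => hne (Subtype.ext_iff.mp h).symm
    simp [this]

theorem aff_dep_apply {p : Fin n → Fin 3 → ℝ} {S : Finset (Fin n)} {l : Fin n → ℝ}
    (h1 : ∑ i ∈ S, l i = 0) (h2 : ∑ i ∈ S, l i • p i = 0)
    (F : (ℝ × (Fin 3 → ℝ)) →ₗ[ℝ] ℝ) : ∑ i ∈ S, l i * F (1, p i) = 0 := by
  have : ∑ i ∈ S, l i * F (1, p i) = F (∑ i ∈ S, l i • ((1 : ℝ), p i)) := by
    rw [map_sum]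
    refine sum_congr rfl fun i _ => ?_
    rw [map_smul, smul_eq_mul]
  rw [this]
  have h3 : ∑ i ∈ S, l i • ((1 : ℝ), p i) = 0 := by
    rw [Prod.ext_iff]
    constructor
    · simp only [Prod.smul_mk, smul_eq_mul, mul_one, Prod.fst_sum, Prod.fst_zero]
      exact h1
    · simp only [Prod.smul_mk, Prod.snd_sum, Prod.snd_zero]
      exact h2
  rw [h3, map_zero]

/-- the functionals attached to different triples differ somewhere -/
theorem aff_differ {p : Fin n → Fin 3 → ℝ} (hp : GP p) {v : Fin n} {T T' : Finset (Fin n)}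
    (hT : T.card = 3) (hT' : T'.card = 3) (hvT : v ∉ T) (hvT' : v ∉ T') (hne : T ≠ T')
    {F F' : (ℝ × (Fin 3 → ℝ)) →ₗ[ℝ] ℝ}
    (hF : ∀ t ∈ T, F (1, p t) = 0) (hF'v : F' (1, p v) = 1) (hF' : ∀ t ∈ T', F' (1, p t) = 0) :
    ∃ x : Fin 3 → ℝ, F (1, x) ≠ F' (1, x) := by
  classical
  by_contra hno
  push Not at hno
  have hU : 4 ≤ (T ∪ T').card := by
    by_contra hlt
    have h1 : T = T ∪ T' := eq_of_subset_of_card_le subset_union_left (by omega)
    have h2 : T' = T ∪ T' := eq_of_subset_of_card_le subset_union_right (by omega)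
    exact hne (h1.trans h2.symm)
  obtain ⟨S, hSsub, hS⟩ := exists_subset_card_eq hU
  have hvS : v ∉ S := fun h => (mem_union.mp (hSsub h)).elim hvT hvT'
  obtain ⟨l, l1, l2, l3, -⟩ := affine_dep hp (S := insert v S)
    (by rw [card_insert_of_notMem hvS, hS])
  have h1 := aff_dep_apply l1 l2 F'
  rw [sum_insert hvS, hF'v, sum_eq_zero, add_zero, mul_one] at h1
  · exact l3 v (mem_insert_self _ _) h1
  · intro s hs
    rcases mem_union.mp (hSsub hs) with h | h
    · rw [← hno, hF s h, mul_zero]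
    · rw [hF' s h, mul_zero]

/-- moving one vertex -/
theorem move {G : SimpleGraph (Fin n)} (hG : Circ G) {v : Fin n} (hv : (nb G v).card = 5) :
    ∃ (ω ω' : Fin n → Fin n → ℝ) (c : Fin n → ℝ) (ρ : Finset (Fin n) → ℝ),
      (∀ i j, G.Adj i j → ω i j ≠ 0) ∧ (∀ i j, ω i j = ω j i) ∧ (∀ i j, ω' i j = ω' j i) ∧
      c v ≠ 0 ∧
      (∀ k, k ∉ nb G v → ∀ j, G.Adj k j → ω' k j = c k * ω k j) ∧
      (∀ i ∈ nb G v, ∀ j ∈ nb G i, j ≠ v →
        ω' i j = c v * ρ (((nb G i).erase v).erase j) * ω i j) ∧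
      (∀ T T' : Finset (Fin n), T.card = 3 → T'.card = 3 → v ∉ T → v ∉ T' →
        ρ T = ρ T' → T = T') := by
  classical
  obtain ⟨p, hp⟩ := exists_gen n
  -- the functionals
  have hF : ∀ T : Finset (Fin n), ∃ F : (ℝ × (Fin 3 → ℝ)) →ₗ[ℝ] ℝ,
      T.card = 3 → v ∉ T → F (1, p v) = 1 ∧ ∀ t ∈ T, F (1, p t) = 0 := by
    intro T
    by_cases hT : T.card = 3 ∧ v ∉ T
    · obtain ⟨F, h1, h2⟩ := exists_aff hp.1 (S := insert v T)
        (by rw [card_insert_of_notMem hT.2]; omega) (mem_insert_self v T)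
      refine ⟨F, fun _ _ => ⟨h1, fun t ht => h2 t (mem_insert_of_mem ht) ?_⟩⟩
      exact fun h => hT.2 (h ▸ ht)
    · exact ⟨0, fun h1 h2 => absurd ⟨h1, h2⟩ hT⟩
  choose F hF using hF
  -- choice of the new position
  let I := {TT : Finset (Fin n) × Finset (Fin n) // TT.1.card = 3 ∧ TT.2.card = 3 ∧ v ∉ TT.1 ∧
    v ∉ TT.2 ∧ TT.1 ≠ TT.2}
  have hlin : ∀ (Φ : (ℝ × (Fin 3 → ℝ)) →ₗ[ℝ] ℝ) (x y : Fin 3 → ℝ) (t : ℝ),
      Φ (1, x + t • (y - x)) = Φ (1, x) + t * (Φ (1, y) - Φ (1, x)) := by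
    intro Φ x y t
    have : ((1 : ℝ), x + t • (y - x)) = (1, x) + t • ((1, y) - (1, x)) := by
      rw [Prod.ext_iff]
      constructor <;> simp
    rw [this, map_add, map_smul, map_sub, smul_eq_mul]
  have hcont : ∀ (Φ : (ℝ × (Fin 3 → ℝ)) →ₗ[ℝ] ℝ), Continuous (fun x : Fin 3 → ℝ => Φ (1, x)) := by
    intro Φ
    exact Φ.continuous_of_finiteDimensional.comp (continuous_const.prodMk continuous_id)
  have hO : ∀ i : I, IsOpen {x : Fin 3 → ℝ | F i.1.1 (1, x) - F i.1.2 (1, x) ≠ 0} := by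
    intro i
    exact isOpen_ne_fun ((hcont _).sub (hcont _)) continuous_const
  have hD : ∀ i : I, Dense {x : Fin 3 → ℝ | F i.1.1 (1, x) - F i.1.2 (1, x) ≠ 0} := by
    intro i
    obtain ⟨⟨T, T'⟩, h1, h2, h3, h4, h5⟩ := i
    obtain ⟨x0, hx0⟩ := aff_differ hp.1 h1 h2 h3 h4 h5 (hF T h1 h3).2 (hF T' h2 h4).1
      (hF T' h2 h4).2
    apply dense_ne (fun x : Fin 3 → ℝ => F T (1, x) - F T' (1, x)) (x0 := x0)
    · intro x y t
      simp only [hlin, smul_eq_mul]
      ring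
    · exact sub_ne_zero.mpr hx0
  obtain ⟨gO, gD⟩ := open_dense_move hp v
  have dI : Dense (⋂ i : I, {x : Fin 3 → ℝ | F i.1.1 (1, x) - F i.1.2 (1, x) ≠ 0}) :=
    dense_iInter_of_isOpen hO hD
  obtain ⟨q, hq1, hq2⟩ := (gD.inter_of_isOpen_left dI gO).nonempty
  have hp' : Gen (Function.update p v q) := hq1
  rw [Set.mem_iInter] at hq2
  obtain ⟨ω, hω, hnz⟩ := circ_stress hG hp
  obtain ⟨ω', hω', hnz'⟩ := circ_stress hG hp'
  have hpne : ∀ i, i ≠ v → Function.update p v q i = p i := fun i hi =>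
    Function.update_of_ne hi _ _
  -- proportionality away from `v`
  have hc : ∀ k, ∃ ck : ℝ, k ∉ nb G v → (∀ j, G.Adj k j → ω' k j = ck * ω k j) ∧
      ((nb G k).card = 5 → ck ≠ 0) := by
    intro k
    by_cases hk : k ∉ nb G v
    · rcases hG.reg k with h0 | h5
      · refine ⟨0, fun _ => ⟨fun j hj => ?_, fun h => ?_⟩⟩
        · have := mem_nb.mpr hj
          rw [h0] at this
          simp at this
        · rw [h0] at h; simp at h
      · obtain ⟨i0, hi0⟩ : (nb G k).Nonempty := card_pos.mp (by omega)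
        have hadj0 := mem_nb.mp hi0
        obtain ⟨a1, a2⟩ := star_dep hG hp h5 hω
        obtain ⟨b1, b2⟩ := star_dep hG hp' h5 hω'
        have hvk : ∀ i ∈ nb G k, i ≠ v := by
          intro i hi h
          rw [h] at hi
          exact hk (nb_symm.mp hi)
        have b2' : ∑ i ∈ nb G k, ω' k i • p i = 0 := by
          rw [← b2]
          refine sum_congr rfl fun i hi => ?_
          rw [hpne i (hvk i hi)]
        have := affine_dep_unique hp.1 h5 a1 a2 b1 b2' hi0 (hnz k i0 hadj0)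
        refine ⟨ω' k i0 / ω k i0, fun _ => ⟨fun j hj => this j (mem_nb.mpr hj), fun _ => ?_⟩⟩
        exact div_ne_zero (hnz' k i0 hadj0) (hnz k i0 hadj0)
    · exact ⟨0, fun h => absurd h hk⟩
  choose c hc using hc
  have hvN : v ∉ nb G v := not_mem_nb_self
  refine ⟨ω, ω', c, fun T => F T (1, q), hnz, hω.1.symm, hω'.1.symm, (hc v hvN).2 hv,
    fun k hk => (hc k hk).1, ?_, ?_⟩
  · intro i hi j hj hjv
    have hvi : v ∈ nb G i := nb_symm.mp hi
    have h5 : (nb G i).card = 5 := by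
      rcases hG.reg i with h | h
      · rw [h] at hvi; simp at hvi
      · exact h
    set T := ((nb G i).erase v).erase j with hTdef
    have hjE : j ∈ (nb G i).erase v := mem_erase.mpr ⟨hjv, hj⟩
    have hTc : T.card = 3 := by
      rw [hTdef, card_erase_of_mem hjE, card_erase_of_mem hvi, h5]
    have hvT : v ∉ T := by
      rw [hTdef]; simp
    obtain ⟨f1, f2⟩ := hF T hTc hvT
    have hsum : ∀ Z : Fin n → ℝ, ∑ k ∈ nb G i, Z k = Z v + (Z j + ∑ k ∈ T, Z k) := by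
      intro Z
      rw [← add_sum_erase _ _ hvi, ← add_sum_erase _ _ hjE]
    obtain ⟨a1, a2⟩ := star_dep hG hp h5 hω
    obtain ⟨b1, b2⟩ := star_dep hG hp' h5 hω'
    have e1 := aff_dep_apply a1 a2 (F T)
    have e2 := aff_dep_apply b1 b2 (F T)
    rw [hsum, sum_eq_zero (fun k hk => by rw [f2 k hk, mul_zero]), f1] at e1
    rw [hsum, sum_eq_zero (fun k hk => by
      rw [hpne k (fun h => hvT (h ▸ hk)), f2 k hk, mul_zero]), hpne j hjv,
      Function.update_self] at e2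
    have hiv : ω' i v = c v * ω i v := by
      rw [hω'.1.symm i v, hω.1.symm i v]
      exact (hc v hvN).1 i (mem_nb.mp hi)
    have hivne : ω i v ≠ 0 := hnz i v (mem_nb.mp hvi)
    have hFj : F T (1, p j) ≠ 0 := by
      intro h
      rw [h] at e1
      apply hivne
      linarith
    rw [hiv] at e2
    have e3 : F T (1, p j) * (ω' i j - c v * F T (1, q) * ω i j) = 0 := by
      linear_combination e2 - (c v * F T (1, q)) * e1
    rcases mul_eq_zero.mp e3 with h | h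
    · exact absurd h hFj
    · exact sub_eq_zero.mp h
  · intro T T' hT hT' hvT hvT' hρ
    by_contra hne
    have := hq2 ⟨(T, T'), hT, hT', hvT, hvT', hne⟩
    exact this (sub_eq_zero.mpr hρ)

end Pool.Agent.V7H24.Rig
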