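import Pool.Agent.V7H24.Rig.TwelveB

set_option autoImplicit false
set_option linter.unusedSectionVars false

namespace Pool.Agent.V7H24.Rig

open Finset

variable {n : ℕ}

theorem star_sum_zero {G : SimpleGraph (Fin n)} (hG : Circ G) {p : Fin n → Fin 3 → ℝ}
    (hp : Gen p) {v : Fin n} (hv : (nb G v).card = 5)
    {ωG : Fin n → Fin n → ℝ} (hωG : IsStress G p ωG) : ∑ i ∈ nb G v, ωG v i = 0 := by
  classical
  by_contra hσ
  obtain ⟨C, A, hdiag, hoff, ⟨i1, hi1, hCi1⟩, hND⟩ := star_outcome hG hp hv hωG hσ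
  have hvN : v ∉ nb G v := not_mem_nb_self
  have hne : ∀ i ∈ nb G v, nb G i ≠ ∅ := by
    intro i hi h
    have : v ∈ nb G i := nb_symm.mp hi
    rw [h] at this
    simp at this
  have hadj_of_len : ∀ i ∈ nb G v, ∀ j ∈ nb G v, i ≠ j →
      (∀ u, IsMotion (del G v) p u → len p u i j = 0) → G.Adj i j := by
    intro i hi j hj hij h
    exact lemA'' hG hp hij (hne i hi) (hne j hj) (fun u hu => h u (hu.mono (del_le G v)))
  let L := (nb G v).filter (fun i => C i = 0)
  let K := (nb G v).filter (fun i => C i ≠ 0)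
  have hL : ∀ i, i ∈ L ↔ i ∈ nb G v ∧ C i = 0 := by intro i; simp [L]
  have hK : ∀ i, i ∈ K ↔ i ∈ nb G v ∧ C i ≠ 0 := by intro i; simp [K]
  have hLK : L.card + K.card = 5 := by
    rw [← hv]
    exact card_filter_add_card_filter_not (s := nb G v) (fun i => C i = 0)
  have hK1 : 1 ≤ K.card := card_pos.mpr ⟨i1, (hK i1).mpr ⟨hi1, hCi1⟩⟩
  have hLL : ∀ i ∈ L, ∀ j ∈ L, i ≠ j → G.Adj i j := by
    intro i hi j hj hij
    rw [hL] at hi hj
    apply hadj_of_len i hi.1 j hj.1 hij
    intro u hu
    have := hoff u hu i hi.1 j hj.1 hij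
    rw [hi.2, hj.2] at this
    linarith
  have hKK : ∀ i ∈ K, ∀ j ∈ K, i ≠ j → G.Adj i j := by
    intro i hi j hj hij
    rw [hK] at hi hj
    apply hadj_of_len i hi.1 j hj.1 hij
    intro u hu
    have h1 := hoff u hu i hi.1 j hj.1 hij
    have h2 := hdiag u hu i hi.1
    have h3 := hdiag u hu j hj.1
    have h2' : A u i = 0 := (mul_eq_zero.mp h2).resolve_left hi.2
    have h3' : A u j = 0 := (mul_eq_zero.mp h3).resolve_left hj.2
    rw [h2', h3'] at h1
    linarith
  -- `L` has at least three elements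
  have hL3 : 3 ≤ L.card := by
    by_contra hlt
    obtain ⟨R, hLR, hRN, hR2⟩ := exists_subsuperset_card_eq (s := L) (t := nb G v) (n := 2)
      (filter_subset _ _) (by omega) (by omega)
    obtain ⟨r, s, hrs, hR⟩ := card_eq_two.mp hR2
    have hrN : r ∈ nb G v := hRN (by rw [hR]; simp)
    have hsN : s ∈ nb G v := hRN (by rw [hR]; simp)
    obtain ⟨u, hu, i, hi, hir, his, hA⟩ := hND r hrN s hsN hrs
    have hCi : C i = 0 := (mul_eq_zero.mp (hdiag u hu i hi)).resolve_right hA
    have : i ∈ R := hLR ((hL i).mpr ⟨hi, hCi⟩)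
    rw [hR] at this
    simp only [mem_insert, mem_singleton] at this
    exact this.elim hir his
  have hcases : L.card = 4 ∨ L.card = 3 := by omega
  rcases hcases with hL4 | hL3'
  · -- `L ∪ {v}` is a `K_5`
    have hvL : v ∉ L := fun h => hvN ((hL v).mp h).1
    have hcomp : ∀ i ∈ insert v L, ∀ j ∈ insert v L, i ≠ j → G.Adj i j := by
      intro i hi j hj hij
      rw [mem_insert] at hi hj
      rcases hi with rfl | hi
      · rcases hj with rfl | hj
        · exact absurd rfl hij
        · exact mem_nb.mp ((hL j).mp hj).1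
      · rcases hj with rfl | hj
        · exact (mem_nb.mp ((hL i).mp hi).1).symm
        · exact hLL i hi j hj hij
    have h1 := cr_complete hcomp
    have hc : (insert v L).card = 5 := by rw [card_insert_of_notMem hvL, hL4]
    have h2 := hG.sp (insert v L) (by omega)
    unfold g at h2
    rw [h1, hc] at h2
    norm_num at h2
  · have hK2 : K.card = 2 := by omega
    obtain ⟨k1, k2, hkk, hKe⟩ := card_eq_two.mp hK2
    obtain ⟨a, b, c, hab, hac, hbc, hLe⟩ := card_eq_three.mp hL3'
    have hk1K : k1 ∈ K := by rw [hKe]; simp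
    have hk2K : k2 ∈ K := by rw [hKe]; simp
    have haL : a ∈ L := by rw [hLe]; simp
    have hbL : b ∈ L := by rw [hLe]; simp
    have hcL : c ∈ L := by rw [hLe]; simp
    have hkl : ∀ k ∈ K, ∀ j ∈ L, k ≠ j := by
      intro k hk j hj h
      rw [hK] at hk
      rw [hL] at hj
      exact hk.2 (h ▸ hj.2)
    have hlen : ∀ k ∈ K, ∀ j ∈ L, ∀ u, IsMotion (del G v) p u →
        2 * len p u k j = C k * A u j := by
      intro k hk j hj u hu
      have h1 := hoff u hu k ((hK k).mp hk).1 j ((hL j).mp hj).1 (hkl k hk j hj)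
      rw [((hL j).mp hj).2] at h1
      linarith
    -- adjacency between `K` and `L` fails
    have hnadj : ∀ k ∈ K, ∀ j ∈ L, ∀ r ∈ L, ∀ s ∈ L, r ≠ s → r ≠ j → s ≠ j → ¬ G.Adj k j := by
      intro k hk j hj r hr s hs hrs hrj hsj hadj
      obtain ⟨u, hu, i, hi, hir, his, hA⟩ := hND r ((hL r).mp hr).1 s ((hL s).mp hs).1 hrs
      have hCi : C i = 0 := (mul_eq_zero.mp (hdiag u hu i hi)).resolve_right hA
      have hiL : i ∈ L := (hL i).mpr ⟨hi, hCi⟩
      have hij : i = j := by
        by_contra hij
        have hsub : ({i, j, r, s} : Finset (Fin n)) ⊆ L := by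
          intro z hz
          simp only [mem_insert, mem_singleton] at hz
          rcases hz with rfl | rfl | rfl | rfl
          · exact hiL
          · exact hj
          · exact hr
          · exact hs
        have := card_le_card hsub
        rw [card_insert_of_notMem (by simp [hij, hir, his]),
          card_insert_of_notMem (by simp [hrj.symm, hsj.symm]), card_pair hrs] at this
        omega
      subst hij
      have h1 := hlen k hk i hj u hu
      have hkv : k ≠ v := fun h => hvN (h ▸ ((hK k).mp hk).1)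
      have hiv : i ≠ v := fun h => hvN (h ▸ hi)
      rw [hu k i ⟨hadj, hkv, hiv⟩] at h1
      have : C k * A u i = 0 := by linarith
      rcases mul_eq_zero.mp this with h | h
      · exact ((hK k).mp hk).2 h
      · exact hA h
    -- dependence of the auxiliary graphs
    have hdep : ∀ j ∈ L, ¬ G.Adj k1 j → ¬ G.Adj k2 j →
        ¬ Indep (addE (addE (del G v) k1 j) k2 j) := by
      intro j hj n1 n2 hI
      have hk1j := hkl k1 hk1K j hj
      have hk2j := hkl k2 hk2K j hj
      have hI' := hp.2 _ hI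
      obtain ⟨ω, hω, hKω⟩ := dual (H := del G v) (p := p)
        ((C k2) • lenF p k1 j + (-(C k1)) • lenF p k2 j) (by
          intro u hu
          have h1 := hlen k1 hk1K j hj u hu
          have h2 := hlen k2 hk2K j hj u hu
          show C k2 * len p u k1 j + (-(C k1)) * len p u k2 j = 0
          linear_combination (C k2 / 2) * h1 - (C k1 / 2) * h2)
      have hst : IsStress (addE (addE (del G v) k1 j) k2 j) p
          (fun x y => (ω x y + (-(C k2)) * un k1 j x y) + (C k1) * un k2 j x y) := by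
        refine ⟨?_, ?_⟩
        · refine On.add (On.mono (le_addE _ _ _)
            (On.add (hω.mono (le_addE _ _ _)) (On.smul (un_on ?_) _))) (On.smul (un_on ?_) _)
          · rw [addE_adj]; exact Or.inr ⟨hk1j, Or.inl ⟨rfl, rfl⟩⟩
          · rw [addE_adj]; exact Or.inr ⟨hk2j, Or.inl ⟨rfl, rfl⟩⟩
        · apply forces_zero
          intro u
          have h1 : ∀ w, force p (fun x y => (ω x y + (-(C k2)) * un k1 j x y)
              + (C k1) * un k2 j x y) w ⬝ᵥ u w
              = force p ω w ⬝ᵥ u w - C k2 * (force p (un k1 j) w ⬝ᵥ u w)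
                + C k1 * (force p (un k2 j) w ⬝ᵥ u w) := by
            intro w
            rw [force_add, force_add, force_smul, force_smul, add_dotProduct, add_dotProduct,
              smul_dotProduct, smul_dotProduct, smul_eq_mul, smul_eq_mul]
            ring
          rw [sum_congr rfl fun w _ => h1 w, sum_add_distrib, sum_sub_distrib, ← mul_sum,
            ← mul_sum, ← hKω u, sum_force_un p u hk1j, sum_force_un p u hk2j]
          show (C k2 * len p u k1 j + (-(C k1)) * len p u k2 j) - C k2 * len p u k1 j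
            + C k1 * len p u k2 j = 0
          ring
      have h0 := hI' _ hst k1 j
      have h1 : ω k1 j = 0 := hω.supp k1 j (fun h => n1 h.1)
      have h2 : un k1 j k1 j = 1 := by unfold un; simp
      have h3 : un k2 j k1 j = 0 := by
        unfold un
        rw [if_neg]
        rintro (h | h)
        · exact hkk h.1
        · exact hk1j h.1
      rw [h1, h2, h3] at h0
      have : C k2 = 0 := by linarith
      exact ((hK k2).mp hk2K).2 this
    have nk1a := hnadj k1 hk1K a haL b hbL c hcL hbc hab.symm hac.symm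
    have nk2a := hnadj k2 hk2K a haL b hbL c hcL hbc hab.symm hac.symm
    have nk1b := hnadj k1 hk1K b hbL a haL c hcL hac hab hbc.symm
    have nk2b := hnadj k2 hk2K b hbL a haL c hcL hac hab hbc.symm
    have nk1c := hnadj k1 hk1K c hcL a haL b hbL hab hac hbc
    have nk2c := hnadj k2 hk2K c hcL a haL b hbL hab hac hbc
    have hall : ∀ z ∈ nb G v, z = k1 ∨ z = k2 ∨ z = a ∨ z = b ∨ z = c := by
      intro z hz
      by_cases hCz : C z = 0
      · have : z ∈ L := (hL z).mpr ⟨hz, hCz⟩
        rw [hLe] at this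
        simp only [mem_insert, mem_singleton] at this
        exact Or.inr (Or.inr this)
      · have : z ∈ K := (hK z).mpr ⟨hz, hCz⟩
        rw [hKe] at this
        simp only [mem_insert, mem_singleton] at this
        rcases this with h | h
        · exact Or.inl h
        · exact Or.inr (Or.inl h)
    have hkN : ∀ k ∈ K, k ∈ nb G v := fun k hk => ((hK k).mp hk).1
    have hlN : ∀ k ∈ L, k ∈ nb G v := fun k hk => ((hL k).mp hk).1
    have akk := hKK k1 hk1K k2 hk2K hkk
    have nice1 : Nice G v k1 k2 a b c := ⟨hv, hkN k1 hk1K, hkN k2 hk2K, hlN a haL, hlN b hbL,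
      hlN c hcL, hall, hkk, hkl k1 hk1K a haL, hkl k2 hk2K a haL, hkl k1 hk1K b hbL,
      hkl k1 hk1K c hcL, hkl k2 hk2K b hbL, hkl k2 hk2K c hcL, hab, hac, hbc, akk, nk1a, nk2a⟩
    have nice2 : Nice G v k1 k2 b a c := ⟨hv, hkN k1 hk1K, hkN k2 hk2K, hlN b hbL, hlN a haL,
      hlN c hcL, fun z hz => by
        rcases hall z hz with h | h | h | h | h
        · exact Or.inl h
        · exact Or.inr (Or.inl h)
        · exact Or.inr (Or.inr (Or.inr (Or.inl h)))
        · exact Or.inr (Or.inr (Or.inl h))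
        · exact Or.inr (Or.inr (Or.inr (Or.inr h))),
      hkk, hkl k1 hk1K b hbL, hkl k2 hk2K b hbL, hkl k1 hk1K a haL,
      hkl k1 hk1K c hcL, hkl k2 hk2K a haL, hkl k2 hk2K c hcL, hab.symm, hbc, hac, akk,
      nk1b, nk2b⟩
    have nice3 : Nice G v k1 k2 c a b := ⟨hv, hkN k1 hk1K, hkN k2 hk2K, hlN c hcL, hlN a haL,
      hlN b hbL, fun z hz => by
        rcases hall z hz with h | h | h | h | h
        · exact Or.inl h
        · exact Or.inr (Or.inl h)
        · exact Or.inr (Or.inr (Or.inr (Or.inl h)))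
        · exact Or.inr (Or.inr (Or.inr (Or.inr h)))
        · exact Or.inr (Or.inr (Or.inl h)),
      hkk, hkl k1 hk1K c hcL, hkl k2 hk2K c hcL, hkl k1 hk1K a haL,
      hkl k1 hk1K b hbL, hkl k2 hk2K a haL, hkl k2 hk2K b hbL, hac.symm, hbc.symm, hab, akk,
      nk1c, nk2c⟩
    obtain ⟨X1, hX1⟩ := X_exists hG nice1 (hdep a haL nk1a nk2a)
    obtain ⟨X2, hX2⟩ := X_exists hG nice2 (hdep b hbL nk1b nk2b)
    obtain ⟨X3, hX3⟩ := X_exists hG nice3 (hdep c hcL nk1c nk2c)
    exact twelve_false hG nice1 nk1b nk2b nk1c nk2c (hLL a haL b hbL hab) (hLL a haL c hcL hac)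
      (hLL b hbL c hcL hbc) hX1 hX2 hX3

end Pool.Agent.V7H24.Rig
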