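import Pool.Agent.V7H24.Rig.Ext

set_option autoImplicit false
set_option linter.unusedSectionVars false

namespace Pool.Agent.V7H24.Rig

open Finset

variable {n : ℕ}

theorem one_ext' {H : SimpleGraph (Fin n)} {x a b : Fin n}
    (hN : (nb H x).card = 4) (ha : a ∈ nb H x) (hb : b ∈ nb H x) (hab : a ≠ b)
    (hnadj : ¬ H.Adj a b)
    (h : Indep (addE (del H x) a b)) : Indep H := by
  have h1 : (((nb H x).erase a).erase b).card = 2 := by
    rw [card_erase_of_mem (mem_erase.mpr ⟨hab.symm, hb⟩), card_erase_of_mem ha, hN]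
  obtain ⟨c, d, hcd, hcd'⟩ := card_eq_two.mp h1
  have hc : c ∈ ((nb H x).erase a).erase b := by rw [hcd']; simp
  have hd : d ∈ ((nb H x).erase a).erase b := by rw [hcd']; simp
  simp only [mem_erase] at hc hd
  refine one_ext (a := a) (b := b) (c := c) (d := d) ?_ hab hc.2.1.symm hd.2.1.symm hc.1.symm
    hd.1.symm hcd hnadj h
  rw [← hcd', insert_erase (mem_erase.mpr ⟨hab.symm, hb⟩), insert_erase ha]

/-- the class of graphs handled by the induction -/
structure Cls (H : SimpleGraph (Fin n)) (W : Finset (Fin n)) : Prop where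
  sp : Sparse H
  deg : ∀ y, y ∉ W → (nb H y).card ≤ 5
  cl : ∀ C : Finset (Fin n), C.Nonempty → Disjoint C W →
    (∀ c ∈ C, ∀ y, H.Adj c y → y ∈ C ∨ y ∈ W) → ∃ y ∈ C, (nb H y).card ≤ 4

theorem cls_del {H : SimpleGraph (Fin n)} {W : Finset (Fin n)} (h : Cls H W) (x : Fin n) :
    Cls (del H x) W := by
  refine ⟨h.sp.mono (del_le H x), fun y hy => ?_, fun C hC hCW hcl => ?_⟩
  · exact (card_le_card (nb_mono (del_le H x) y)).trans (h.deg y hy)
  · by_cases hx : x ∈ C
    · exact ⟨x, hx, by rw [nb_del_self]; simp⟩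
    · by_cases hcl' : ∀ c ∈ C, ∀ y, H.Adj c y → y ∈ C ∨ y ∈ W
      · obtain ⟨y, hy, hy'⟩ := h.cl C hC hCW hcl'
        exact ⟨y, hy, (card_le_card (nb_mono (del_le H x) y)).trans hy'⟩
      · push Not at hcl'
        obtain ⟨c, hc, y, hcy, hyC, hyW⟩ := hcl'
        have hcx : c ≠ x := fun h => hx (h ▸ hc)
        have hyx : y = x := by
          by_contra hyx
          rcases hcl c hc y ⟨hcy, hcx, hyx⟩ with h1 | h1
          · exact hyC h1
          · exact hyW h1
        subst hyx
        refine ⟨c, hc, ?_⟩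
        rw [nb_del hcx, card_erase_of_mem (mem_nb.mpr hcy)]
        have := h.deg c (disjoint_left.mp hCW hc)
        omega

theorem cls_add {H : SimpleGraph (Fin n)} {W : Finset (Fin n)} (h : Cls H W) {x a b : Fin n}
    (hW : W.card ≤ 1)
    (hN : (nb H x).card = 4) (ha : a ∈ nb H x) (hb : b ∈ nb H x) (hab : a ≠ b)
    (hcase : ∀ C : Finset (Fin n), Disjoint C W →
      (∀ c ∈ C, ∀ y, (del H x).Adj c y → y ∈ C ∨ y ∈ W) →
      (∃ c ∈ C, c ∈ nb H x) → ∀ c ∈ nb H x, c ∉ W → c ∈ C)
    (hsp : Sparse (addE (del H x) a b)) :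
    Cls (addE (del H x) a b) W := by
  have hax : a ≠ x := fun h => not_mem_nb_self (h ▸ ha)
  have hbx : b ≠ x := fun h => not_mem_nb_self (h ▸ hb)
  have hxa : x ∈ nb H a := nb_symm.mp ha
  have hxb : x ∈ nb H b := nb_symm.mp hb
  have hdle : ∀ y, (nb (addE (del H x) a b) y).card ≤ (nb H y).card := by
    intro y
    by_cases hya : y = a
    · subst hya
      rw [nb_addE_left hab, nb_del hax]
      refine (card_insert_le _ _).trans ?_
      rw [card_erase_of_mem hxa]
      have : 0 < (nb H y).card := card_pos.mpr ⟨x, hxa⟩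
      omega
    · by_cases hyb : y = b
      · subst hyb
        rw [nb_addE_right hab, nb_del hbx]
        refine (card_insert_le _ _).trans ?_
        rw [card_erase_of_mem hxb]
        have : 0 < (nb H y).card := card_pos.mpr ⟨x, hxb⟩
        omega
      · rw [nb_addE_of_ne hya hyb]
        exact card_le_card (nb_mono (del_le H x) y)
  refine ⟨hsp, fun y hy => (hdle y).trans (h.deg y hy), fun C hC hCW hcl => ?_⟩
  by_cases hx : x ∈ C
  · refine ⟨x, hx, ?_⟩
    rw [nb_addE_of_ne hax.symm hbx.symm, nb_del_self]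
    simp
  · by_cases hcl' : ∀ c ∈ C, ∀ y, H.Adj c y → y ∈ C ∨ y ∈ W
    · obtain ⟨y, hy, hy'⟩ := h.cl C hC hCW hcl'
      exact ⟨y, hy, (hdle y).trans hy'⟩
    · push Not at hcl'
      obtain ⟨c, hc, y, hcy, hyC, hyW⟩ := hcl'
      have hcx : c ≠ x := fun h => hx (h ▸ hc)
      have hcl0 : ∀ c ∈ C, ∀ y, (del H x).Adj c y → y ∈ C ∨ y ∈ W :=
        fun c hc y hcy => hcl c hc y (le_addE _ a b hcy)
      have hyx : y = x := by
        by_contra hyx
        rcases hcl0 c hc y ⟨hcy, hcx, hyx⟩ with h1 | h1
        · exact hyC h1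
        · exact hyW h1
      subst hyx
      have hall := hcase C hCW hcl0 ⟨c, hc, mem_nb.mpr hcy.symm⟩
      -- a neighbour outside `W ∪ {a,b}`
      have hex : ∃ d ∈ nb H y, d ∉ W ∧ d ≠ a ∧ d ≠ b := by
        by_contra hno
        push Not at hno
        have : nb H y ⊆ W ∪ {a, b} := by
          intro d hd
          by_cases hdW : d ∈ W
          · exact mem_union_left _ hdW
          · apply mem_union_right
            by_cases hda : d = a
            · simp [hda]
            · simp [hno d hd hdW hda]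
        have h2 := card_le_card this
        have h3 := card_union_le W {a, b}
        have h4 : ({a, b} : Finset (Fin n)).card ≤ 2 := card_le_two
        omega
      obtain ⟨d, hd, hdW, hda, hdb⟩ := hex
      refine ⟨d, hall d hd hdW, ?_⟩
      have hdy : d ≠ y := fun h => not_mem_nb_self (h ▸ hd)
      rw [nb_addE_of_ne hda hdb, nb_del hdy, card_erase_of_mem (nb_symm.mp hd)]
      have := h.deg d hdW
      omega

theorem exists_tight_of_blocked {D : SimpleGraph (Fin n)} (hD : Sparse D) {a b : Fin n}
    (hab : a ≠ b) (hnadj : ¬ D.Adj a b) (hb : ¬ Sparse (addE D a b)) :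
    ∃ X, Tight D X ∧ a ∈ X ∧ b ∈ X ∧ 5 ≤ X.card := by
  unfold Sparse at hb
  push Not at hb
  obtain ⟨X, hX, hg⟩ := hb
  rw [g_addE hab hnadj] at hg
  have h1 := hD X hX
  by_cases hm : a ∈ X ∧ b ∈ X
  · rw [if_pos hm] at hg
    obtain ⟨k, hk⟩ := g_even D X
    have : g D X = 12 := by omega
    have hT : Tight D X := ⟨hX, this⟩
    exact ⟨X, hT, hm.1, hm.2, hT.card_of_nonadj hm.1 hm.2 hab hnadj⟩
  · rw [if_neg hm] at hg
    omega

theorem tight_union {D : SimpleGraph (Fin n)} (hD : Sparse D) {X Y : Finset (Fin n)}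
    (hX : Tight D X) (hY : Tight D Y) (h : 3 ≤ (X ∩ Y).card) : Tight D (X ∪ Y) := by
  have h1 := g_submod D X Y
  have h2 := cr_nonneg D (X \ Y) (Y \ X)
  have h3 := hD (X ∩ Y) h
  have h5 : 3 ≤ (X ∪ Y).card := hX.1.trans (card_le_card subset_union_left)
  have h4 := hD (X ∪ Y) h5
  rw [hX.2, hY.2] at h1
  exact ⟨h5, by linarith⟩

theorem tight_inter {D : SimpleGraph (Fin n)} (hD : Sparse D) {X Y : Finset (Fin n)}
    (hX : Tight D X) (hY : Tight D Y) (h : 3 ≤ (X ∩ Y).card) : Tight D (X ∩ Y) := by
  have h1 := g_submod D X Y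
  have h2 := cr_nonneg D (X \ Y) (Y \ X)
  have h3 := hD (X ∩ Y) h
  have h5 : 3 ≤ (X ∪ Y).card := hX.1.trans (card_le_card subset_union_left)
  have h4 := hD (X ∪ Y) h5
  rw [hX.2, hY.2] at h1
  exact ⟨h, by linarith⟩

/-- two tight sets through a vertex of degree at most four have a tight union -/
theorem tight_union_deg4 {D : SimpleGraph (Fin n)} (hD : Sparse D) {X Y : Finset (Fin n)}
    (hX : Tight D X) (hY : Tight D Y) (hX4 : 4 ≤ X.card) (hY4 : 4 ≤ Y.card) {y : Fin n}
    (hyX : y ∈ X) (hyY : y ∈ Y) (hdeg : (nb D y).card ≤ 4) : Tight D (X ∪ Y) := by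
  apply tight_union hD hX hY
  have h1 := hX.deg hD hX4 hyX
  have h2 := hY.deg hD hY4 hyY
  have h3 : ((nb D y ∩ X) ∩ (nb D y ∩ Y)).card + ((nb D y ∩ X) ∪ (nb D y ∩ Y)).card
      = (nb D y ∩ X).card + (nb D y ∩ Y).card := by
    rw [add_comm]; exact card_union_add_card_inter _ _
  have h4 : ((nb D y ∩ X) ∪ (nb D y ∩ Y)).card ≤ (nb D y).card := by
    apply card_le_card
    exact union_subset inter_subset_left inter_subset_left
  have h5 : insert y ((nb D y ∩ X) ∩ (nb D y ∩ Y)) ⊆ X ∩ Y := by
    intro z hz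
    rw [mem_insert] at hz
    rcases hz with rfl | hz
    · exact mem_inter.mpr ⟨hyX, hyY⟩
    · simp only [mem_inter] at hz ⊢
      exact ⟨hz.1.2, hz.2.2⟩
  have h6 := card_le_card h5
  rw [card_insert_of_notMem] at h6
  · omega
  · simp only [mem_inter]
    intro h
    exact not_mem_nb_self h.1.1

theorem blocked_false {H : SimpleGraph (Fin n)} {W : Finset (Fin n)} (hs : Sparse H)
    (hdeg : ∀ y, y ∉ W → (nb H y).card ≤ 5) (hW : W.card ≤ 1) {x : Fin n}
    (hN : (nb H x).card = 4)
    (hbl : ∀ a ∈ nb H x, ∀ b ∈ nb H x, a ≠ b → ¬ H.Adj a b →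
      ¬ Sparse (addE (del H x) a b)) : False := by
  classical
  set D := del H x with hDdef
  have hD : Sparse D := hs.mono (del_le H x)
  have hNx : ∀ y ∈ nb H x, y ≠ x := fun y hy h => not_mem_nb_self (h ▸ hy)
  have hdegD : ∀ y ∈ nb H x, y ∉ W → (nb D y).card ≤ 4 := by
    intro y hy hyW
    rw [hDdef, nb_del (hNx y hy), card_erase_of_mem (nb_symm.mp hy)]
    have := hdeg y hyW
    omega
  have hWex : ∀ a b : Fin n, a ≠ b → a ∉ W ∨ b ∉ W := by
    intro a b hab
    by_contra h
    push Not at h
    exact hab (card_le_one.mp hW a h.1 b h.2)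
  have hDadj : ∀ a ∈ nb H x, ∀ b ∈ nb H x, D.Adj a b ↔ H.Adj a b := by
    intro a ha b hb
    rw [hDdef, del_adj]
    exact ⟨fun h => h.1, fun h => ⟨h, hNx a ha, hNx b hb⟩⟩
  have hblock : ∀ a ∈ nb H x, ∀ b ∈ nb H x, a ≠ b → ¬ H.Adj a b →
      ∃ X, Tight D X ∧ a ∈ X ∧ b ∈ X ∧ 5 ≤ X.card := by
    intro a ha b hb hab hadj
    exact exists_tight_of_blocked hD hab (fun h => hadj ((hDadj a ha b hb).mp h))
      (hbl a ha b hb hab hadj)
  let T : Finset (Finset (Fin n)) := univ.filter
    (fun X => Tight D X ∧ 4 ≤ X.card ∧ ∃ y ∈ X, y ∈ nb H x ∧ y ∉ W)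
  have hTmem : ∀ X, X ∈ T ↔ Tight D X ∧ 4 ≤ X.card ∧ ∃ y ∈ X, y ∈ nb H x ∧ y ∉ W := by
    intro X; simp [T]
  rcases T.eq_empty_or_nonempty with hT | hT
  · -- `N ∪ {x}` is complete
    have hcomp : ∀ a ∈ nb H x, ∀ b ∈ nb H x, a ≠ b → H.Adj a b := by
      intro a ha b hb hab
      by_contra hadj
      obtain ⟨X, hX, haX, hbX, h5⟩ := hblock a ha b hb hab hadj
      have : X ∈ T := by
        rw [hTmem]
        refine ⟨hX, by omega, ?_⟩
        rcases hWex a b hab with h | h
        · exact ⟨a, haX, ha, h⟩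
        · exact ⟨b, hbX, hb, h⟩
      rw [hT] at this
      simp at this
    have hcomp' : ∀ a ∈ insert x (nb H x), ∀ b ∈ insert x (nb H x), a ≠ b → H.Adj a b := by
      intro a ha b hb hab
      rw [mem_insert] at ha hb
      rcases ha with rfl | ha
      · rcases hb with rfl | hb
        · exact absurd rfl hab
        · exact mem_nb.mp hb
      · rcases hb with rfl | hb
        · exact (mem_nb.mp ha).symm
        · exact hcomp a ha b hb hab
    have h1 := cr_complete hcomp'
    have hc : (insert x (nb H x)).card = 5 := by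
      rw [card_insert_of_notMem not_mem_nb_self, hN]
    have h2 := hs (insert x (nb H x)) (by omega)
    unfold g at h2
    rw [h1, hc] at h2
    norm_num at h2
  · obtain ⟨X, hXT, hmax⟩ := exists_max_image T card hT
    obtain ⟨hX, hX4, y0, hy0X, hy0N, hy0W⟩ := (hTmem X).mp hXT
    have hxX : x ∉ X := by
      intro hx
      have := hX.deg hD hX4 hx
      rw [hDdef, nb_del_self] at this
      simp at this
    have hgX : g H X = 12 := by
      rw [← g_del_of_notMem hxX]; exact hX.2
    have hNX : ¬ nb H x ⊆ X := by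
      intro hsub
      have h1 := g_insert H hxX
      rw [hgX, inter_eq_left.mpr hsub, hN] at h1
      have h2 := hs (insert x X) (by rw [card_insert_of_notMem hxX]; omega)
      rw [h1] at h2
      norm_num at h2
    have hup : ∀ Z, Tight D Z → 4 ≤ Z.card → ∀ y ∈ Z, y ∈ X → y ∈ nb H x → y ∉ W → Z ⊆ X := by
      intro Z hZ hZ4 y hyZ hyX hyN hyW
      have h1 := tight_union_deg4 hD hX hZ hX4 hZ4 hyX hyZ (hdegD y hyN hyW)
      have h2 : X ∪ Z ∈ T := by
        rw [hTmem]
        exact ⟨h1, hX4.trans (card_le_card subset_union_left), y, mem_union_left _ hyX, hyN, hyW⟩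
      have h3 := hmax _ h2
      have h4 : X = X ∪ Z := eq_of_subset_of_card_le subset_union_left h3
      rw [h4]
      exact subset_union_right
    have hcl1 : ∀ y ∈ X, y ∈ nb H x → y ∉ W → ∀ z ∈ nb H x, z ∉ X → H.Adj y z := by
      intro y hyX hyN hyW z hzN hzX
      by_contra hadj
      have hyz : y ≠ z := fun h => hzX (h ▸ hyX)
      obtain ⟨Z, hZ, hyZ, hzZ, h5⟩ := hblock y hyN z hzN hyz hadj
      exact hzX (hup Z hZ (by omega) y hyZ hyX hyN hyW hzZ)
    have hone : (nb H x \ X).card ≤ 1 := by
      have h1 : (nb D y0 ∩ X) ∪ (nb H x \ X) ⊆ nb D y0 := by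
        apply union_subset inter_subset_left
        intro z hz
        rw [mem_sdiff] at hz
        rw [mem_nb, hDadj y0 hy0N z hz.1]
        exact hcl1 y0 hy0X hy0N hy0W z hz.1 hz.2
      have h2 := card_le_card h1
      rw [card_union_of_disjoint] at h2
      · have h3 := hX.deg hD hX4 hy0X
        have h4 := hdegD y0 hy0N hy0W
        omega
      · rw [disjoint_left]
        intro z hz hz'
        exact (mem_sdiff.mp hz').2 (mem_inter.mp hz).2
    obtain ⟨z, hzN, hzX⟩ := not_subset.mp hNX
    have hrest : ∀ y ∈ nb H x, y ≠ z → y ∈ X := by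
      intro y hy hyz
      by_contra hyX
      exact hyz (card_le_one.mp hone y (mem_sdiff.mpr ⟨hy, hyX⟩) z (mem_sdiff.mpr ⟨hzN, hzX⟩))
    have hNz : ((nb H x).erase z).card = 3 := by rw [card_erase_of_mem hzN, hN]
    by_cases hall : ∀ y ∈ nb H x, y ≠ z → H.Adj z y
    · -- `X ∪ {z}` is tight
      have h1 : (nb H x).erase z ⊆ nb D z ∩ X := by
        intro y hy
        rw [mem_erase] at hy
        rw [mem_inter, mem_nb, hDadj z hzN y hy.2]
        exact ⟨hall y hy.2 hy.1, hrest y hy.2 hy.1⟩
      have h2 := card_le_card h1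
      have h3 := g_insert D hzX
      have h4 := hD (insert z X) (by rw [card_insert_of_notMem hzX]; omega)
      rw [hX.2] at h3
      have h5 : insert z X ∈ T := by
        rw [hTmem]
        refine ⟨⟨by rw [card_insert_of_notMem hzX]; omega, by omega⟩,
          by rw [card_insert_of_notMem hzX]; omega, y0, mem_insert_of_mem hy0X, hy0N, hy0W⟩
      have h6 := hmax _ h5
      rw [card_insert_of_notMem hzX] at h6
      omega
    · push Not at hall
      obtain ⟨w, hwN, hwz, hwadj⟩ := hall
      have hwX := hrest w hwN hwz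
      have hwW : w ∈ W := by
        by_contra hwW
        exact hwadj (hcl1 w hwX hwN hwW z hzN hzX).symm
      have hzW : z ∉ W := by
        rcases hWex w z hwz with h | h
        · exact absurd hwW h
        · exact h
      obtain ⟨Z, hZ, hwZ, hzZ, h5⟩ := hblock w hwN z hzN hwz (fun h => hwadj h.symm)
      have h1 : (nb D z ∩ Z) ∪ (((nb H x).erase z).erase w) ⊆ nb D z := by
        apply union_subset inter_subset_left
        intro y hy
        rw [mem_erase, mem_erase] at hy
        obtain ⟨hyw, hyz, hyN⟩ := hy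
        have hyW : y ∉ W := by
          rcases hWex w y hyw.symm with h | h
          · exact absurd hwW h
          · exact h
        rw [mem_nb, hDadj z hzN y hyN]
        exact (hcl1 y (hrest y hyN hyz) hyN hyW z hzN hzX).symm
      have h2 := card_le_card h1
      rw [card_union_of_disjoint] at h2
      · have h3 := hZ.deg hD (by omega) hzZ
        have h4 := hdegD z hzN hzW
        have h6 : (((nb H x).erase z).erase w).card = 2 := by
          rw [card_erase_of_mem (mem_erase.mpr ⟨hwz, hwN⟩), hNz]
        omega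
      · rw [disjoint_left]
        intro y hy hy'
        rw [mem_erase, mem_erase] at hy'
        obtain ⟨hyw, hyz, hyN⟩ := hy'
        have hyW : y ∉ W := by
          rcases hWex w y hyw.symm with h | h
          · exact absurd hwW h
          · exact h
        exact hzX (hup Z hZ (by omega) y (mem_inter.mp hy).2 (hrest y hyN hyz) hyN hyW hzZ)

theorem indep_of_no_edge {H : SimpleGraph (Fin n)} (h : ∀ u v, ¬ H.Adj u v) : Indep H :=
  ⟨fun _ _ => 0, fun _ hω u v => hω.1.supp u v (h u v)⟩

theorem cr_addE_univ_le {H : SimpleGraph (Fin n)} {a b : Fin n} (hab : a ≠ b) :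
    cr (addE H a b) univ univ ≤ cr H univ univ + 2 := by
  by_cases hadj : H.Adj a b
  · have : addE H a b = H := by
      ext u v
      rw [addE_adj]
      constructor
      · rintro (h | ⟨_, ⟨rfl, rfl⟩ | ⟨rfl, rfl⟩⟩)
        · exact h
        · exact hadj
        · exact hadj.symm
      · exact fun h => Or.inl h
    rw [this]; omega
  · rw [cr_addE hab hadj]; simp

/-- Theorem T -/
theorem thmT (m : ℕ) : ∀ (H : SimpleGraph (Fin n)) (W : Finset (Fin n)),
    cr H univ univ ≤ m → W.card ≤ 1 → Cls H W → Indep H := by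
  classical
  induction m with
  | zero =>
    intro H W hm _ _
    apply indep_of_no_edge
    intro u v huv
    have h1 : (1 : ℤ) ≤ cr H univ univ := by
      unfold cr
      refine le_trans ?_ (single_le_sum (f := fun u => ((nb H u ∩ univ).card : ℤ))
        (fun _ _ => by positivity) (mem_univ u))
      have : 0 < (nb H u ∩ univ).card := card_pos.mpr ⟨v, by simp [mem_nb, huv]⟩
      exact_mod_cast this
    push_cast at hm
    omega
  | succ m ih =>
    intro H W hm hW hcls
    by_cases hE : ∀ u v, ¬ H.Adj u v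
    · exact indep_of_no_edge hE
    push Not at hE
    obtain ⟨u, v, huv⟩ := hE
    -- a vertex of degree between 1 and 4 outside W
    obtain ⟨x, hx, hx4⟩ := hcls.cl (univ.filter (fun v => v ∉ W ∧ (nb H v).Nonempty))
      (by
        by_cases hu : u ∈ W
        · refine ⟨v, ?_⟩
          simp only [mem_filter, mem_univ, true_and]
          exact ⟨fun hv => huv.ne (card_le_one.mp hW u hu v hv), u, mem_nb.mpr huv.symm⟩
        · refine ⟨u, ?_⟩
          simp only [mem_filter, mem_univ, true_and]
          exact ⟨hu, v, mem_nb.mpr huv⟩)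
      (by
        rw [disjoint_left]
        intro a ha
        simp only [mem_filter, mem_univ, true_and] at ha
        exact ha.1)
      (by
        intro c _ y hcy
        by_cases hy : y ∈ W
        · exact Or.inr hy
        · left
          simp only [mem_filter, mem_univ, true_and]
          exact ⟨hy, c, mem_nb.mpr hcy.symm⟩)
    simp only [mem_filter, mem_univ, true_and] at hx
    obtain ⟨hxW, hxne⟩ := hx
    have hx1 : 1 ≤ (nb H x).card := card_pos.mpr hxne
    have hcd := cr_del_univ (H := H) (x := x)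
    have hD : Indep (del H x) := ih (del H x) W (by push_cast at hm; omega) hW (cls_del hcls x)
    by_cases hx3 : (nb H x).card ≤ 3
    · exact zero_ext hx3 hD
    have hN : (nb H x).card = 4 := by omega
    by_cases hcase : ∀ C : Finset (Fin n), Disjoint C W →
      (∀ c ∈ C, ∀ y, (del H x).Adj c y → y ∈ C ∨ y ∈ W) →
      (∃ c ∈ C, c ∈ nb H x) → ∀ c ∈ nb H x, c ∉ W → c ∈ C
    · -- case 1
      by_contra hdep
      apply blocked_false hcls.sp hcls.deg hW hN
      intro a ha b hb hab hadj hsp
      apply hdep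
      apply one_ext' hN ha hb hab hadj
      apply ih _ W _ hW (cls_add hcls hW hN ha hb hab hcase hsp)
      have := cr_addE_univ_le (H := del H x) hab
      push_cast at hm
      omega
    · -- case 2
      push Not at hcase
      obtain ⟨C, hCW, hCcl, ⟨a, haC, haN⟩, c, hcN, hcW, hcC⟩ := hcase
      have haW : a ∉ W := disjoint_left.mp hCW haC
      have hac : a ≠ c := fun h => hcC (h ▸ haC)
      have hax : a ≠ x := fun h => not_mem_nb_self (h ▸ haN)
      have hcx : c ≠ x := fun h => not_mem_nb_self (h ▸ hcN)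
      have hadj : ¬ H.Adj a c := by
        intro hadj
        rcases hCcl a haC c ⟨hadj, hax, hcx⟩ with h | h
        · exact hcC h
        · exact hcW h
      apply one_ext' hN haN hcN hac hadj
      apply indep_of_gen
      intro p hp ω hω
      have hz : ω a c = 0 := by
        apply glue_bridge hp.1 (P := C ∪ W) (Q := univ \ C) (W := W) hω.1.symm hW
        · intro z hz
          simp only [mem_inter, mem_union, mem_sdiff, mem_univ, true_and] at hz
          tauto
        · exact mem_union_left _ haC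
        · simp [haC]
        · rw [mem_union]; tauto
        · exact haW
        · exact hcW
        · intro u v huv
          have hadj' : (addE (del H x) a c).Adj u v := by
            by_contra h
            exact huv (hω.1.supp u v h)
          rw [addE_adj] at hadj'
          rcases hadj' with h | h
          · by_cases hu : u ∈ C
            · left
              rw [mem_union, mem_union]
              exact ⟨Or.inl hu, hCcl u hu v h⟩
            · by_cases hv : v ∈ C
              · left
                rw [mem_union, mem_union]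
                exact ⟨hCcl v hv u h.symm, Or.inl hv⟩
              · right; left
                simp [hu, hv]
          · right; right; exact h.2
        · exact hω.2
      apply hp.2 _ hD
      refine ⟨⟨hω.1.symm, fun u v huv => ?_⟩, hω.2⟩
      by_cases h : (u = a ∧ v = c) ∨ (u = c ∧ v = a)
      · rcases h with ⟨rfl, rfl⟩ | ⟨rfl, rfl⟩
        · exact hz
        · rw [hω.1.symm]; exact hz
      · apply hω.1.supp
        rw [addE_adj]
        rintro (h' | h')
        · exact huv h'
        · exact h h'.2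

theorem indep_of_cls {H : SimpleGraph (Fin n)} {W : Finset (Fin n)} (hW : W.card ≤ 1)
    (h : Cls H W) : Indep H :=
  thmT (cr H univ univ).toNat H W (by rw [Int.toNat_of_nonneg (cr_nonneg _ _ _)]) hW h

end Pool.Agent.V7H24.Rig
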