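import Pool.Agent.V7H24.Rig.Vertex

set_option autoImplicit false
set_option linter.unusedSectionVars false

namespace Pool.Agent.V7H24.Rig

open Finset

variable {n : ℕ}

theorem cr_card (H : SimpleGraph (Fin n)) (A B : Finset (Fin n)) :
    cr H A B = (((A ×ˢ B).filter (fun z => z.2 ∈ nb H z.1)).card : ℤ) := by
  classical
  rw [cr_eq, card_filter, ← sum_product']
  push_cast
  rfl

theorem cr_ge (H : SimpleGraph (Fin n)) (A B : Finset (Fin n)) (P : Finset (Fin n × Fin n))
    (hP : ∀ z ∈ P, z.1 ∈ A ∧ z.2 ∈ B ∧ H.Adj z.1 z.2) : (P.card : ℤ) ≤ cr H A B := by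
  rw [cr_card]
  have : P ⊆ (A ×ˢ B).filter (fun z => z.2 ∈ nb H z.1) := by
    intro z hz
    obtain ⟨h1, h2, h3⟩ := hP z hz
    simp only [mem_filter, mem_product]
    exact ⟨⟨h1, h2⟩, mem_nb.mpr h3⟩
  exact_mod_cast card_le_card this

theorem circ_deg {G : SimpleGraph (Fin n)} (hG : Circ G) (v : Fin n) : (nb G v).card ≤ 5 := by
  rcases hG.reg v with h | h
  · rw [h]; simp
  · omega

structure Nice (G : SimpleGraph (Fin n)) (v k1 k2 j l l' : Fin n) : Prop where
  card : (nb G v).card = 5
  k1N : k1 ∈ nb G v
  k2N : k2 ∈ nb G v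
  jN : j ∈ nb G v
  lN : l ∈ nb G v
  l'N : l' ∈ nb G v
  all : ∀ z ∈ nb G v, z = k1 ∨ z = k2 ∨ z = j ∨ z = l ∨ z = l'
  n1 : k1 ≠ k2
  n2 : k1 ≠ j
  n3 : k2 ≠ j
  n4 : k1 ≠ l
  n5 : k1 ≠ l'
  n6 : k2 ≠ l
  n7 : k2 ≠ l'
  n8 : j ≠ l
  n9 : j ≠ l'
  n10 : l ≠ l'
  akk : G.Adj k1 k2
  nk1 : ¬ G.Adj k1 j
  nk2 : ¬ G.Adj k2 j

theorem X_exists {G : SimpleGraph (Fin n)} (hG : Circ G) {v k1 k2 j l l' : Fin n}
    (h : Nice G v k1 k2 j l l')
    (hdep : ¬ Indep (addE (addE (del G v) k1 j) k2 j)) :
    ∃ X : Finset (Fin n), k1 ∈ X ∧ k2 ∈ X ∧ j ∈ X ∧ l ∉ X ∧ l' ∉ X ∧ v ∉ X ∧ g G X = 14 := by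
  classical
  obtain ⟨hcard, hk1, hk2, hj, hl, hl', hall, n1, n2, n3, n4, n5, n6, n7, n8, n9, n10, akk,
    nk1, nk2⟩ := h
  have hvN : v ∉ nb G v := not_mem_nb_self
  have hk1v : k1 ≠ v := fun h => hvN (h ▸ hk1)
  have hk2v : k2 ≠ v := fun h => hvN (h ▸ hk2)
  have hjv : j ≠ v := fun h => hvN (h ▸ hj)
  have hlv : l ≠ v := fun h => hvN (h ▸ hl)
  have hl'v : l' ≠ v := fun h => hvN (h ▸ hl')
  have hvne : nb G v ≠ ∅ := by intro h; rw [h] at hcard; simp at hcard
  set D := del G v with hD
  set H := addE (addE D k1 j) k2 j with hH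
  have hdegD : ∀ y ∈ nb G v, (nb D y).card ≤ 4 := by
    intro y hy
    have hyv : y ≠ v := fun h => hvN (h ▸ hy)
    rw [hD, nb_del hyv, card_erase_of_mem (nb_symm.mp hy)]
    have := circ_deg hG y
    omega
  have hdegD' : ∀ y, (nb D y).card ≤ 5 := fun y =>
    (card_le_card (nb_mono (del_le G v) y)).trans (circ_deg hG y)
  have hnb : ∀ y, y ≠ k1 → y ≠ k2 → y ≠ j → nb H y = nb D y := by
    intro y h1 h2 h3
    rw [hH, nb_addE_of_ne h2 h3, nb_addE_of_ne h1 h3]
  have hnbk1 : nb H k1 = insert j (nb D k1) := by
    rw [hH, nb_addE_of_ne n1 n2, nb_addE_left n2]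
  have hnbk2 : nb H k2 = insert j (nb D k2) := by
    rw [hH, nb_addE_left n3, nb_addE_of_ne n1.symm n3]
  have hns : ¬ Sparse H := by
    intro hsp
    apply hdep
    apply indep_of_cls (W := {j}) (by simp)
    refine ⟨hsp, fun y hy => ?_, fun C hC hCj hcl => ?_⟩
    · rw [mem_singleton] at hy
      by_cases h1 : y = k1
      · rw [h1, hnbk1]
        refine (card_insert_le _ _).trans ?_
        have := hdegD k1 hk1
        omega
      · by_cases h2 : y = k2
        · rw [h2, hnbk2]
          refine (card_insert_le _ _).trans ?_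
          have := hdegD k2 hk2
          omega
        · rw [hnb y h1 h2 hy]; exact hdegD' y
    · by_contra hno
      push Not at hno
      have hjC : j ∉ C := by rw [disjoint_singleton_right] at hCj; exact hCj
      have hvC : v ∉ C := by
        intro h
        have := hno v h
        rw [hnb v hk1v.symm hk2v.symm hjv.symm, hD, nb_del_self] at this
        simp at this
      have hlC : l ∉ C := by
        intro h
        have h1 := hno l h
        rw [hnb l n4.symm n6.symm n8.symm] at h1
        have := hdegD l hl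
        omega
      have hl'C : l' ∉ C := by
        intro h
        have h1 := hno l' h
        rw [hnb l' n5.symm n7.symm n9.symm] at h1
        have := hdegD l' hl'
        omega
      have hclD : ∀ c ∈ C, ∀ y, D.Adj c y → y ∈ C ∨ y = j := by
        intro c hc y hcy
        have := hcl c hc y (le_addE _ _ _ (le_addE _ _ _ hcy))
        rwa [mem_singleton] at this
      have hclG : ∀ c ∈ C, ∀ y, G.Adj c y → y ∈ C ∨ y = j ∨ y = v := by
        intro c hc y hcy
        by_cases hy : y = v
        · exact Or.inr (Or.inr hy)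
        · rcases hclD c hc y ⟨hcy, fun h => hvC (h ▸ hc), hy⟩ with h | h
          · exact Or.inl h
          · exact Or.inr (Or.inl h)
      have akkD : D.Adj k1 k2 := ⟨akk, hk1v, hk2v⟩
      by_cases hk : k1 ∈ C ∨ k2 ∈ C
      · have hk1C : k1 ∈ C := by
          rcases hk with h | h
          · exact h
          · rcases hclD k2 h k1 akkD.symm with h' | h'
            · exact h'
            · exact absurd h' n2
        refine circ_twocut hG (P := insert v (insert j C)) (Q := univ \ C) (a := v) (b := j)
          (mem_nb.mp hj) (by simp) (by simp) (by simp [hvC]) (by simp [hjC]) ?_ ?_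
          (u1 := k1) (v1 := v) (mem_nb.mp hk1).symm (by simp [hk1C])
          (u2 := l) (v2 := v) (mem_nb.mp hl).symm (by simp [hlC, hlv, n8.symm])
        · intro z hz hz'
          simp only [mem_insert, mem_sdiff, mem_univ, true_and] at hz hz'
          tauto
        · intro a b hab
          by_cases ha : a ∈ C
          · left
            have := hclG a ha b hab
            simp only [mem_insert]
            tauto
          · by_cases hb : b ∈ C
            · left
              have := hclG b hb a hab.symm
              simp only [mem_insert]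
              tauto
            · right
              simp [ha, hb]
      · push Not at hk
        obtain ⟨hk1C, hk2C⟩ := hk
        have hvadj : ∀ c ∈ C, ¬ G.Adj c v := by
          intro c hc hcv
          rcases hall c (mem_nb.mpr hcv.symm) with h | h | h | h | h
          · exact hk1C (h ▸ hc)
          · exact hk2C (h ▸ hc)
          · exact hjC (h ▸ hc)
          · exact hlC (h ▸ hc)
          · exact hl'C (h ▸ hc)
        obtain ⟨c, hc⟩ := hC
        have hcne : (nb G c).Nonempty := by
          apply card_pos.mp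
          have h1 := hno c hc
          rw [hnb c (fun h => hk1C (h ▸ hc)) (fun h => hk2C (h ▸ hc)) (fun h => hjC (h ▸ hc))]
            at h1
          have h2 := card_le_card (nb_mono (del_le G v) c)
          rw [← hD] at h2
          omega
        obtain ⟨c', hc'⟩ := hcne
        rw [mem_nb] at hc'
        refine circ_sep hG (P := insert j C) (Q := univ \ C) (W := {j}) (by simp) ?_ ?_
          hc' (by simp [hc]) (mem_nb.mp hl) (by simp [hvC, hjv.symm])
        · intro z hz
          simp only [mem_inter, mem_insert, mem_sdiff, mem_univ, true_and] at hz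
          rw [mem_singleton]; tauto
        · intro a b hab
          by_cases ha : a ∈ C
          · left
            have h1 := hclG a ha b hab
            have h2 : b ≠ v := fun h => hvadj a ha (h ▸ hab)
            simp only [mem_insert]
            tauto
          · by_cases hb : b ∈ C
            · left
              have h1 := hclG b hb a hab.symm
              have h2 : a ≠ v := fun h => hvadj b hb (h ▸ hab.symm)
              simp only [mem_insert]
              tauto
            · right
              simp [ha, hb]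
  unfold Sparse at hns
  push Not at hns
  obtain ⟨X, hX3, hgX⟩ := hns
  have hDs : Sparse D := hG.sp.mono (del_le G v)
  have hna1 : ¬ D.Adj k1 j := fun h => nk1 h.1
  have hna2 : ¬ (addE D k1 j).Adj k2 j := by
    rw [addE_adj]
    rintro (h | ⟨_, h | h⟩)
    · exact nk2 h.1
    · exact n1 h.1.symm
    · exact n3 h.1
  rw [hH, g_addE n3 hna2, g_addE n2 hna1] at hgX
  have hDX := hDs X hX3
  obtain ⟨k, hk⟩ := g_even D X
  -- tight sets of `G - v` through `j` and one of the `k`s are impossible
  have hvX_of_tight : Tight D X → 4 ≤ X.card → v ∉ X := by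
    intro hT h4 hv
    have := hT.deg hDs h4 hv
    rw [hD, nb_del_self] at this
    simp at this
  have hno_tight : ∀ w, w ∈ X → j ∈ X → w ≠ j → ¬ G.Adj w j → v ∉ X → ¬ Tight G X := by
    intro w hw hj hwj hnadj hvX hT
    have h5 := hT.card_of_nonadj hw hj hwj hnadj
    exact hvX (lemB hG hT h5 v hvne)
  have hone : ∀ w, w ∈ X → j ∈ X → w ≠ j → ¬ G.Adj w j → g D X ≠ 12 := by
    intro w hw hj hwj hnadj h12
    have hT : Tight D X := ⟨hX3, h12⟩
    have h5 := hT.card_of_nonadj hw hj hwj (fun h => hnadj h.1)
    have hvX := hvX_of_tight hT (by omega)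
    apply hno_tight w hw hj hwj hnadj hvX
    exact ⟨hX3, by rw [← g_del_of_notMem hvX]; exact h12⟩
  have hjX : j ∈ X := by
    by_contra hj
    rw [if_neg (fun h => hj h.2), if_neg (fun h => hj h.2)] at hgX
    omega
  have hk1X : k1 ∈ X := by
    by_contra hk1X
    rw [if_neg (fun h => hk1X h.1)] at hgX
    by_cases hk2X : k2 ∈ X
    · rw [if_pos ⟨hk2X, hjX⟩] at hgX
      exact hone k2 hk2X hjX n3 nk2 (by omega)
    · rw [if_neg (fun h => hk2X h.1)] at hgX
      omega
  have hk2X : k2 ∈ X := by
    by_contra hk2X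
    rw [if_neg (fun h : k2 ∈ X ∧ j ∈ X => hk2X h.1), if_pos ⟨hk1X, hjX⟩] at hgX
    exact hone k1 hk1X hjX n2 nk1 (by omega)
  rw [if_pos ⟨hk1X, hjX⟩, if_pos ⟨hk2X, hjX⟩] at hgX
  have hsub3 : ({k1, k2, j} : Finset (Fin n)) ⊆ X := by
    intro z hz
    simp only [mem_insert, mem_singleton] at hz
    rcases hz with rfl | rfl | rfl
    · exact hk1X
    · exact hk2X
    · exact hjX
  have hc3 : ({k1, k2, j} : Finset (Fin n)).card = 3 := by
    rw [card_insert_of_notMem (by simp [n1, n2]), card_pair n3]
  have hvX : v ∉ X := by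
    intro hv
    have h1 := g_erase D hv
    rw [hD, nb_del_self] at h1
    simp only [empty_inter, card_empty] at h1
    have h2 := hDs (X.erase v) (by
      rw [← hc3]
      apply card_le_card
      intro z hz
      rw [mem_erase]
      refine ⟨?_, hsub3 hz⟩
      simp only [mem_insert, mem_singleton] at hz
      rcases hz with rfl | rfl | rfl
      · exact hk1v
      · exact hk2v
      · exact hjv)
    rw [← hD] at h1
    push_cast at h1
    omega
  have hgG : g G X = g D X := (g_del_of_notMem hvX).symm
  have h14 : g G X = 14 := by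
    have h12 : g G X ≠ 12 := fun h =>
      hno_tight k1 hk1X hjX n2 nk1 hvX ⟨hX3, h⟩
    omega
  have hX5 : 3 ≤ X.card := hX3
  -- the other neighbours are outside
  have hother : ∀ z ∈ nb G v, z ≠ k1 → z ≠ k2 → z ≠ j → z ∉ X := by
    intro z hz z1 z2 z3 hzX
    have hsub4 : insert z ({k1, k2, j} : Finset (Fin n)) ⊆ nb G v ∩ X := by
      intro y hy
      simp only [mem_insert, mem_singleton] at hy
      rcases hy with rfl | rfl | rfl | rfl
      · exact mem_inter.mpr ⟨hz, hzX⟩
      · exact mem_inter.mpr ⟨hk1, hk1X⟩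
      · exact mem_inter.mpr ⟨hk2, hk2X⟩
      · exact mem_inter.mpr ⟨hj, hjX⟩
    have hc4 := card_le_card hsub4
    rw [card_insert_of_notMem (by simp [z1, z2, z3]), hc3] at hc4
    have h1 := g_insert G hvX
    rw [h14] at h1
    have h2 := hG.sp (insert v X) (by rw [card_insert_of_notMem hvX]; omega)
    have hT : Tight G (insert v X) := ⟨by rw [card_insert_of_notMem hvX]; omega, by omega⟩
    have hc5 : 5 ≤ (insert v X).card := by
      rw [card_insert_of_notMem hvX]
      have := card_le_card (inter_subset_right (s₁ := nb G v) (s₂ := X))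
      omega
    have hsubN : nb G v ⊆ X := by
      intro y hy
      have hyne : nb G y ≠ ∅ := by
        intro h
        have : v ∈ nb G y := nb_symm.mp hy
        rw [h] at this
        simp at this
      have := lemB hG hT hc5 y hyne
      rw [mem_insert] at this
      rcases this with h | h
      · exact absurd (h ▸ hy) hvN
      · exact h
    rw [inter_eq_left.mpr hsubN, hcard] at h1
    push_cast at h1
    omega
  exact ⟨X, hk1X, hk2X, hjX, hother l hl n4.symm n6.symm n8.symm,
    hother l' hl' n5.symm n7.symm n9.symm, hvX, h14⟩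

end Pool.Agent.V7H24.Rig
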