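import Pool.Agent.V7H24.Rig.Twelve

set_option autoImplicit false
set_option linter.unusedSectionVars false

namespace Pool.Agent.V7H24.Rig

open Finset

variable {n : ℕ}

theorem g_pair {G : SimpleGraph (Fin n)} {k1 k2 : Fin n} (h : G.Adj k1 k2) :
    g G {k1, k2} = 10 := by
  have h1 := cr_complete (H := G) (X := {k1, k2}) (by
    intro a ha b hb hab
    simp only [mem_insert, mem_singleton] at ha hb
    rcases ha with rfl | rfl <;> rcases hb with rfl | rfl
    · exact absurd rfl hab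
    · exact h
    · exact h.symm
    · exact absurd rfl hab)
  unfold g
  rw [h1, card_pair h.ne]
  norm_num

theorem g_ge_ten {G : SimpleGraph (Fin n)} (hs : Sparse G) {k1 k2 : Fin n} (h : G.Adj k1 k2)
    {Y : Finset (Fin n)} (h1 : k1 ∈ Y) (h2 : k2 ∈ Y) :
    10 ≤ g G Y ∧ (g G Y = 10 → Y = {k1, k2}) := by
  have hsub : ({k1, k2} : Finset (Fin n)) ⊆ Y := by
    intro z hz
    simp only [mem_insert, mem_singleton] at hz
    rcases hz with rfl | rfl
    · exact h1
    · exact h2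
  by_cases hc : 3 ≤ Y.card
  · have := hs Y hc
    exact ⟨by omega, fun h => by omega⟩
  · have : ({k1, k2} : Finset (Fin n)) = Y := by
      apply eq_of_subset_of_card_le hsub
      rw [card_pair h.ne]; omega
    rw [← this, g_pair h]
    exact ⟨le_refl _, fun _ => rfl⟩

theorem size_six {G : SimpleGraph (Fin n)} {k1 k2 a : Fin n} {X : Finset (Fin n)}
    (hk1 : k1 ∈ X) (hk2 : k2 ∈ X) (ha : a ∈ X) (n2 : k1 ≠ a) (n3 : k2 ≠ a)
    (akk : G.Adj k1 k2) (nk1 : ¬ G.Adj k1 a) (nk2 : ¬ G.Adj k2 a) (hg : g G X = 14)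
    (hcl : ∀ y ∈ X, y ≠ k1 → y ≠ k2 → y ≠ a → nb G y ⊆ X ∧ (nb G y).card = 5) : 6 ≤ X.card := by
  by_cases hex : ∃ y ∈ X, y ≠ k1 ∧ y ≠ k2 ∧ y ≠ a
  · obtain ⟨y, hy, y1, y2, y3⟩ := hex
    obtain ⟨h1, h2⟩ := hcl y hy y1 y2 y3
    have h3 : insert y (nb G y) ⊆ X := insert_subset hy h1
    have h4 := card_le_card h3
    rw [card_insert_of_notMem not_mem_nb_self, h2] at h4
    exact h4
  · exfalso
    push Not at hex
    have hX : X = insert a {k1, k2} := by
      ext z
      simp only [mem_insert, mem_singleton]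
      constructor
      · intro hz
        by_cases z1 : z = k1
        · exact Or.inr (Or.inl z1)
        · by_cases z2 : z = k2
          · exact Or.inr (Or.inr z2)
          · exact Or.inl (hex z hz z1 z2)
      · rintro (rfl | rfl | rfl)
        · exact ha
        · exact hk1
        · exact hk2
    have h1 := g_insert G (x := a) (X := {k1, k2}) (by simp [n2.symm, n3.symm])
    rw [← hX, hg, g_pair akk] at h1
    have h2 : nb G a ∩ {k1, k2} = ∅ := by
      ext z
      simp only [mem_inter, mem_insert, mem_singleton, notMem_empty, iff_false, mem_nb]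
      rintro ⟨h, rfl | rfl⟩
      · exact nk1 h.symm
      · exact nk2 h.symm
    rw [h2, card_empty] at h1
    norm_num at h1

theorem twelve_false {G : SimpleGraph (Fin n)} (hG : Circ G) {v k1 k2 a b c : Fin n}
    (h : Nice G v k1 k2 a b c)
    (nk1b : ¬ G.Adj k1 b) (nk2b : ¬ G.Adj k2 b) (nk1c : ¬ G.Adj k1 c) (nk2c : ¬ G.Adj k2 c)
    (hab : G.Adj a b) (hac : G.Adj a c) (hbc : G.Adj b c)
    {X1 X2 X3 : Finset (Fin n)}
    (h1 : k1 ∈ X1 ∧ k2 ∈ X1 ∧ a ∈ X1 ∧ b ∉ X1 ∧ c ∉ X1 ∧ v ∉ X1 ∧ g G X1 = 14)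
    (h2 : k1 ∈ X2 ∧ k2 ∈ X2 ∧ b ∈ X2 ∧ a ∉ X2 ∧ c ∉ X2 ∧ v ∉ X2 ∧ g G X2 = 14)
    (h3 : k1 ∈ X3 ∧ k2 ∈ X3 ∧ c ∈ X3 ∧ a ∉ X3 ∧ b ∉ X3 ∧ v ∉ X3 ∧ g G X3 = 14) : False := by
  classical
  obtain ⟨hcard, hk1, hk2, ha, hb, hc, hall, n1, n2, n3, n4, n5, n6, n7, n8, n9, n10, akk,
    nk1, nk2⟩ := h
  obtain ⟨p11, p12, p13, p14, p15, p16, p17⟩ := h1
  obtain ⟨p21, p22, p23, p24, p25, p26, p27⟩ := h2
  obtain ⟨p31, p32, p33, p34, p35, p36, p37⟩ := h3
  have hvN : v ∉ nb G v := not_mem_nb_self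
  have q1 := g_ge_ten hG.sp akk (mem_inter.mpr ⟨p11, p21⟩) (mem_inter.mpr ⟨p12, p22⟩)
  have q2 := g_submod G X1 X2
  have q3 : 1 ≤ cr G (X1 \ X2) (X2 \ X1) := by
    have := cr_ge G (X1 \ X2) (X2 \ X1) {(a, b)} (by
      intro z hz
      rw [mem_singleton] at hz
      subst hz
      exact ⟨mem_sdiff.mpr ⟨p13, p24⟩, mem_sdiff.mpr ⟨p23, p14⟩, hab⟩)
    simpa using this
  have q4 := g_ge_ten hG.sp akk (Y := (X1 ∪ X2) ∩ X3)
    (mem_inter.mpr ⟨mem_union_left _ p11, p31⟩) (mem_inter.mpr ⟨mem_union_left _ p12, p32⟩)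
  have q5 := g_submod G (X1 ∪ X2) X3
  have hcU : c ∉ X1 ∪ X2 := by rw [mem_union]; exact fun h => h.elim p15 p25
  have q6 : 2 ≤ cr G ((X1 ∪ X2) \ X3) (X3 \ (X1 ∪ X2)) := by
    have := cr_ge G ((X1 ∪ X2) \ X3) (X3 \ (X1 ∪ X2)) {(a, c), (b, c)} (by
      intro z hz
      simp only [mem_insert, mem_singleton] at hz
      rcases hz with rfl | rfl
      · exact ⟨mem_sdiff.mpr ⟨mem_union_left _ p13, p34⟩, mem_sdiff.mpr ⟨p33, hcU⟩, hac⟩
      · exact ⟨mem_sdiff.mpr ⟨mem_union_right _ p23, p35⟩, mem_sdiff.mpr ⟨p33, hcU⟩, hbc⟩)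
    rw [card_pair (by simp [n8])] at this
    simpa using this
  set U := X1 ∪ X2 ∪ X3 with hU
  have hvU : v ∉ U := by
    rw [hU, mem_union, mem_union]
    rintro ((h | h) | h)
    · exact p16 h
    · exact p26 h
    · exact p36 h
  have hNU : nb G v ⊆ U := by
    intro z hz
    rw [hU, mem_union, mem_union]
    rcases hall z hz with rfl | rfl | rfl | rfl | rfl
    · exact Or.inl (Or.inl p11)
    · exact Or.inl (Or.inl p12)
    · exact Or.inl (Or.inl p13)
    · exact Or.inl (Or.inr p23)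
    · exact Or.inr p33
  have q7 := g_insert G hvU
  rw [inter_eq_left.mpr hNU, hcard] at q7
  have hU5 : 5 ≤ U.card := by rw [← hcard]; exact card_le_card hNU
  have hcvU : (insert v U).card = U.card + 1 := card_insert_of_notMem hvU
  have q8 := hG.sp (insert v U) (by omega)
  push_cast at q7
  have e1 : g G (X1 ∩ X2) = 10 := by omega
  have e2 : cr G (X1 \ X2) (X2 \ X1) = 1 := by omega
  have e3 : g G ((X1 ∪ X2) ∩ X3) = 10 := by omega
  have e4 : cr G ((X1 ∪ X2) \ X3) (X3 \ (X1 ∪ X2)) = 2 := by omega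
  have e5 : g G (insert v U) = 12 := by omega
  have hT : Tight G (insert v U) := ⟨by omega, e5⟩
  have i12 := q1.2 e1
  have i3 := q4.2 e3
  have hlemB := lemB hG hT (by omega)
  have hne_of_adj : ∀ y z, z ∈ nb G y → z ∈ insert v U := by
    intro y z hz
    apply hlemB
    intro h0
    have : y ∈ nb G z := nb_symm.mp hz
    rw [h0] at this
    simp at this
  have hdeg5 : ∀ y ∈ insert v U, (nb G y).card = 5 := by
    intro y hy
    have := hT.deg hG.sp (by omega) hy
    rcases hG.reg y with h | h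
    · rw [h] at this; simp at this
    · exact h
  have hcr : cr G (insert v U) (insert v U) = 5 * (insert v U).card := by
    unfold cr
    rw [sum_congr rfl (g := fun _ => (5 : ℤ))]
    · rw [sum_const]; simp; ring
    · intro y hy
      rw [inter_eq_left.mpr (fun z hz => hne_of_adj y z hz), hdeg5 y hy]
      rfl
  have hcard12 : (insert v U).card = 12 := by
    unfold g at e5
    rw [hcr] at e5
    omega
  -- vertices of the three pieces have their neighbourhoods inside
  have hN3 : ∀ y, y ∈ nb G v → y = k1 ∨ y = k2 ∨ y = a ∨ y = b ∨ y = c := hall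
  have hcl1 : ∀ y ∈ X1, y ≠ k1 → y ≠ k2 → y ≠ a → nb G y ⊆ X1 ∧ (nb G y).card = 5 := by
    intro y hy y1 y2 y3
    have hyU : y ∈ insert v U := by
      rw [hU]; simp [hy]
    refine ⟨fun z hz => ?_, hdeg5 y hyU⟩
    by_contra hzX
    have hadj : G.Adj y z := mem_nb.mp hz
    have hz2 := hne_of_adj y z hz
    have hyb : y ≠ b := fun h => p14 (h ▸ hy)
    have hyc : y ≠ c := fun h => p15 (h ▸ hy)
    have hzv : z ≠ v := by
      rintro rfl
      rcases hall y (mem_nb.mpr hadj.symm) with h | h | h | h | h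
      · exact y1 h
      · exact y2 h
      · exact y3 h
      · exact hyb h
      · exact hyc h
    have hyX2 : y ∉ X2 := by
      intro h
      have : y ∈ X1 ∩ X2 := mem_inter.mpr ⟨hy, h⟩
      rw [i12] at this
      simp only [mem_insert, mem_singleton] at this
      exact this.elim y1 y2
    have hyX3 : y ∉ X3 := by
      intro h
      have : y ∈ (X1 ∪ X2) ∩ X3 := mem_inter.mpr ⟨mem_union_left _ hy, h⟩
      rw [i3] at this
      simp only [mem_insert, mem_singleton] at this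
      exact this.elim y1 y2
    by_cases hzX2 : z ∈ X2
    · have := cr_ge G (X1 \ X2) (X2 \ X1) {(a, b), (y, z)} (by
        intro w hw
        simp only [mem_insert, mem_singleton] at hw
        rcases hw with rfl | rfl
        · exact ⟨mem_sdiff.mpr ⟨p13, p24⟩, mem_sdiff.mpr ⟨p23, p14⟩, hab⟩
        · exact ⟨mem_sdiff.mpr ⟨hy, hyX2⟩, mem_sdiff.mpr ⟨hzX2, hzX⟩, hadj⟩)
      rw [card_pair (by simp [y3.symm]), e2] at this
      norm_num at this
    · have hzX3 : z ∈ X3 := by
        rw [hU] at hz2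
        simp only [mem_insert, mem_union] at hz2
        rcases hz2 with h | (h | h) | h
        · exact absurd h hzv
        · exact absurd h hzX
        · exact absurd h hzX2
        · exact h
      have hzU : z ∉ X1 ∪ X2 := by rw [mem_union]; exact fun h => h.elim hzX hzX2
      have := cr_ge G ((X1 ∪ X2) \ X3) (X3 \ (X1 ∪ X2)) {(a, c), (b, c), (y, z)} (by
        intro w hw
        simp only [mem_insert, mem_singleton] at hw
        rcases hw with rfl | rfl | rfl
        · exact ⟨mem_sdiff.mpr ⟨mem_union_left _ p13, p34⟩, mem_sdiff.mpr ⟨p33, hcU⟩, hac⟩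
        · exact ⟨mem_sdiff.mpr ⟨mem_union_right _ p23, p35⟩, mem_sdiff.mpr ⟨p33, hcU⟩, hbc⟩
        · exact ⟨mem_sdiff.mpr ⟨mem_union_left _ hy, hyX3⟩, mem_sdiff.mpr ⟨hzX3, hzU⟩, hadj⟩)
      rw [card_insert_of_notMem (by simp [n8, y3.symm]), card_pair (by simp [hyb.symm]), e4]
        at this
      norm_num at this
  have hcl2 : ∀ y ∈ X2, y ≠ k1 → y ≠ k2 → y ≠ b → nb G y ⊆ X2 ∧ (nb G y).card = 5 := by
    intro y hy y1 y2 y3
    have hyU : y ∈ insert v U := by
      rw [hU]; simp [hy]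
    refine ⟨fun z hz => ?_, hdeg5 y hyU⟩
    by_contra hzX
    have hadj : G.Adj y z := mem_nb.mp hz
    have hz2 := hne_of_adj y z hz
    have hya : y ≠ a := fun h => p24 (h ▸ hy)
    have hyc : y ≠ c := fun h => p25 (h ▸ hy)
    have hzv : z ≠ v := by
      rintro rfl
      rcases hall y (mem_nb.mpr hadj.symm) with h | h | h | h | h
      · exact y1 h
      · exact y2 h
      · exact hya h
      · exact y3 h
      · exact hyc h
    have hyX1 : y ∉ X1 := by
      intro h
      have : y ∈ X1 ∩ X2 := mem_inter.mpr ⟨h, hy⟩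
      rw [i12] at this
      simp only [mem_insert, mem_singleton] at this
      exact this.elim y1 y2
    have hyX3 : y ∉ X3 := by
      intro h
      have : y ∈ (X1 ∪ X2) ∩ X3 := mem_inter.mpr ⟨mem_union_right _ hy, h⟩
      rw [i3] at this
      simp only [mem_insert, mem_singleton] at this
      exact this.elim y1 y2
    by_cases hzX1 : z ∈ X1
    · have := cr_ge G (X1 \ X2) (X2 \ X1) {(a, b), (z, y)} (by
        intro w hw
        simp only [mem_insert, mem_singleton] at hw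
        rcases hw with rfl | rfl
        · exact ⟨mem_sdiff.mpr ⟨p13, p24⟩, mem_sdiff.mpr ⟨p23, p14⟩, hab⟩
        · exact ⟨mem_sdiff.mpr ⟨hzX1, hzX⟩, mem_sdiff.mpr ⟨hy, hyX1⟩, hadj.symm⟩)
      rw [card_pair (by simp [y3.symm]), e2] at this
      norm_num at this
    · have hzX3 : z ∈ X3 := by
        rw [hU] at hz2
        simp only [mem_insert, mem_union] at hz2
        rcases hz2 with h | (h | h) | h
        · exact absurd h hzv
        · exact absurd h hzX1
        · exact absurd h hzX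
        · exact h
      have hzU : z ∉ X1 ∪ X2 := by rw [mem_union]; exact fun h => h.elim hzX1 hzX
      have := cr_ge G ((X1 ∪ X2) \ X3) (X3 \ (X1 ∪ X2)) {(a, c), (b, c), (y, z)} (by
        intro w hw
        simp only [mem_insert, mem_singleton] at hw
        rcases hw with rfl | rfl | rfl
        · exact ⟨mem_sdiff.mpr ⟨mem_union_left _ p13, p34⟩, mem_sdiff.mpr ⟨p33, hcU⟩, hac⟩
        · exact ⟨mem_sdiff.mpr ⟨mem_union_right _ p23, p35⟩, mem_sdiff.mpr ⟨p33, hcU⟩, hbc⟩
        · exact ⟨mem_sdiff.mpr ⟨mem_union_right _ hy, hyX3⟩, mem_sdiff.mpr ⟨hzX3, hzU⟩, hadj⟩)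
      rw [card_insert_of_notMem (by simp [n8, hya.symm]), card_pair (by simp [y3.symm]), e4]
        at this
      norm_num at this
  have hcl3 : ∀ y ∈ X3, y ≠ k1 → y ≠ k2 → y ≠ c → nb G y ⊆ X3 ∧ (nb G y).card = 5 := by
    intro y hy y1 y2 y3
    have hyU : y ∈ insert v U := by
      rw [hU]; simp [hy]
    refine ⟨fun z hz => ?_, hdeg5 y hyU⟩
    by_contra hzX
    have hadj : G.Adj y z := mem_nb.mp hz
    have hz2 := hne_of_adj y z hz
    have hya : y ≠ a := fun h => p34 (h ▸ hy)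
    have hyb : y ≠ b := fun h => p35 (h ▸ hy)
    have hzv : z ≠ v := by
      rintro rfl
      rcases hall y (mem_nb.mpr hadj.symm) with h | h | h | h | h
      · exact y1 h
      · exact y2 h
      · exact hya h
      · exact hyb h
      · exact y3 h
    have hyX12 : y ∉ X1 ∪ X2 := by
      intro h
      have : y ∈ (X1 ∪ X2) ∩ X3 := mem_inter.mpr ⟨h, hy⟩
      rw [i3] at this
      simp only [mem_insert, mem_singleton] at this
      exact this.elim y1 y2
    have hzX12 : z ∈ X1 ∪ X2 := by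
      rw [hU] at hz2
      simp only [mem_insert, mem_union] at hz2 ⊢
      rcases hz2 with h | h | h
      · exact absurd h hzv
      · exact h
      · exact absurd h hzX
    have := cr_ge G ((X1 ∪ X2) \ X3) (X3 \ (X1 ∪ X2)) {(a, c), (b, c), (z, y)} (by
      intro w hw
      simp only [mem_insert, mem_singleton] at hw
      rcases hw with rfl | rfl | rfl
      · exact ⟨mem_sdiff.mpr ⟨mem_union_left _ p13, p34⟩, mem_sdiff.mpr ⟨p33, hcU⟩, hac⟩
      · exact ⟨mem_sdiff.mpr ⟨mem_union_right _ p23, p35⟩, mem_sdiff.mpr ⟨p33, hcU⟩, hbc⟩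
      · exact ⟨mem_sdiff.mpr ⟨hzX12, hzX⟩, mem_sdiff.mpr ⟨hy, hyX12⟩, hadj.symm⟩)
    rw [card_insert_of_notMem (by simp [n8, y3.symm]), card_pair (by simp [y3.symm]), e4]
      at this
    norm_num at this
  have s1 := size_six p11 p12 p13 n2 n3 akk nk1 nk2 p17 hcl1
  have s2 := size_six p21 p22 p23 n4 n6 akk nk1b nk2b p27 hcl2
  have s3 := size_six p31 p32 p33 n5 n7 akk nk1c nk2c p37 hcl3
  have c1 := card_union_add_card_inter X1 X2
  have c2 := card_union_add_card_inter (X1 ∪ X2) X3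
  rw [i12, card_pair n1] at c1
  rw [i3, card_pair n1, ← hU] at c2
  omega

end Pool.Agent.V7H24.Rig
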