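import Pool.Agent.V7H24.Rig.Bilin

set_option autoImplicit false
set_option linter.unusedSectionVars false

namespace Pool.Agent.V7H24.Rig

open Finset

variable {n : ℕ}

theorem Tw_lin (N : Finset (Fin n)) (p u : Fin n → Fin 3 → ℝ) (a α β ω : Fin n → ℝ) (s t : ℝ)
    (h : ∀ i ∈ N, a i = s * α i + t * β i) :
    Tw N p u a ω = s * Tw N p u α ω + t * Tw N p u β ω := by
  unfold Tw
  rw [mul_sum, mul_sum, ← sum_add_distrib]
  refine sum_congr rfl fun i hi => ?_
  rw [mul_sum, mul_sum, ← sum_add_distrib]
  refine sum_congr rfl fun j _ => ?_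
  rw [h i hi]
  ring

theorem Bil_expand (N : Finset (Fin n)) (p u : Fin n → Fin 3 → ℝ) (α β : Fin n → ℝ) :
    Bil N p u α β = ∑ j ∈ N, β j * Bil N p u α (Pi.single j 1) := by
  unfold Bil
  rw [sum_comm]
  refine sum_congr rfl fun j hj => ?_
  rw [mul_sum]
  refine sum_congr rfl fun i _ => ?_
  rw [sum_eq_single_of_mem j hj]
  · simp; ring
  · intro b _ hb
    simp [hb]

theorem sum_nb_eq {G : SimpleGraph (Fin n)} {v : Fin n} {M : Type*} [AddCommMonoid M]
    (F : Fin n → M) (h : ∀ i, i ∉ nb G v → F i = 0) : ∑ i, F i = ∑ i ∈ nb G v, F i := by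
  symm
  apply sum_subset (subset_univ _)
  intro i _ hi
  exact h i hi

section
variable {G : SimpleGraph (Fin n)} {p : Fin n → Fin 3 → ℝ} {v : Fin n} {l : Fin n → ℝ}

theorem star_identity (hG : Circ G) (hp : Gen p) (hv : (nb G v).card = 5)
    (l1 : ∑ i ∈ nb G v, l i = 0) (l2 : ∑ i ∈ nb G v, l i • p i = 0)
    (l3 : ∀ i ∈ nb G v, l i ≠ 0)
    {u1 u2 : Fin n → Fin 3 → ℝ} (hu1 : IsMotion (del G v) p u1) (hu2 : IsMotion (del G v) p u2)
    {ω : Fin n → ℝ} (hσ : ∑ i ∈ nb G v, ω i ≠ 0) :
    Bil (nb G v) p u1 ω ω * Bil (nb G v) p u2 l ω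
      = Bil (nb G v) p u2 ω ω * Bil (nb G v) p u1 l ω := by
  set N := nb G v with hN
  set σ := ∑ i ∈ N, ω i with hσdef
  set q : Fin 3 → ℝ := σ⁻¹ • ∑ i ∈ N, ω i • p i with hqdef
  have hq : ∑ i ∈ N, ω i • p i = σ • q := by
    rw [hqdef, smul_smul, mul_inv_cancel₀ hσ, one_smul]
  have hvne : nb G v ≠ ∅ := by
    intro h; rw [hN, h] at hv; simp at hv
  obtain ⟨ωs, hωs, a0, b0, hne⟩ := exists_stress hG.dep (Function.update p v q)
  obtain ⟨s1, s2, s3⟩ := star_of_stress hωs
  have hI : IndepAt (del G v) p := hp.2 _ (del_indep hG hvne)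
  have ha0 : ∀ i, i ∉ N → ωs v i = 0 := fun i hi =>
    hωs.1.supp v i (fun h => hi (mem_nb.mpr h))
  have s1' : ∑ i ∈ N, ωs v i • (q - p i) = 0 := by
    rw [← s1, hN]; symm
    exact sum_nb_eq _ (fun i hi => by rw [ha0 i hi, zero_smul])
  set σa := ∑ i ∈ N, ωs v i with hσa
  let m : Fin n → ℝ := fun i => ωs v i - (σa / σ) * ω i
  have m1 : ∑ i ∈ N, m i = 0 := by
    simp only [m, sum_sub_distrib, ← mul_sum, ← hσdef, ← hσa]
    field_simp; ring
  have m2 : ∑ i ∈ N, m i • p i = 0 := by
    simp only [m, sub_smul, mul_smul, sum_sub_distrib, ← smul_sum]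
    rw [hq]
    simp only [smul_sub, sum_sub_distrib, ← sum_smul] at s1'
    rw [← hσa, sub_eq_zero] at s1'
    rw [← s1', smul_smul (σa / σ) σ q, div_mul_cancel₀ _ hσ, sub_self]
  obtain ⟨i0, hi0⟩ := nonempty_iff_ne_empty.mpr hvne
  have hm := affine_dep_unique hp.1 hv l1 l2 m1 m2 hi0 (l3 i0 hi0)
  set β := m i0 / l i0 with hβ
  have hlin : ∀ i ∈ N, ωs v i = (σa / σ) * ω i + β * l i := by
    intro i hi
    have := hm i hi
    simp only [m] at this
    linarith
  have hwork : ∀ u, IsMotion (del G v) p u →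
      (σa / σ) * Bil N p u ω ω + 2 * β * Bil N p u l ω = 0 := by
    intro u hu
    have h1 := s2 u hu
    have h2 : ∑ i ∈ N, ωs v i * ((q - p i) ⬝ᵥ u i) = 0 := by
      rw [← h1, hN]; symm
      exact sum_nb_eq _ (fun i hi => by rw [ha0 i hi, zero_mul])
    have h3 := Tw_q (u := u) hq (fun i => ωs v i)
    rw [h2, mul_zero, Tw_lin N p u _ ω l ω _ _ hlin] at h3
    have h4 := Bil_eq (N := N) (p := p) (u := u) ω ω
    have h5 := Bil_eq (N := N) (p := p) (u := u) l ω
    rw [Tw_lam l1 l2 ω] at h5
    rw [h4, h5]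
    linear_combination (-2) * h3
  have hnz : ¬ (σa / σ = 0 ∧ β = 0) := by
    rintro ⟨h1, h2⟩
    apply hne
    apply s3 hI
    intro i
    by_cases hi : i ∈ N
    · rw [hlin i hi, h1, h2]; ring
    · exact ha0 i hi
  have e1 := hwork u1 hu1
  have e2 := hwork u2 hu2
  by_cases hα : σa / σ = 0
  · have hβ0 : β ≠ 0 := fun h => hnz ⟨hα, h⟩
    rw [hα] at e1 e2
    have f1 : Bil N p u1 l ω = 0 := by
      have : 2 * β * Bil N p u1 l ω = 0 := by linarith
      rcases mul_eq_zero.mp this with h | h
      · exact absurd h (mul_ne_zero two_ne_zero hβ0)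
      · exact h
    have f2 : Bil N p u2 l ω = 0 := by
      have : 2 * β * Bil N p u2 l ω = 0 := by linarith
      rcases mul_eq_zero.mp this with h | h
      · exact absurd h (mul_ne_zero two_ne_zero hβ0)
      · exact h
    rw [f1, f2]; ring
  · have : (σa / σ) * (Bil N p u1 ω ω * Bil N p u2 l ω - Bil N p u2 ω ω * Bil N p u1 l ω) = 0 := by
      linear_combination (Bil N p u2 l ω) * e1 - (Bil N p u1 l ω) * e2
    rcases mul_eq_zero.mp this with h | h
    · exact absurd h hα
    · linarith

theorem star_identity_all (hG : Circ G) (hp : Gen p) (hv : (nb G v).card = 5)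
    (l1 : ∑ i ∈ nb G v, l i = 0) (l2 : ∑ i ∈ nb G v, l i • p i = 0)
    (l3 : ∀ i ∈ nb G v, l i ≠ 0)
    {u1 u2 : Fin n → Fin 3 → ℝ} (hu1 : IsMotion (del G v) p u1) (hu2 : IsMotion (del G v) p u2)
    (ω : Fin n → ℝ) :
    Bil (nb G v) p u1 ω ω * Bil (nb G v) p u2 l ω
      = Bil (nb G v) p u2 ω ω * Bil (nb G v) p u1 l ω := by
  classical
  have hvne : (nb G v).Nonempty := card_pos.mp (by omega)
  obtain ⟨i0, hi0⟩ := hvne
  have hd : Dense {ω : Fin n → ℝ | ∑ i ∈ nb G v, ω i ≠ 0} := by
    apply dense_ne (fun ω : Fin n → ℝ => ∑ i ∈ nb G v, ω i) (x0 := Pi.single i0 1)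
    · intro x y t
      simp only [Pi.add_apply, Pi.smul_apply, Pi.sub_apply, smul_eq_mul, sum_add_distrib,
        ← mul_sum, sum_sub_distrib]
    · rw [sum_eq_single_of_mem i0 hi0]
      · simp
      · intro b _ hb; simp [hb]
  have hc1 : Continuous (fun ω : Fin n → ℝ =>
      Bil (nb G v) p u1 ω ω * Bil (nb G v) p u2 l ω) :=
    Bil_cont_diag.mul (Bil_cont_right l)
  have hc2 : Continuous (fun ω : Fin n → ℝ =>
      Bil (nb G v) p u2 ω ω * Bil (nb G v) p u1 l ω) :=
    Bil_cont_diag.mul (Bil_cont_right l)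
  have := Continuous.ext_on hd hc1 hc2 (fun ω hω =>
    star_identity hG hp hv l1 l2 l3 hu1 hu2 hω)
  exact congrFun this ω

/-- a quadratic form vanishing off the zero set of a nonzero linear form vanishes -/
theorem quad_zero {N : Finset (Fin n)} {u u0 : Fin n → Fin 3 → ℝ} {a : Fin n → ℝ}
    (h0 : Bil N p u0 l a ≠ 0)
    (h : ∀ ω, Bil N p u0 l ω ≠ 0 → Bil N p u ω ω = 0) (ω : Fin n → ℝ) : Bil N p u ω ω = 0 := by
  have hd : Dense {ω : Fin n → ℝ | Bil N p u0 l ω ≠ 0} := by
    apply dense_ne (fun ω : Fin n → ℝ => Bil N p u0 l ω) (x0 := a) _ h0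
    intro x y t
    have : y - x = y + (-1 : ℝ) • x := by module
    rw [this, Bil_add_right, Bil_smul_right, Bil_add_right, Bil_smul_right]
    simp only [smul_eq_mul]
    ring
  have := Continuous.ext_on hd (Bil_cont_diag (N := N) (p := p) (u := u)) continuous_const
    (g := fun _ => (0:ℝ)) (fun ω hω => h ω hω)
  exact congrFun this ω

theorem len_of_quad {N : Finset (Fin n)} {u : Fin n → Fin 3 → ℝ}
    (h : ∀ ω, Bil N p u ω ω = 0) {i j : Fin n} (hi : i ∈ N) (hj : j ∈ N) :
    len p u i j = 0 := by
  have h1 := h (Pi.single i 1 + (1:ℝ) • Pi.single j 1)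
  rw [Bil_quad, Bil_single hi hi, Bil_single hi hj, Bil_single hj hj, len_self, len_self] at h1
  linarith

/-- outcome of the vertex analysis when the star sum at `v` does not vanish -/
theorem star_outcome (hG : Circ G) (hp : Gen p) (hv : (nb G v).card = 5)
    {ωG : Fin n → Fin n → ℝ} (hωG : IsStress G p ωG) (hσ : ∑ i ∈ nb G v, ωG v i ≠ 0) :
    ∃ (C : Fin n → ℝ) (A : (Fin n → Fin 3 → ℝ) → Fin n → ℝ),
      (∀ u, IsMotion (del G v) p u → ∀ i ∈ nb G v, C i * A u i = 0) ∧
      (∀ u, IsMotion (del G v) p u → ∀ i ∈ nb G v, ∀ j ∈ nb G v, i ≠ j →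
        2 * len p u i j = C i * A u j + C j * A u i) ∧
      (∃ i ∈ nb G v, C i ≠ 0) ∧
      (∀ r ∈ nb G v, ∀ s ∈ nb G v, r ≠ s →
        ∃ u, IsMotion (del G v) p u ∧ ∃ i ∈ nb G v, i ≠ r ∧ i ≠ s ∧ A u i ≠ 0) := by
  classical
  obtain ⟨l, l1, l2, l3, l4⟩ := affine_dep hp.1 hv
  set N := nb G v with hN
  set a : Fin n → ℝ := fun i => ωG v i with hadef
  have hvne : nb G v ≠ ∅ := by
    intro h; rw [hN, h] at hv; simp at hv
  have hall := fun u1 u2 (h1 : IsMotion (del G v) p u1) (h2 : IsMotion (del G v) p u2) =>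
    star_identity_all hG hp hv l1 l2 l3 h1 h2
  have ha0 : ∀ i, i ∉ N → a i = 0 := fun i hi =>
    hωG.1.supp v i (fun h => hi (mem_nb.mpr h))
  obtain ⟨s1, s2, s3⟩ := star_of_stress (p := p) (v := v) (q := p v) (ω := ωG)
    (by rw [Function.update_eq_self]; exact hωG)
  have s1' : ∑ i ∈ N, a i • (p v - p i) = 0 := by
    rw [← s1, hN]; symm
    exact sum_nb_eq _ (fun i hi => by
      show a i • _ = 0
      rw [ha0 i hi, zero_smul])
  set σ := ∑ i ∈ N, a i with hσdef
  have hq : ∑ i ∈ N, a i • p i = σ • p v := by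
    simp only [smul_sub, sum_sub_distrib, ← sum_smul] at s1'
    rw [← hσdef, sub_eq_zero] at s1'
    exact s1'.symm
  -- the quadratic forms vanish at `a`
  have hQa : ∀ u, IsMotion (del G v) p u → Bil N p u a a = 0 := by
    intro u hu
    have h1 := s2 u hu
    have h2 : ∑ i ∈ N, a i * ((p v - p i) ⬝ᵥ u i) = 0 := by
      rw [← h1, hN]; symm
      exact sum_nb_eq _ (fun i hi => by
        show a i * _ = 0
        rw [ha0 i hi, zero_mul])
    have h3 := Tw_q (u := u) hq a
    rw [h2, mul_zero] at h3
    rw [Bil_eq, h3]; ring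
  have hAq : ∀ u : Fin n → Fin 3 → ℝ,
      Bil N p u l a = - (σ * ∑ i ∈ N, l i * ((p v - p i) ⬝ᵥ u i)) := by
    intro u
    rw [Bil_eq, Tw_lam l1 l2 a, Tw_q hq l]; ring
  -- some linear form does not vanish at `a`
  have hA0 : ∃ u0, IsMotion (del G v) p u0 ∧ Bil N p u0 l a ≠ 0 := by
    by_contra hno
    push Not at hno
    have hbal : ∑ i, l i • (p v - p i) = 0 := by
      rw [sum_nb_eq (G := G) (v := v) _ (fun i hi => by rw [l4 i hi, zero_smul])]
      simp only [smul_sub, sum_sub_distrib, ← sum_smul]
      rw [← hN, l1, l2]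
      simp
    obtain ⟨ω', hω', hω'v⟩ := star_extends (G := G) (p := p) (v := v) (f := l)
      (fun i hi => l4 i hi) hbal (fun u hu => by
        have h1 := hno u hu
        rw [hAq, neg_eq_zero, mul_eq_zero] at h1
        rcases h1 with h1 | h1
        · exact absurd h1 hσ
        · rw [← h1, hN]
          exact sum_nb_eq _ (fun i hi => by rw [l4 i hi, zero_mul]))
    -- uniqueness of the stress
    obtain ⟨i0, hi0⟩ := nonempty_iff_ne_empty.mpr hvne
    have hadj : G.Adj v i0 := mem_nb.mp hi0
    have hne0 : ωG v i0 ≠ 0 := by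
      intro h0
      apply hσ
      apply sum_eq_zero
      intro i _
      exact circ_zero hG hp hωG hadj h0 v i
    have huniq := circ_unique hG hp hωG hω' hadj hne0
    have h1 : ∑ i ∈ N, l i = (ω' v i0 / ωG v i0) * σ := by
      rw [hσdef, mul_sum]
      refine sum_congr rfl fun i _ => ?_
      rw [← hω'v i, huniq v i]
    rw [l1] at h1
    have h2 : ω' v i0 / ωG v i0 = 0 := by
      rcases mul_eq_zero.mp h1.symm with h | h
      · exact h
      · exact absurd h hσ
    rw [div_eq_zero_iff] at h2
    rcases h2 with h2 | h2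
    · rw [hω'v i0] at h2
      exact l3 i0 hi0 h2
    · exact hne0 h2
  obtain ⟨u0, hu0, hA⟩ := hA0
  by_cases hprop : ∀ u1, IsMotion (del G v) p u1 → ∀ ω, Bil N p u0 l ω = 0 → Bil N p u1 l ω = 0
  · -- all linear forms proportional: `K_6`
    exfalso
    have hzero : ∀ u, IsMotion G p u → ∀ i ∈ N, ∀ j ∈ N, len p u i j = 0 := by
      intro u hu
      have hu' : IsMotion (del G v) p u := hu.mono (del_le G v)
      have hla : Bil N p u l a = 0 := by
        rw [hAq]
        have h1 : ∀ i ∈ N, (p v - p i) ⬝ᵥ u i = (p v - p i) ⬝ᵥ u v := by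
          intro i hi
          have := hu v i (mem_nb.mp hi)
          unfold len at this
          rw [dotProduct_sub] at this
          linarith
        rw [sum_congr rfl fun i hi => by rw [h1 i hi]]
        have h2 : ∑ i ∈ N, l i * ((p v - p i) ⬝ᵥ u v)
            = (∑ i ∈ N, l i • (p v - p i)) ⬝ᵥ u v := by
          rw [sum_dotProduct]
          refine sum_congr rfl fun i _ => ?_
          rw [smul_dotProduct, smul_eq_mul]
        rw [h2]
        simp only [smul_sub, sum_sub_distrib, ← sum_smul]
        rw [l1, l2]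
        simp
      have hlω : ∀ ω, Bil N p u l ω = 0 := by
        intro ω
        have h1 := hprop u hu' (ω + (-(Bil N p u0 l ω / Bil N p u0 l a)) • a) (by
          rw [Bil_add_right, Bil_smul_right]; field_simp; ring)
        rw [Bil_add_right, Bil_smul_right, hla, mul_zero, add_zero] at h1
        exact h1
      have hq0 : ∀ ω, Bil N p u ω ω = 0 := by
        apply quad_zero hA
        intro ω hω
        have h1 := hall u u0 hu' hu0 ω
        rw [hlω ω, mul_zero] at h1
        rcases mul_eq_zero.mp h1 with h | h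
        · exact h
        · exact absurd h hω
      intro i hi j hj
      exact len_of_quad hq0 hi hj
    have hne : ∀ i ∈ N, nb G i ≠ ∅ := by
      intro i hi h
      have : v ∈ nb G i := nb_symm.mp hi
      rw [h] at this
      simp at this
    have hcomp : ∀ i ∈ insert v N, ∀ j ∈ insert v N, i ≠ j → G.Adj i j := by
      intro i hi j hj hij
      rw [mem_insert] at hi hj
      rcases hi with rfl | hi
      · rcases hj with rfl | hj
        · exact absurd rfl hij
        · exact mem_nb.mp hj
      · rcases hj with rfl | hj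
        · exact (mem_nb.mp hi).symm
        · exact lemA'' hG hp hij (hne i hi) (hne j hj) (fun u hu => hzero u hu i hi j hj)
    have h1 := cr_complete hcomp
    have hc : (insert v N).card = 6 := by
      rw [card_insert_of_notMem not_mem_nb_self, hv]
    have h2 := hG.sp (insert v N) (by omega)
    unfold g at h2
    rw [h1, hc] at h2
    norm_num at h2
  · push Not at hprop
    obtain ⟨u1, hu1, ω1, h01, h11⟩ := hprop
    -- the first quadratic form vanishes on the kernel of its linear form
    have hker : ∀ ω, Bil N p u0 l ω = 0 → Bil N p u0 ω ω = 0 := by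
      have hstep : ∀ ω, Bil N p u0 l ω = 0 → Bil N p u1 l ω ≠ 0 → Bil N p u0 ω ω = 0 := by
        intro ω h0 h1
        have h2 := hall u0 u1 hu0 hu1 ω
        rw [h0, mul_zero] at h2
        rcases mul_eq_zero.mp h2 with h | h
        · exact h
        · exact absurd h h1
      intro ω h0
      by_cases h1 : Bil N p u1 l ω = 0
      · have hb := hstep ω1 h01 h11
        have hp1 := hstep (ω + (1:ℝ) • ω1)
          (by rw [Bil_add_right, Bil_smul_right, h0, h01]; ring)
          (by rw [Bil_add_right, Bil_smul_right, h1]; simpa using h11)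
        have hm1 := hstep (ω + (-1:ℝ) • ω1)
          (by rw [Bil_add_right, Bil_smul_right, h0, h01]; ring)
          (by rw [Bil_add_right, Bil_smul_right, h1]; simpa using h11)
        rw [Bil_quad, hb] at hp1 hm1
        linarith
      · exact hstep ω h0 h1
    have hQ0a := hQa u0 hu0
    -- factorization of the first quadratic form
    have hfac0 : ∀ ω, Bil N p u0 ω ω
        = ((2 / Bil N p u0 l a) * Bil N p u0 ω a) * Bil N p u0 l ω := by
      intro ω
      have h1 := hker (ω + (-(Bil N p u0 l ω / Bil N p u0 l a)) • a) (by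
        rw [Bil_add_right, Bil_smul_right]; field_simp; ring)
      rw [Bil_quad, hQ0a] at h1
      have h2 : Bil N p u0 ω ω = 2 * (Bil N p u0 l ω / Bil N p u0 l a) * Bil N p u0 ω a := by
        linarith
      rw [h2]; ring
    -- factorization of all quadratic forms
    have hfac : ∀ u, IsMotion (del G v) p u → ∀ ω, Bil N p u ω ω
        = ((2 / Bil N p u0 l a) * Bil N p u0 ω a) * Bil N p u l ω := by
      intro u hu
      have hd : Dense {ω : Fin n → ℝ | Bil N p u0 l ω ≠ 0} := by
        apply dense_ne (fun ω : Fin n → ℝ => Bil N p u0 l ω) (x0 := a) _ hA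
        intro x y t
        have : y - x = y + (-1 : ℝ) • x := by module
        rw [this, Bil_add_right, Bil_smul_right, Bil_add_right, Bil_smul_right]
        simp only [smul_eq_mul]
        ring
      have hc : Continuous (fun ω => ((2 / Bil N p u0 l a) * Bil N p u0 ω a) * Bil N p u l ω) := by
        refine (continuous_const.mul ?_).mul (Bil_cont_right l)
        have : (fun ω => Bil N p u0 ω a) = (fun ω => Bil N p u0 a ω) := by
          funext ω; exact Bil_symm ω a
        rw [this]
        exact Bil_cont_right a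
      have := Continuous.ext_on hd (Bil_cont_diag (N := N) (p := p) (u := u)) hc (by
        intro ω hω
        have h1 := hall u u0 hu hu0 ω
        rw [hfac0 ω] at h1
        have h2 : Bil N p u0 l ω * (Bil N p u ω ω
            - ((2 / Bil N p u0 l a) * Bil N p u0 ω a) * Bil N p u l ω) = 0 := by
          linear_combination h1
        rcases mul_eq_zero.mp h2 with h | h
        · exact absurd h hω
        · exact sub_eq_zero.mp h)
      intro ω
      exact congrFun this ω
    let C : Fin n → ℝ := fun i => (2 / Bil N p u0 l a) * Bil N p u0 (Pi.single i 1) a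
    let A : (Fin n → Fin 3 → ℝ) → Fin n → ℝ := fun u i => Bil N p u l (Pi.single i 1)
    have hdiag : ∀ u, IsMotion (del G v) p u → ∀ i ∈ N, C i * A u i = 0 := by
      intro u hu i hi
      have h1 := hfac u hu (Pi.single i 1)
      rw [Bil_single hi hi, len_self] at h1
      exact h1.symm
    have hoff : ∀ u, IsMotion (del G v) p u → ∀ i ∈ N, ∀ j ∈ N, i ≠ j →
        2 * len p u i j = C i * A u j + C j * A u i := by
      intro u hu i hi j hj _
      have h1 := hfac u hu (Pi.single i 1 + (1:ℝ) • Pi.single j 1)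
      rw [Bil_quad, Bil_single hi hi, Bil_single hi hj, Bil_single hj hj, len_self, len_self,
        Bil_add_left, Bil_smul_left, Bil_add_right, Bil_smul_right] at h1
      have h2 := hdiag u hu i hi
      have h3 := hdiag u hu j hj
      simp only [C, A] at h2 h3 ⊢
      linear_combination h1 + h2 + h3
    refine ⟨C, A, hdiag, hoff, ?_, ?_⟩
    · by_contra hno
      push Not at hno
      apply hA
      unfold Bil
      refine sum_eq_zero fun i hi => sum_eq_zero fun j hj => ?_
      by_cases hij : i = j
      · subst hij; rw [len_self, mul_zero]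
      · have h1 := hoff u0 hu0 i hi j hj hij
        rw [hno i hi, hno j hj] at h1
        have : len p u0 i j = 0 := by linarith
        rw [this, mul_zero]
    · intro r hr s hs hrs
      by_contra hno
      push Not at hno
      -- the value of the linear form
      have hval : ∀ u, IsMotion (del G v) p u → ∀ ω, Bil N p u l ω = ω r * A u r + ω s * A u s := by
        intro u hu ω
        rw [Bil_expand]
        have h1 : ∑ j ∈ N, ω j * Bil N p u l (Pi.single j 1)
            = ∑ j ∈ ({r, s} : Finset (Fin n)), ω j * Bil N p u l (Pi.single j 1) := by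
          symm
          apply sum_subset
          · intro z hz
            simp only [mem_insert, mem_singleton] at hz
            rcases hz with rfl | rfl
            · exact hr
            · exact hs
          · intro z hz hz'
            simp only [mem_insert, mem_singleton, not_or] at hz'
            have := hno u hu z hz hz'.1 hz'.2
            simp only [A] at this
            rw [this, mul_zero]
        rw [h1, sum_pair hrs]
      have hll : ∀ u : Fin n → Fin 3 → ℝ, Bil N p u l l = 0 := by
        intro u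
        rw [Bil_eq, Tw_lam l1 l2 l]; ring
      have hrel : ∀ u, IsMotion (del G v) p u → A u r = -(l s / l r) * A u s := by
        intro u hu
        have h1 := hval u hu l
        rw [hll] at h1
        have h2 := l3 r hr
        field_simp
        linarith
      have k0 := hval u0 hu0 ω1
      have k1 := hval u1 hu1 ω1
      have ka := hval u0 hu0 a
      rw [hrel u0 hu0] at k0 ka
      rw [hrel u1 hu1] at k1
      have hs0 : A u0 s ≠ 0 := by
        intro h
        rw [h] at ka
        apply hA
        rw [ka]; ring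
      have hcoef : -(l s / l r) * ω1 r + ω1 s = 0 := by
        rw [h01] at k0
        have : A u0 s * (-(l s / l r) * ω1 r + ω1 s) = 0 := by linear_combination (-1) * k0
        rcases mul_eq_zero.mp this with h | h
        · exact absurd h hs0
        · exact h
      apply h11
      rw [k1]
      linear_combination (A u1 s) * hcoef

end

end Pool.Agent.V7H24.Rig
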